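import Pool.Agent.FLC.StA
import Pool.Agent.FL0.StR

/-!
# Random homomorphisms of non-oriented groups of genus 1 to `PSL_n(q)`: statements of the modules

MP_5b5212_al: the groups `x_j ^ m_j = 1`, `x_1 ⋯ x_d a ^ 2 = 1` with `σ = ∑ (1 - 1/m_j) > 1` (hyperbolic).
`S_X` is the statement of module `X`; the module proves `theorem t_X : M_X` (or `t_X : S_X` if there is
no `M_X`) in `Pool/Agent/FLN/X.lean`, namespace `FLN`, importing this file. Almost every module is an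
adaptation of the module of the same name in `Pool/Agent/FL0` or `Pool/Agent/FLC` (its proved lemmas may be
imported). `d = m.length`, `σ = sig m`, `q = Nat.card F`.
-/

namespace FLN

open RSF FL0 Polynomial Pool.Agent.Lib_helper13

noncomputable section

/-! ## 1. Counting -/

/-- **FSI**. On the subgroup `H` let `s`, `a` be the multiplicities of the trivial character in `Sym²` and `Λ²` of
the representation: `(1/|H|) ∑_{b ∈ H} X (b²) = s - a` (`X(b)² = s(b) + a(b)`, `X(b²) = s(b) - a(b)` for the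
characters), and `s + a = (1/|H|) ∑ X(b)²` has absolute value at most `(1/|H|) ∑ |X b|²`; `s, a ≥ 0`. Another
proof without `Sym²`: the trace of the swap on the `H`-invariants of `V ⊗ V`: the operator
`(1/|H|) ∑ ρ b ⊗ ρ b` composed with the swap `τ` has the trace `(1/|H|) ∑ X (b²)`, it is an involution on the
fixed space of `V ⊗ V` (dimension `(1/|H|) ∑ X(b)²`, real) and `0` on a complement. The second claim: `∑_{g} |X g|² = |G|`
for irreducible `X` (`X g⁻¹` is the conjugate). -/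
def S_FSI : Prop :=
  ∀ (G : Type) [Group G] [Fintype G] (X : G → ℂ) (H : Subgroup G), IsChr X →
    ‖∑ᶠ b : H, X ((b : G) ^ 2)‖ ≤ ∑ᶠ b : H, ‖X (b : G)‖ ^ 2 ∧
    (IsIrr X → ‖∑ᶠ b : H, X ((b : G) ^ 2)‖ ≤ Nat.card G)

/-- **FRO**. (Compare `FLC.S_FRO`.) By `FLC.S_FRB`, summed over `b`: for `H = SL_n` or `GL_n`
`N |GL_n| = ∏ |cl| ∑_X ∏ (X (y j) / X 1) X 1 ∑_{b ∈ H} X (b² z⁻¹)`. Linear `X = ld l` (`FLC.S_LIN`): for `SL_n` the term is
`l (∏ det y j / z^n) |SL_n| = |SL_n|`, sum `(q-1) |SL_n| = |GL_n|`; for `GL_n` it has absolute value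
`|∑_b l (det b)²|`, which is `0` or `|GL_n|`, the latter for at most two `l` (`l² = 1`; two roots in a cyclic
group). Other `X`: `|∑_{b ∈ H} X (b² z⁻¹)| = |∑ X (b²)| ≤ |GL_n|` (`z` acts by a scalar of absolute value `1`; `S_FSI`), and by
`FLC.S_FL` with `ε = (σ - 1) / (2 d)`, `∏ |X (y j)| X(1)^(1 - d) ≤ q^(∑ δ / 2) X(1)^(-(σ-1)/2)`, `FLC.S_ZET`: the sum is at
most `q^(∑ δ / 2) (q-1) q^(-c' n)`. Take `c < c'` (e.g. `c = c' / 2`, `n ≥ 2 / c'`). -/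
def S_FRO : Prop :=
  ∀ m : List ℕ, (∀ k ∈ m, 2 ≤ k) → 1 < sig m → ∃ (c : ℝ) (r : ℕ), 0 < c ∧ ∀ n, r ≤ n →
    ∀ (F : Type) [Field F] [Finite F], (∀ k ∈ m, k ∣ Nat.card F - 1) → ∀ z : F, z ≠ 0 →
    ∀ y : Fin m.length → GL (Fin n) F, (∀ j, y j ^ m.get j = 1) →
      (∏ j, (y j).1.det = z ^ n →
        |(Nat.card {t : (Fin m.length → GL (Fin n) F) × SL n F // (∀ j, IsConj (y j) (t.1 j)) ∧
            (List.ofFn fun j => (t.1 j).1).prod * t.2.1 ^ 2 = Matrix.scalar (Fin n) z} : ℝ) -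
          ∏ j, (Nat.card {t : GL (Fin n) F // IsConj (y j) t} : ℝ)| ≤
        (∏ j, (Nat.card {t : GL (Fin n) F // IsConj (y j) t} : ℝ)) *
          (Nat.card F : ℝ) ^ ((∑ j, del (m.get j) (y j).1) / 2 - c * n)) ∧
      (Nat.card {t : (Fin m.length → GL (Fin n) F) × GL (Fin n) F //
          (∀ j, IsConj (y j) (t.1 j)) ∧
          (List.ofFn fun j => (t.1 j).1).prod * t.2.1 ^ 2 = Matrix.scalar (Fin n) z} : ℝ) ≤
        (∏ j, (Nat.card {t : GL (Fin n) F // IsConj (y j) t} : ℝ)) *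
          (2 + (Nat.card F : ℝ) ^ ((∑ j, del (m.get j) (y j).1) / 2 - c * n))

def M_FRO : Prop :=
  FLC.S_MN → FLC.S_FRB → FLC.S_FL → FLC.S_ZET → FLC.S_LIN → S_FSI → S_FRO

/-- **UPB** (copy `FL0/UPB.lean`). Upper bound for given multiplicities, all dimensions `l`. For `l ≥ r` by `S_FRO` (second): at
most `3 q^(∑ δ_j / 2) ∏ |C_j|` (`∑ δ_j ≥ 0`). For `l < r`: at most `∏ |C_j| |GL_l| ≤ ∏ |C_j| q^(r^2)` (`y` is invertible because
`z ≠ 0`). `|C_j| ≤ 4^(m_j) q^(l^2 - sq)` (S_CLS). Exponent `d l^2 - |β|^2 + (|β|^2 - (d - σ) l^2)/2`. -/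
def S_UPB : Prop :=
  ∀ m : List ℕ, (∀ k ∈ m, 2 ≤ k) → 1 < sig m → ∃ C : ℝ, 0 ≤ C ∧
    ∀ (F V : Type) [Field F] [Finite F] [AddCommGroup V] [Module F V] [FiniteDimensional F V],
    (∀ k ∈ m, k ∣ Nat.card F - 1) → ∀ z : F, z ≠ 0 → ∀ β : Fin m.length → F → ℕ,
      (Nat.card {t : (Fin m.length → (V →ₗ[F] V)) × (V →ₗ[F] V) // (∀ j, t.1 j ^ m.get j = 1) ∧
        (∀ j ζ, ev (t.1 j) ζ = β j ζ) ∧ (List.ofFn t.1).prod * t.2 ^ 2 = z • 1} : ℝ) ≤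
      (Nat.card F : ℝ) ^ (C + (m.length + sig m) / 2 * (Module.finrank F V : ℝ) ^ 2 -
        (∑ j, ∑ᶠ ζ : F, (β j ζ : ℝ) ^ 2) / 2)

def M_UPB : Prop := S_PI → S_FRO → S_EVS → S_CLS → S_UPB

/-! ## 2. Block triangular matrices -/

section

variable {F A B V : Type} [Field F] [AddCommGroup A] [Module F A] [AddCommGroup B] [Module F B]
  [AddCommGroup V] [Module F V] {d : ℕ}

/-- the linear maps that commute with two families of endomorphisms and anticommute with `u`, `v` -/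
def Hn (α : Fin d → (A →ₗ[F] A)) (u : A →ₗ[F] A) (β : Fin d → (B →ₗ[F] B)) (v : B →ₗ[F] B) : Type :=
  {f : A →ₗ[F] B // (∀ j, f ∘ₗ α j = β j ∘ₗ f) ∧ f ∘ₗ u = -(v ∘ₗ f)}

/-- `W` is invariant under the `x j` and `y` -/
def Inn (x : Fin d → (V →ₗ[F] V)) (y : V →ₗ[F] V) (W : Submodule F V) : Prop :=
  Inv x W ∧ W ≤ W.comap y

/-- only `0` and `V` are invariant, `V ≠ 0` -/
def Sin (x : Fin d → (V →ₗ[F] V)) (y : V →ₗ[F] V) : Prop :=
  Nontrivial V ∧ ∀ W : Submodule F V, Inn x y W → W = ⊥ ∨ W = ⊤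

/-- the upper right block of `(∏ bk (a j) (c j) (b j)) (bk u e v)²`, linear in `(c, e)` -/
def un (a : Fin d → (A →ₗ[F] A)) (u : A →ₗ[F] A) (b : Fin d → (B →ₗ[F] B)) (v : B →ₗ[F] B)
    (c : Fin d → (B →ₗ[F] A)) (e : B →ₗ[F] A) : B →ₗ[F] A :=
  LinearMap.fst F A B ∘ₗ ((List.ofFn fun j => bk (a j) (c j) (b j)).prod * bk u e v ^ 2) ∘ₗ
    LinearMap.inr F A B

end

/-- **ZAN** (compare `FL0/ZAN.lean`). Let `I` be the set (a subspace) of the `un a u b v c e`, all `c_j` of the form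
`a_j h - h b_j`, `e` arbitrary. The functionals that kill `I` are `X ↦ tr (T X)`, `|B →ₗ A| / |I|` in number, and they inject into
`Hn a u b v`: with `P_i = a_0 ⋯ a_(i-1)`, `R_i = b_i ⋯ b_(d-1) v²` (`R_0 = z`, `P_d u² = z`) as in `FL0`: all `R_i T P_i` are equal to
`z T` and `T a_i = b_i T`. The blocks with `c = 0` are `P_d (u e + e v)`: `tr (T P_d (u e + e v)) = 0` for all `e` gives
`T P_d u = - v T P_d`; `P_d = z u⁻²`, so `T u⁻¹ = - v T u⁻²`, `T u = - v T` (`u` is invertible: `P_d u² = z`). -/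
def S_ZAN : Prop :=
  ∀ (F A B : Type) [Field F] [Finite F] [AddCommGroup A] [Module F A] [FiniteDimensional F A]
    [AddCommGroup B] [Module F B] [FiniteDimensional F B] (d : ℕ) (z : F), z ≠ 0 →
    ∀ (a : Fin d → (A →ₗ[F] A)) (u : A →ₗ[F] A) (b : Fin d → (B →ₗ[F] B)) (v : B →ₗ[F] B),
    (List.ofFn a).prod * u ^ 2 = z • 1 → (List.ofFn b).prod * v ^ 2 = z • 1 →
      Nat.card F ^ (Module.finrank F A * Module.finrank F B) ≤
        Nat.card {y : B →ₗ[F] A // ∃ (h : Fin d → (B →ₗ[F] A)) (e : B →ₗ[F] A),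
          un a u b v (fun j => a j ∘ₗ h j - h j ∘ₗ b j) e = y} * Nat.card (Hn a u b v)

/-- **ZON** (copy `FL0/ZON.lean`; one more free block `e`, `q^(k l)` possibilities). -/
def S_ZON : Prop :=
  ∀ (F A B : Type) [Field F] [Finite F] [AddCommGroup A] [Module F A] [FiniteDimensional F A]
    [AddCommGroup B] [Module F B] [FiniteDimensional F B] (m : List ℕ), (∀ k ∈ m, 2 ≤ k) →
    (∀ k ∈ m, k ∣ Nat.card F - 1) → ∀ z : F, z ≠ 0 →
    ∀ (a : Fin m.length → (A →ₗ[F] A)) (u : A →ₗ[F] A) (b : Fin m.length → (B →ₗ[F] B))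
      (v : B →ₗ[F] B), (∀ j, a j ^ m.get j = 1) → (∀ j, b j ^ m.get j = 1) →
      Nat.card {c : (Fin m.length → (B →ₗ[F] A)) × (B →ₗ[F] A) //
          (∀ j, bk (a j) (c.1 j) (b j) ^ m.get j = 1) ∧
          (List.ofFn fun j => bk (a j) (c.1 j) (b j)).prod * bk u c.2 v ^ 2 = z • 1} *
        Nat.card F ^ (Module.finrank F A * Module.finrank F B + pr a b) ≤
      Nat.card F ^ ((m.length + 1) * (Module.finrank F A * Module.finrank F B)) *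
        Nat.card (Hn a u b v)

def M_ZON : Prop := S_ZRG → S_ZCM → S_ZAN → S_ZON

/-- **FIB** (copy `FL0/FIB.lean`). -/
def S_FIB : Prop :=
  ∀ (F V : Type) [Field F] [Finite F] [AddCommGroup V] [Module F V] [FiniteDimensional F V]
    (m : List ℕ), (∀ k ∈ m, 2 ≤ k) → (∀ k ∈ m, k ∣ Nat.card F - 1) → ∀ z : F, z ≠ 0 →
    ∀ (W : Submodule F V) (a : Fin m.length → (W →ₗ[F] W)) (u : W →ₗ[F] W)
      (b : Fin m.length → ((V ⧸ W) →ₗ[F] (V ⧸ W))) (v : (V ⧸ W) →ₗ[F] (V ⧸ W)),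
    (∀ j, a j ^ m.get j = 1) → (∀ j, b j ^ m.get j = 1) →
      Nat.card {x : (Fin m.length → (V →ₗ[F] V)) × (V →ₗ[F] V) // (∀ j, x.1 j ^ m.get j = 1) ∧
          (List.ofFn x.1).prod * x.2 ^ 2 = z • 1 ∧ ∃ h : Inn x.1 x.2 W,
            sb x.1 W h.1 = a ∧ x.2.restrict h.2 = u ∧ qt x.1 W h.1 = b ∧ W.mapQ W x.2 h.2 = v} *
        Nat.card F ^ (Module.finrank F W * Module.finrank F (V ⧸ W) + pr a b) ≤
      Nat.card F ^ ((m.length + 1) * (Module.finrank F W * Module.finrank F (V ⧸ W))) *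
        Nat.card (Hn a u b v)

def M_FIB : Prop := S_ZON → S_FIB

/-! ## 3. Modules -/

/-- **SMP** (compare `FL0/SMP.lean`; it is the same for the `d + 1` endomorphisms `α j`, `u` of `A` and `β j`, `- v` of
`B`). (1) `f ↦ f v₀`, `v₀ ≠ 0` fixed, is injective (the kernel of `f` is invariant). (2) Let `U` be an eigenspace of `α j`,
`0 ≠ U ≠ A`, and `E` the algebra of the endomorphisms of `A` that commute with all `α j` and with `u` (a division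
algebra). `U` is stable under `E`. Let `w ≠ 0` be in `U`: `E w ⊆ U ≠ A`. Choose `v₀ ∉ E w`; the map `Hn × Hn → B`,
`(f, g) ↦ f v₀ + g w`, is injective: as in `FL0` (`FreeAlgebra F (Option (Fin d))`, `u` on `A` and `- v` on `B`). -/
def S_SMP : Prop :=
  ∀ (F A B : Type) [Field F] [Finite F] [AddCommGroup A] [Module F A] [FiniteDimensional F A]
    [AddCommGroup B] [Module F B] [FiniteDimensional F B] (d : ℕ)
    (α : Fin d → (A →ₗ[F] A)) (u : A →ₗ[F] A) (β : Fin d → (B →ₗ[F] B)) (v : B →ₗ[F] B), Sin α u →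
    Nat.card (Hn α u β v) ≤ Nat.card F ^ Module.finrank F B ∧
    ((∃ j ζ, 0 < ev (α j) ζ ∧ ev (α j) ζ < Module.finrank F A) →
      Nat.card (Hn α u β v) ^ 2 ≤ Nat.card F ^ Module.finrank F B)

/-- **HNF** (copy `FL0/HNF.lean`; kernel and range of `f` with `f y = - y f` are invariant under `y`). -/
def S_HNF : Prop :=
  ∀ (F V : Type) [Field F] [Finite F] [AddCommGroup V] [Module F V] [FiniteDimensional F V]
    (d : ℕ) (x : Fin d → (V →ₗ[F] V)) (y : V →ₗ[F] V) (j : Fin d) (k : ℕ), 1 ≤ k →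
    k ∣ Nat.card F - 1 → x j ^ k = 1 → ∀ (ζ : F) (W₁ : Submodule F V) (h₁ : Inn x y W₁),
    ev (x j) ζ * Module.finrank F W₁ < ev (sb x W₁ h₁.1 j) ζ * Module.finrank F V →
      ∃ (W : Submodule F V) (h : Inn x y W), W ≠ ⊥ ∧ W ≠ ⊤ ∧
        ∀ f : Hn (sb x W h.1) (y.restrict h.2) (qt x W h.1) (W.mapQ W y h.2), f.1 = 0

def M_HNF : Prop := S_DIA → S_HNF

/-- **DEC** (compare `FL0/DEC.lean`). Let `W` be a nonzero invariant subspace of minimal dimension `k`; it is simple,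
`k < n`, `l = n - k`, `a = sb x W`. If `n ev(a_j) ζ > k ev(x_j) ζ` for some `j`, `ζ`: S_HNF, `|Hn| = 1`. Otherwise
`n ev(a_j) ζ = k ev(x_j) ζ` for all `j`, `ζ` (both sides have the sum `n k`, S_DIA), so `sq x_j = (n/k)^2 sq a_j`. (1) `k ≥ 2 / (σ - 1)`:
`|Hn| ≤ q^l ≤ q^((σ-1) k l / 2)` (S_SMP). (2) `k < 2 / (σ - 1)` and some `m_j` does not divide `k`: `sq a_j - k^2 / m_j ≥ 1 / m_j`
(`FL0.S_STR`), `sq x_j - n^2 / m_j ≥ n^2 / (k^2 m_j) ≥ c₀ n^2`, `c₀ = min (1/2) ((σ-1)^2 / (4 m.sum))`. (3) All `m_j` divide `k`: `k ≥ 2`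
(`d ≥ 1`), `k (σ - 1) = k (d - 1) - ∑ k / m_j` is a positive integer. If some `a_j` is a scalar `ζ` then `ev(x_j) ζ = n`,
`sq x_j - n^2 / m_j = n^2 (1 - 1/m_j) ≥ n^2 / 2`. Otherwise `a_0` has an eigenspace `≠ 0`, `≠ W`: `|Hn| ≤ q^(l/2) ≤ q^((σ-1) k l / 2)`
(S_SMP, second). -/
def S_DEC : Prop :=
  ∀ m : List ℕ, (∀ k ∈ m, 2 ≤ k) → 1 < sig m → ∃ c₀ : ℝ, 0 < c₀ ∧
    ∀ (F V : Type) [Field F] [Finite F] [AddCommGroup V] [Module F V] [FiniteDimensional F V],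
    (∀ k ∈ m, k ∣ Nat.card F - 1) → ∀ (x : Fin m.length → (V →ₗ[F] V)) (y : V →ₗ[F] V),
    (∀ j, x j ^ m.get j = 1) → (∃ W : Submodule F V, Inn x y W ∧ W ≠ ⊥ ∧ W ≠ ⊤) →
      (∃ j, c₀ * (Module.finrank F V : ℝ) ^ 2 ≤
        (sq (x j) : ℝ) - (Module.finrank F V : ℝ) ^ 2 / m.get j) ∨
      ∃ (W : Submodule F V) (h : Inn x y W), W ≠ ⊥ ∧ W ≠ ⊤ ∧
        (Nat.card (Hn (sb x W h.1) (y.restrict h.2) (qt x W h.1) (W.mapQ W y h.2)) : ℝ) ≤
          (Nat.card F : ℝ) ^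
            ((sig m - 1) / 2 * Module.finrank F W * Module.finrank F (V ⧸ W))

def M_DEC : Prop := S_DIA → S_SMP → S_HNF → FL0.S_STR → S_DEC

/-! ## 4. The count of the reducible tuples -/

/-- **PAR** (copy `FL0/PAR.lean`). At most `q^(C + κ k^2 - |β|^2/2)` and `q^(C + κ l^2 - |β'|^2/2)` possible pairs on `W`, `V / W`
(S_UPB, `κ = (d + σ)/2`), and for each of them at most `q^(d k l - <β,β'>) H` possible `x` (S_FIB).
`κ (k^2 + l^2) = κ n^2 - (d + σ) k l`, `|β + β'|^2 ≥ (d - σ) n^2`, `κ n^2 - (d - σ) n^2 / 2 = σ n^2`. -/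
def S_PAR : Prop :=
  ∀ m : List ℕ, (∀ k ∈ m, 2 ≤ k) → 1 < sig m → ∃ C : ℝ, 0 ≤ C ∧
    ∀ (F V : Type) [Field F] [Finite F] [AddCommGroup V] [Module F V] [FiniteDimensional F V],
    (∀ k ∈ m, k ∣ Nat.card F - 1) → ∀ z : F, z ≠ 0 → ∀ (W : Submodule F V) (H : ℝ), 0 ≤ H →
      (Nat.card {x : (Fin m.length → (V →ₗ[F] V)) × (V →ₗ[F] V) // (∀ j, x.1 j ^ m.get j = 1) ∧
          (List.ofFn x.1).prod * x.2 ^ 2 = z • 1 ∧ ∃ h : Inn x.1 x.2 W,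
            (Nat.card (Hn (sb x.1 W h.1) (x.2.restrict h.2) (qt x.1 W h.1)
              (W.mapQ W x.2 h.2)) : ℝ) ≤ H} : ℝ) ≤
      ((Module.finrank F V : ℝ) + 1) ^ (2 * m.sum) *
        (Nat.card F : ℝ) ^ (C + sig m * (Module.finrank F V : ℝ) ^ 2 -
          sig m * (Module.finrank F W * Module.finrank F (V ⧸ W))) * H

def M_PAR : Prop := S_DIA → S_EVS → S_UPB → S_FIB → S_PAR

/-- **RED** (copy `FL0/RED.lean`). First alternative of S_DEC: at most `(n+1)^(m.sum)` multiplicity functions with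
`|β|^2 ≥ (d - σ) n^2 + c₀ n^2`, S_UPB: `q^(C + σ n^2 - c₀ n^2 / 2)` each. Second: for every `k`, `1 ≤ k ≤ n - 1`, at most `4 q^(k l)`
subspaces (S_SUB) and S_PAR with `H = q^((σ-1) k l / 2)`: exponent `C + σ n^2 - (σ-1) k l / 2`, `k l ≥ n - 1`. -/
def S_RED : Prop :=
  ∀ m : List ℕ, (∀ k ∈ m, 2 ≤ k) → 1 < sig m → ∃ (C : ℝ) (r : ℕ), 0 ≤ C ∧ ∀ n, r ≤ n →
    ∀ (F : Type) [Field F] [Finite F], (∀ k ∈ m, k ∣ Nat.card F - 1) → ∀ z : F, z ≠ 0 →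
      (Nat.card {t : (Fin m.length → GL (Fin n) F) × GL (Fin n) F //
        (∀ j, t.1 j ^ m.get j = 1) ∧
        (List.ofFn fun j => (t.1 j).1).prod * t.2.1 ^ 2 = Matrix.scalar (Fin n) z ∧
        ∃ W : Submodule F (Fin n → F), W ≠ ⊥ ∧ W ≠ ⊤ ∧
          (∀ j, ∀ w ∈ W, (t.1 j).1.mulVec w ∈ W) ∧ ∀ w ∈ W, t.2.1.mulVec w ∈ W} : ℝ) ≤
      ((n : ℝ) + 1) ^ C * (Nat.card F : ℝ) ^
        (sig m * (n : ℝ) ^ 2 + C - (sig m - 1) / 2 * n)

def M_RED : Prop := S_SUB → S_EVS → S_UPB → S_DEC → S_PAR → S_RED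

/-! ## 5. Homomorphisms and lifts -/

/-- the generator that is not elliptic -/
def n1 (m : List ℕ) : NGroup 1 m := PresentedGroup.of (NGen.a 0)

/-- **HO** (as `FL0/HO0.lean`, `RSF/H2.lean`). -/
def S_HO : Prop :=
  ∀ (G : Type) [Group G] (m : List ℕ) (E : (Fin m.length → G) → G → Prop),
    Nat.card {ρ : NGroup 1 m →* G // E (fun j => ρ (nx 1 m j)) (ρ (n1 m))} =
      Nat.card {t : (Fin m.length → G) × G // (∀ j, t.1 j ^ m.get j = 1) ∧ E t.1 t.2 ∧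
        (List.ofFn t.1).prod * t.2 ^ 2 = 1}

/-- **LFH** (as `FL0/LFH.lean`; `FL0.S_LFT` for `d + 1` elements or directly: the fibres of
`SL_n^(d+1) → PSL_n^(d+1)` have `g^(d+1)` elements). -/
def S_LFH : Prop :=
  ∀ (n : ℕ) (F : Type) [Field F] [Finite F] (m : List ℕ)
    (E : (Fin m.length → PS n F) → PS n F → Prop),
    Nat.card {A : (Fin m.length → SL n F) × SL n F //
        (∀ j, A.1 j ^ m.get j ∈ Subgroup.center (SL n F)) ∧
        E (fun j => mk (A.1 j)) (mk A.2) ∧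
        (List.ofFn A.1).prod * A.2 ^ 2 ∈ Subgroup.center (SL n F)} =
      Nat.card (Subgroup.center (SL n F)) ^ (m.length + 1) *
        Nat.card {ρ : NGroup 1 m →* PS n F // E (fun j => ρ (nx 1 m j)) (ρ (n1 m))}

def M_LFH : Prop := S_HO → S_LFH

/-- **SMC** (copy `FL0/SMC.lean`; `A j = c_j y j`, `∏ y j B² = s / ∏ c_j = z`; S_FRO first part). -/
def S_SMC : Prop :=
  ∀ m : List ℕ, (∀ k ∈ m, 2 ≤ k) → 1 < sig m → ∃ (c : ℝ) (r : ℕ), 0 < c ∧ 1 ≤ r ∧ ∀ n, r ≤ n →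
    ∀ (F : Type) [Field F] [Finite F], (∀ k ∈ m, k ∣ Nat.card F - 1) → (∀ k ∈ m, Ord n F k) →
    ∀ s ∈ Subgroup.center (SL n F),
      |(Nat.card {A : (Fin m.length → SL n F) × SL n F //
          (∀ j, A.1 j ^ m.get j ∈ Subgroup.center (SL n F)) ∧
          (List.ofFn A.1).prod * A.2 ^ 2 = s} : ℝ) -
          ∏ j, (Nat.card (CA n F (m.get j)) : ℝ)| ≤
        (∏ j, ∑ᶠ A : CA n F (m.get j), (Nat.card F : ℝ) ^ (del (m.get j) A.1.1 / 2)) *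
          (Nat.card F : ℝ) ^ (-c * (n : ℝ))

def M_SMC : Prop := S_FRO → S_ROT → S_EVS → S_SMC

/-- **CNT** (copy `FL0/CNT0.lean`). `∑_(s ∈ Z)` of the numbers of S_SMC is `g^(d+1)` times the number of homomorphisms (S_LFH),
`|CA n F k| = g jn k` (`FL0.S_LFH`). -/
def S_CNT : Prop :=
  ∀ m : List ℕ, (∀ k ∈ m, 2 ≤ k) → 1 < sig m → ∃ (c : ℝ) (r : ℕ), 0 < c ∧ 1 ≤ r ∧ ∀ n, r ≤ n →
    ∀ (F : Type) [Field F] [Finite F], (∀ k ∈ m, k ∣ Nat.card F - 1) → (∀ k ∈ m, Ord n F k) →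
      |(Nat.card (NGroup 1 m →* PS n F) : ℝ) / JJ (PS n F) m - 1| ≤
        (Nat.card F : ℝ) ^ (-c * (n : ℝ))

def M_CNT : Prop := FL0.S_LFH → S_LFH → S_SMC → S_ABS → S_POL → S_CNT

/-- **LOW** (copy `FL0/LOW.lean`): `(1/2) ∏ jn ≥ (1/2) |PSL_n|^d q^(∑ (- n^2/m_j - 4 m_j^2))`. -/
def S_LOW : Prop :=
  ∀ m : List ℕ, (∀ k ∈ m, 2 ≤ k) → 1 < sig m → ∃ (C : ℝ) (r : ℕ), 0 ≤ C ∧ ∀ n, r ≤ n →
    ∀ (F : Type) [Field F] [Finite F], (∀ k ∈ m, k ∣ Nat.card F - 1) → (∀ k ∈ m, Ord n F k) →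
      (Nat.card F : ℝ) ^ (sig m * (n : ℝ) ^ 2 - C) ≤ Nat.card (NGroup 1 m →* PS n F)

def M_LOW : Prop := S_PI → S_PJ → S_CNT → S_LOW

/-- **FII** (copy `FL0/FII.lean`). For given `(λ_j)` (at most `g^d` possibilities) and `s` the tuples `(y j, B)` are counted by
S_RED (`B ∈ SL_n ⊆ GL_n`). -/
def S_FII : Prop :=
  ∀ m : List ℕ, (∀ k ∈ m, 2 ≤ k) → 1 < sig m → ∃ (c : ℝ) (r : ℕ), 0 < c ∧ ∀ n, r ≤ n →
    ∀ (F : Type) [Field F] [Finite F], (∀ k ∈ m, k ∣ Nat.card F - 1) → (∀ k ∈ m, Ord n F k) →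
      prob (NGroup 1 m) (PS n F) (fun ρ => ¬ Irr ρ.range) ≤ (Nat.card F : ℝ) ^ (-c * (n : ℝ))

def M_FII : Prop := S_RED → S_LFH → S_ROT → S_LOW → S_POL → S_FII

/-- **FIII** (copy `FL0/FIII.lean`). For one conjugate `M'` at most `|M|^d` tuples (`x_1, …, x_(d-1)`, `a` in `M'`; `x_d` is
determined; `d ≥ 1`). In total at most `|S| |G| |M|^(d-1) ≤ |S| |G|^d q^(-θ (d-1) n^2)`, `|G| ≤ q^(n^2)`, and
`d - θ (d-1) < σ`. -/
def S_FIII : Prop :=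
  ∀ m : List ℕ, (∀ k ∈ m, 2 ≤ k) → 1 < sig m → ∀ θ : ℝ, (m.length - sig m) < θ * (m.length - 1) →
    ∃ (η : ℝ) (r : ℕ), 0 < η ∧ ∀ n, r ≤ n →
    ∀ (F : Type) [Field F] [Finite F], (∀ k ∈ m, k ∣ Nat.card F - 1) → (∀ k ∈ m, Ord n F k) →
    ∀ S : Set (Subgroup (PS n F)), (S.ncard : ℝ) ≤ (Nat.card F : ℝ) ^ (η * (n : ℝ) ^ 2) →
      (∀ M ∈ S, (Nat.card F : ℝ) ^ (θ * (n : ℝ) ^ 2) ≤ M.index) →
      prob (NGroup 1 m) (PS n F) (fun ρ => ∃ M ∈ S, InConj ρ.range M) ≤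
        (Nat.card F : ℝ) ^ (-(n : ℝ))

def M_FIII : Prop := S_HO → S_LOW → S_FIII

/-- The theorem. -/
def Main : Prop :=
  ∀ m : List ℕ, (∀ k ∈ m, 2 ≤ k) → 1 < sig m → ∀ θ : ℝ, (m.length - sig m) < θ * (m.length - 1) →
    ∃ (c : ℝ) (r : ℕ), 0 < c ∧ ∀ n, r ≤ n →
    ∀ (F : Type) [Field F] [Finite F], (∀ k ∈ m, k * Nat.gcd n (Nat.card F - 1) ∣ Nat.card F - 1) →
      |(Nat.card (NGroup 1 m →* PS n F) : ℝ) /
          (m.map fun k => (Nat.card {t : PS n F // t ^ k = 1} : ℝ)).prod - 1| ≤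
        (Nat.card F : ℝ) ^ (-c * (n : ℝ)) ∧
      ∀ S : Set (Subgroup (PS n F)), (S.ncard : ℝ) ≤ (Nat.card F : ℝ) ^ (c * (n : ℝ) ^ 2) →
        (∀ M ∈ S, (Nat.card F : ℝ) ^ (θ * (n : ℝ) ^ 2) ≤ M.index) →
        1 - (Nat.card F : ℝ) ^ (-c * (n : ℝ)) ≤ prob (NGroup 1 m) (PS n F)
          (fun ρ => Irr ρ.range ∧ ∀ M ∈ S, ¬ InConj ρ.range M)

/-- Sum of the two probabilities; `Ord n F k` implies `k ∣ q - 1`. -/
def M_Main : Prop := S_CNT → S_FII → S_FIII → Main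

end

end FLN
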