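import Mathlib
import Pool.Agent.FLN.StN
import Pool.Agent.FL0.FIB

/-!
# Tuples which induce given tuples on a subspace and on the quotient (module FIB)
-/

set_option autoImplicit false

namespace FLN

open RSF FL0 Polynomial Pool.Agent.Lib_helper13

/-- the block form of an endomorphism with an invariant subspace -/
lemma fib_bk {F V : Type} [Field F] [AddCommGroup V] [Module F V] (W : Submodule F V)
    (e : V ≃ₗ[F] (W × (V ⧸ W))) (he1 : ∀ w : W, e w = (w, 0))
    (he2 : ∀ v : V, (e v).2 = Submodule.Quotient.mk v) (x : V →ₗ[F] V) (h : W ≤ W.comap x) :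
    bk (x.restrict h)
      (LinearMap.fst F W (V ⧸ W) ∘ₗ FIBaux.cj e x ∘ₗ LinearMap.inr F W (V ⧸ W))
      (W.mapQ W x h) = FIBaux.cj e x := by
  refine LinearMap.ext fun p => ?_
  have hp : e.symm p = (p.1 : V) + e.symm (0, p.2) := by
    apply e.injective
    rw [e.apply_symm_apply, map_add, he1, e.apply_symm_apply]
    exact Prod.ext (add_zero _).symm (zero_add _).symm
  have h1 : FIBaux.cj e x p = e (x p.1) + FIBaux.cj e x (0, p.2) := by
    rw [FIBaux.cj_apply, FIBaux.cj_apply, hp, map_add, map_add]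
  have h2 : e (x p.1) = (x.restrict h p.1, 0) := he1 (x.restrict h p.1)
  have h3 : (FIBaux.cj e x (0, p.2)).2 = W.mapQ W x h p.2 := by
    have h4 : (Submodule.Quotient.mk (e.symm (0, p.2)) : V ⧸ W) = p.2 := by
      rw [← he2, e.apply_symm_apply]
    rw [FIBaux.cj_apply, he2]
    conv_rhs => rw [← h4]
    rfl
  rw [h1, h2]
  refine Prod.ext rfl ?_
  show W.mapQ W x h p.2 = 0 + (FIBaux.cj e x (0, p.2)).2
  rw [h3, zero_add]

open FIBaux in
theorem t_FIB : M_FIB := by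
  intro hZON F V _ _ _ _ _ m hm2 hmd z hz W a u b v ha hb
  have : Finite V := Module.finite_of_finite F
  have : Finite (V ⧸ W) := Module.finite_of_finite F
  obtain ⟨e, he1, he2⟩ := exists_split W
  have hfin1 : Finite ((V ⧸ W) →ₗ[F] W) := Finite.of_injective
      (fun f : (V ⧸ W) →ₗ[F] W => (f : (V ⧸ W) → W)) DFunLike.coe_injective
  have hfin : Finite ((Fin m.length → ((V ⧸ W) →ₗ[F] W)) × ((V ⧸ W) →ₗ[F] W)) := by
    infer_instance
  refine le_trans (Nat.mul_le_mul_right _ ?_)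
    (hZON F W (V ⧸ W) m hm2 hmd z hz a u b v ha hb)
  -- the blocks
  let c : (V →ₗ[F] V) → ((V ⧸ W) →ₗ[F] W) := fun x =>
    LinearMap.fst F W (V ⧸ W) ∘ₗ cj e x ∘ₗ LinearMap.inr F W (V ⧸ W)
  have hc : ∀ (x : Fin m.length → (V →ₗ[F] V)) (y : V →ₗ[F] V), (∃ h : Inn x y W,
      sb x W h.1 = a ∧ y.restrict h.2 = u ∧ qt x W h.1 = b ∧ W.mapQ W y h.2 = v) →
      (∀ j, bk (a j) (c (x j)) (b j) = cj e (x j)) ∧ bk u (c y) v = cj e y := by
    rintro x y ⟨h, rfl, rfl, rfl, rfl⟩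
    exact ⟨fun j => fib_bk W e he1 he2 (x j) (h.1 j), fib_bk W e he1 he2 y h.2⟩
  refine Nat.card_le_card_of_injective
    (fun x => ⟨(fun j => c (x.1.1 j), c x.1.2), fun j => ?_, ?_⟩) ?_
  · have h1 : bk (a j) (c (x.1.1 j)) (b j) ^ m.get j = cj e (x.1.1 j) ^ m.get j :=
      congrArg (fun f : Module.End F (W × (V ⧸ W)) => f ^ m.get j)
        ((hc x.1.1 x.1.2 x.2.2.2).1 j)
    have h2 : (x.1.1 j : Module.End F V) ^ m.get j = 1 := x.2.1 j
    show bk (a j) (c (x.1.1 j)) (b j) ^ m.get j = 1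
    rw [h1, ← map_pow, h2, map_one]
  · have h1 : (fun j => bk (a j) (c (x.1.1 j)) (b j)) = fun j => cj e (x.1.1 j) :=
      funext fun j => (hc x.1.1 x.1.2 x.2.2.2).1 j
    show (List.ofFn fun j => bk (a j) (c (x.1.1 j)) (b j)).prod * bk u (c x.1.2) v ^ 2 = z • 1
    rw [h1, (hc x.1.1 x.1.2 x.2.2.2).2]
    have h2 : (List.ofFn fun j => cj e (x.1.1 j)) = (List.ofFn x.1.1).map (cj e) := by
      rw [List.map_ofFn]
      rfl
    rw [h2, ← map_list_prod]
    have h3 := congrArg (cj e) x.2.2.1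
    rw [cj_smul] at h3
    rw [← h3]
    exact ((map_mul (cj e) _ _).trans (congrArg _ (map_pow (cj e) _ _))).symm
  · intro x y hxy
    have h0 := congrArg Subtype.val hxy
    have h1 : (fun j => c (x.1.1 j)) = fun j => c (y.1.1 j) := congrArg Prod.fst h0
    have h2 : c x.1.2 = c y.1.2 := congrArg Prod.snd h0
    refine Subtype.ext (Prod.ext (funext fun j => ?_) ?_)
    · apply cj_inj e
      rw [← (hc x.1.1 x.1.2 x.2.2.2).1 j, ← (hc y.1.1 y.1.2 y.2.2.2).1 j, congrFun h1 j]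
    · apply cj_inj e
      rw [← (hc x.1.1 x.1.2 x.2.2.2).2, ← (hc y.1.1 y.1.2 y.2.2.2).2, h2]

end FLN
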