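import Mathlib
import Pool.Agent.FLN.StN
import Pool.Agent.FLC.FRO
import Pool.Agent.FLC.LIN
import Pool.Agent.FLC.CONV

set_option autoImplicit false

/-!
# FLN, FRO: the number of tuples in given classes and a square root
-/

namespace FLN

open Pool.Agent.Lib_helper13 RSF FL0

noncomputable section

/-- Frobenius' formula, summed over the last factor -/
theorem fro_count (hFRB : FLC.S_FRB) {G : Type} [Group G] [Fintype G] {d : ℕ} (y : Fin d → G)
    {B : Type} [Fintype B] (β : B → G) (Z : G) :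
    (Nat.card {t : (Fin d → G) × B // (∀ j, IsConj (y j) (t.1 j)) ∧
        (List.ofFn t.1).prod * β t.2 ^ 2 = Z} : ℂ) * Nat.card G =
      (∏ j, (Nat.card {t : G // IsConj (y j) t} : ℂ)) *
        ∑ X ∈ irrF G, (∏ j, X (y j) / X 1) * (∑ b : B, X (β b ^ 2 * Z⁻¹)) * X 1 := by
  classical
  let e : {t : (Fin d → G) × B // (∀ j, IsConj (y j) (t.1 j)) ∧
        (List.ofFn t.1).prod * β t.2 ^ 2 = Z} ≃
      Σ b : B, {t : Fin d → G // (∀ j, IsConj (y j) (t j)) ∧
        (List.ofFn t).prod = Z * (β b ^ 2)⁻¹} :=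
    { toFun := fun t => ⟨t.1.2, t.1.1, t.2.1, eq_mul_inv_of_mul_eq t.2.2⟩
      invFun := fun s => ⟨(s.2.1, s.1), s.2.2.1, by
        change (List.ofFn s.2.1).prod * β s.1 ^ 2 = Z
        rw [s.2.2.2, inv_mul_cancel_right]⟩
      left_inv := fun t => rfl
      right_inv := fun s => rfl }
  rw [Nat.card_congr e, Nat.card_sigma, Nat.cast_sum, Finset.sum_mul]
  have h1 : ∀ b : B, (Nat.card {t : Fin d → G // (∀ j, IsConj (y j) (t j)) ∧
        (List.ofFn t).prod = Z * (β b ^ 2)⁻¹} : ℂ) * Nat.card G =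
      (∏ j, (Nat.card {t : G // IsConj (y j) t} : ℂ)) *
        ∑ X ∈ irrF G, (∏ j, X (y j) / X 1) * X (β b ^ 2 * Z⁻¹) * X 1 := by
    intro b
    rw [hFRB G d y (Z * (β b ^ 2)⁻¹)]
    congr 1
    refine Finset.sum_congr rfl fun X _ => ?_
    rw [mul_inv_rev, inv_inv]
  rw [Finset.sum_congr rfl fun b _ => h1 b, ← Finset.mul_sum, Finset.sum_comm]
  congr 1
  refine Finset.sum_congr rfl fun X _ => ?_
  rw [← Finset.sum_mul, ← Finset.mul_sum]

/-- central elements act by scalars -/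
theorem fro_scal {Y : Type} [Group Y] [Fintype Y] {X : Y → ℂ} (h : IsIrr X) (z : Y)
    (hz : ∀ g, z * g = g * z) : ∃ c : ℂ, ‖c‖ = 1 ∧ ∀ g, X (g * z) = c * X g := by
  have h10 := h.one_ne_zero
  obtain ⟨n, ρ, hρ, rfl⟩ := h
  obtain ⟨c, hc⟩ := exists_scalar ρ hρ (ρ z) (fun g x => by
    have h1 : ρ z * ρ g = ρ g * ρ z := by
      rw [← map_mul, hz, map_mul]
    exact congrArg (fun f : Module.End ℂ (Fin n → ℂ) => f x) h1)
  have h2 : ρ.character 1 = n := by
    rw [Representation.char_one, Module.finrank_fin_fun]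
  rw [h2] at h10
  have h3 : c ^ Nat.card Y = 1 := by
    have h4 : ρ z ^ Nat.card Y = 1 := by
      rw [← map_pow, pow_card_eq_one', map_one]
    rw [hc] at h4
    have h5 : (c • (LinearMap.id : (Fin n → ℂ) →ₗ[ℂ] (Fin n → ℂ))) ^ Nat.card Y =
        c ^ Nat.card Y • (1 : Module.End ℂ (Fin n → ℂ)) := by
      change (c • (1 : Module.End ℂ (Fin n → ℂ))) ^ Nat.card Y = _
      rw [smul_pow, one_pow]
    rw [h5] at h4
    have h6 := congrArg (LinearMap.trace ℂ (Fin n → ℂ)) h4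
    rw [map_smul, LinearMap.trace_one, Module.finrank_fin_fun, smul_eq_mul] at h6
    exact mul_right_cancel₀ h10 (h6.trans (one_mul _).symm)
  refine ⟨c, Complex.norm_eq_one_of_pow_eq_one h3 Nat.card_pos.ne', fun g => ?_⟩
  change LinearMap.trace ℂ _ (ρ (g * z)) = c * LinearMap.trace ℂ _ (ρ g)
  rw [map_mul, hc]
  change LinearMap.trace ℂ _ (ρ g * (c • (1 : Module.End ℂ (Fin n → ℂ)))) = _
  rw [mul_smul_comm, mul_one, map_smul, smul_eq_mul]

/-- the norm of the sum of the values, twisted by a central element -/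
theorem fro_twist {Y : Type} [Group Y] [Fintype Y] {X : Y → ℂ} (h : IsIrr X) (z : Y)
    (hz : ∀ g, z * g = g * z) {B : Type} [Fintype B] (β : B → Y) :
    ‖∑ b : B, X (β b ^ 2 * z)‖ = ‖∑ b : B, X (β b ^ 2)‖ := by
  obtain ⟨c, h1, h2⟩ := fro_scal h z hz
  rw [Finset.sum_congr rfl fun b _ => h2 (β b ^ 2), ← Finset.mul_sum, norm_mul, h1, one_mul]

/-- the part of the nonlinear characters -/
theorem fro_B (hMN : FLC.S_MN) {n : ℕ} {F : Type} [Field F] [Fintype F] [DecidableEq F]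
    (m : List ℕ) (ε : ℝ) (y : Fin m.length → GL (Fin n) F)
    (hy : ∀ X : GL (Fin n) F → ℂ, IsIrr X → X 1 ≠ 1 → ∀ j, ‖X (y j)‖ ≤
      (Nat.card F : ℝ) ^ (FLC.dl (m.get j) (y j : Matrix (Fin n) (Fin n) F) / 2) *
      (X 1).re ^ (1 / ((m.get j : ℕ) : ℝ) + ε)) (Z : GL (Fin n) F) (hz : ∀ g, Z * g = g * Z)
    {B : Type} [Fintype B] (β : B → GL (Fin n) F)
    (hβ : ∀ X : GL (Fin n) F → ℂ, IsIrr X → ‖∑ b : B, X (β b ^ 2)‖ ≤ Nat.card (GL (Fin n) F))
    (E M : ℝ) (hE : E = (∑ j, FLC.dl (m.get j) (y j : Matrix (Fin n) (Fin n) F)) / 2)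
    (hM : ∑ X ∈ (irrF (GL (Fin n) F)).filter (fun X => X 1 ≠ 1),
      (X 1).re ^ (-(sig m - m.length * ε - 1)) ≤ M) :
    ‖∑ X ∈ (irrF (GL (Fin n) F)).filter (fun X => X 1 ≠ 1),
      (∏ j, X (y j) / X 1) * (∑ b : B, X (β b ^ 2 * Z)) * X 1‖ ≤
      Nat.card (GL (Fin n) F) * ((Nat.card F : ℝ) ^ E * M) := by
  have hq0 : (0 : ℝ) < Nat.card F := by exact_mod_cast Nat.card_pos
  refine (norm_sum_le _ _).trans ?_
  have h1 : ∀ X ∈ (irrF (GL (Fin n) F)).filter (fun X => X 1 ≠ 1),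
      ‖(∏ j, X (y j) / X 1) * (∑ b : B, X (β b ^ 2 * Z)) * X 1‖ ≤
      (Nat.card (GL (Fin n) F) * (Nat.card F : ℝ) ^ E) *
        (X 1).re ^ (-(sig m - m.length * ε - 1)) := by
    intro X hX
    rw [Finset.mem_filter] at hX
    have hXi := mem_irrF.1 hX.1
    obtain ⟨hD1, hDn⟩ := FLC.fro_deg hMN hXi
    have hD0 : 0 < (X 1).re := lt_of_lt_of_le one_pos hD1
    have ht := FLC.fro_term hMN m ε hXi y (hy X hXi hX.2) 1 (fun g => by rw [one_mul, mul_one])
    rw [norm_mul, norm_mul, hDn, ← hE] at ht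
    have h7 : (X 1).re ^ (-(sig m - m.length * ε - 2)) =
        (X 1).re ^ (-(sig m - m.length * ε - 1)) * (X 1).re := by
      rw [← Real.rpow_add_one hD0.ne']
      congr 1
      ring
    rw [h7, ← mul_assoc] at ht
    have ht2 := le_of_mul_le_mul_right ht hD0
    rw [norm_mul, norm_mul, fro_twist hXi Z hz, hDn]
    calc ‖∏ j, X (y j) / X 1‖ * ‖∑ b : B, X (β b ^ 2)‖ * (X 1).re
        = ‖∑ b : B, X (β b ^ 2)‖ * (‖∏ j, X (y j) / X 1‖ * (X 1).re) := by ring
      _ ≤ Nat.card (GL (Fin n) F) * ((Nat.card F : ℝ) ^ E *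
          (X 1).re ^ (-(sig m - m.length * ε - 1))) := by
          refine mul_le_mul (hβ X hXi) ht2 ?_ (Nat.cast_nonneg _)
          exact mul_nonneg (norm_nonneg _) hD0.le
      _ = _ := by ring
  refine (Finset.sum_le_sum h1).trans ?_
  rw [← Finset.mul_sum, ← mul_assoc]
  exact mul_le_mul_of_nonneg_left hM
    (mul_nonneg (Nat.cast_nonneg _) (Real.rpow_nonneg hq0.le _))

/-- the linear characters -/
theorem fro_lin (hLIN : FLC.S_LIN) {n : ℕ} (hn : 5 ≤ n) {F : Type} [Field F] [Fintype F]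
    [DecidableEq F] {X : GL (Fin n) F → ℂ} (hX : IsIrr X) (h1 : X 1 = 1) :
    ∃ l : Fˣ →* ℂˣ, X = FLC.ld l := by
  classical
  by_contra hcon
  have h2 := hLIN n hn F (fun X => if ∃ l : Fˣ →* ℂˣ, X = FLC.ld l then (0 : ℂ) else 1) 0
    (fun l => if_pos ⟨l, rfl⟩)
  rw [mul_zero, ← Finset.sum_filter_add_sum_filter_not _
    (fun X => ∃ l : Fˣ →* ℂˣ, X = FLC.ld l)] at h2
  have e1 : ∑ X ∈ ((irrF (GL (Fin n) F)).filter (fun X => X 1 = 1)).filter
      (fun X => ∃ l : Fˣ →* ℂˣ, X = FLC.ld l),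
      (if ∃ l : Fˣ →* ℂˣ, X = FLC.ld l then (0 : ℂ) else 1) = 0 :=
    Finset.sum_eq_zero fun X hX => if_pos (Finset.mem_filter.1 hX).2
  have e2 : ∑ X ∈ ((irrF (GL (Fin n) F)).filter (fun X => X 1 = 1)).filter
      (fun X => ¬ ∃ l : Fˣ →* ℂˣ, X = FLC.ld l),
      (if ∃ l : Fˣ →* ℂˣ, X = FLC.ld l then (0 : ℂ) else 1) =
      ∑ X ∈ ((irrF (GL (Fin n) F)).filter (fun X => X 1 = 1)).filter
        (fun X => ¬ ∃ l : Fˣ →* ℂˣ, X = FLC.ld l), (1 : ℂ) :=
    Finset.sum_congr rfl fun X hX => if_neg (Finset.mem_filter.1 hX).2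
  rw [e1, zero_add, e2, Finset.sum_const, nsmul_eq_mul, mul_one, Nat.cast_eq_zero,
    Finset.card_eq_zero] at h2
  have h3 : X ∈ (((irrF (GL (Fin n) F)).filter (fun X => X 1 = 1)).filter
      (fun X => ¬ ∃ l : Fˣ →* ℂˣ, X = FLC.ld l)) :=
    Finset.mem_filter.2 ⟨Finset.mem_filter.2 ⟨mem_irrF.2 hX, h1⟩, hcon⟩
  rw [h2] at h3
  exact absurd h3 (Finset.notMem_empty _)

/-- the sum of the squares of a linear character that is not quadratic -/
theorem fro_sq_zero {n : ℕ} {F : Type} [Field F] [Fintype F] [DecidableEq F] (l : Fˣ →* ℂˣ)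
    (hl : ¬ ∀ g : GL (Fin n) F, FLC.ld l g ^ 2 = 1) :
    ∑ b : GL (Fin n) F, FLC.ld l (b ^ 2) = 0 := by
  let f : GL (Fin n) F →* ℂ :=
    { toFun := fun g => FLC.ld l (g ^ 2)
      map_one' := by simp [FLC.ld]
      map_mul' := fun g h => by
        simp only [FLC.ld, map_pow, map_mul, Units.val_pow_eq_pow_val, Units.val_mul]
        ring }
  have hf : f ≠ 1 := by
    intro h
    apply hl
    intro g
    have h1 : f g = 1 := by rw [h]; rfl
    have h2 : f g = FLC.ld l g ^ 2 := by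
      change FLC.ld l (g ^ 2) = _
      simp only [FLC.ld, map_pow, Units.val_pow_eq_pow_val]
    rw [← h2, h1]
  exact sum_hom_units_eq_zero f hf

/-- at most two quadratic linear characters -/
theorem fro_two (hLIN : FLC.S_LIN) {n : ℕ} (hn : 5 ≤ n) {F : Type} [Field F] [Fintype F]
    [DecidableEq F] (T : Finset (GL (Fin n) F → ℂ))
    (hT : ∀ X ∈ T, IsIrr X ∧ X 1 = 1 ∧ ∀ g, X g ^ 2 = 1) : T.card ≤ 2 := by
  classical
  have : Nonempty (Fin n) := ⟨⟨0, by omega⟩⟩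
  obtain ⟨g₀, hg₀⟩ := IsCyclic.exists_generator (α := Fˣ)
  obtain ⟨b₀, hb₀⟩ := Matrix.GeneralLinearGroup.det_surjective (n := Fin n) (R := F) g₀
  have h1 : T.card ≤ ({1, -1} : Finset ℂ).card := by
    refine Finset.card_le_card_of_injOn (fun X => X b₀) (fun X hX => ?_) ?_
    · have h2 := (hT X hX).2.2 b₀
      rw [pow_two] at h2
      rcases mul_self_eq_one_iff.1 h2 with h3 | h3 <;> simp [h3]
    · intro X hX X' hX' he
      obtain ⟨l, rfl⟩ := fro_lin hLIN hn (hT X hX).1 (hT X hX).2.1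
      obtain ⟨l', rfl⟩ := fro_lin hLIN hn (hT X' hX').1 (hT X' hX').2.1
      have h4 : l g₀ = l' g₀ := by
        apply Units.ext
        have h5 : FLC.ld l b₀ = FLC.ld l' b₀ := he
        unfold FLC.ld at h5
        rw [hb₀] at h5
        exact h5
      have h6 : l = l' := by
        refine MonoidHom.ext fun x => ?_
        obtain ⟨k, rfl⟩ := Subgroup.mem_zpowers_iff.1 (hg₀ x)
        rw [map_zpow, map_zpow, h4]
      rw [h6]
  exact h1.trans (Finset.card_le_two)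

/-- `SL` and the kernel of the determinant -/
def fro_sl (n : ℕ) (F : Type) [Field F] : SL n F ≃
    ((Matrix.GeneralLinearGroup.det : GL (Fin n) F →* Fˣ).ker) where
  toFun A := ⟨(A : GL (Fin n) F), by
    rw [MonoidHom.mem_ker]
    ext
    simp⟩
  invFun x := ⟨(x.1 : Matrix (Fin n) (Fin n) F), by
    have h := x.2
    rw [MonoidHom.mem_ker] at h
    have h' := congrArg (fun u : Fˣ => (u : F)) h
    simpa using h'⟩
  left_inv A := by
    apply Subtype.ext
    rfl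
  right_inv x := Subtype.ext (Units.ext rfl)

theorem t_FRO : M_FRO := by
  classical
  intro hMN hFRB hFL hZET hLIN hFSI m hm hsig
  have hlen : 0 < m.length := by
    rcases Nat.eq_zero_or_pos m.length with h | h
    · have h1 : m = [] := List.eq_nil_of_length_eq_zero h
      rw [h1] at hsig
      norm_num [sig] at hsig
    · exact h
  have hlenR : (0 : ℝ) < m.length := by exact_mod_cast hlen
  obtain ⟨ε, hε⟩ : ∃ ε : ℝ, ε = (sig m - 1) / (2 * m.length) := ⟨_, rfl⟩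
  have hε0 : 0 < ε := by
    rw [hε]
    exact div_pos (by linarith) (by linarith)
  have hlε : m.length * ε = (sig m - 1) / 2 := by
    rw [hε]
    field_simp
  have hs0 : 0 < sig m - m.length * ε - 1 := by
    rw [hlε]
    linarith
  obtain ⟨r1, hr1⟩ := hFL ε hε0
  obtain ⟨c, r2, hc, hr2⟩ := hZET _ hs0
  obtain ⟨r3, hr3⟩ := exists_nat_ge (2 / c)
  refine ⟨c / 2, r1 + r2 + r3 + 5, by linarith, ?_⟩
  intro n hn F _ _ hdiv z hz y hy
  have : Fintype F := Fintype.ofFinite F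
  have hq1 : 1 < Nat.card F := Finite.one_lt_card
  have hqR : (1 : ℝ) < Nat.card F := by exact_mod_cast hq1
  have hq0 : (0 : ℝ) < Nat.card F := by linarith
  have hn3 : 2 / c ≤ (n : ℝ) := hr3.trans (by exact_mod_cast (by omega : r3 ≤ n))
  obtain ⟨Z, hZ⟩ : ∃ Z : GL (Fin n) F,
      Z = Matrix.GeneralLinearGroup.scalar (Fin n) (Units.mk0 z hz) := ⟨_, rfl⟩
  have hZv : (Z : Matrix (Fin n) (Fin n) F) = Matrix.scalar (Fin n) z := by
    rw [hZ]
    rfl
  have hZc : ∀ g, Z⁻¹ * g = g * Z⁻¹ := by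
    intro g
    have h1 : Z * g = g * Z := by
      rw [hZ]
      exact Matrix.GeneralLinearGroup.scalar_commute _ g
    exact (Commute.inv_left (show Commute Z g from h1))
  have hZdet : Matrix.GeneralLinearGroup.det Z = (Units.mk0 z hz) ^ n := by
    rw [hZ, Matrix.GeneralLinearGroup.det_scalar, Fintype.card_fin]
  obtain ⟨P, hP⟩ : ∃ P : ℝ, P = ∏ j, (Nat.card {t : GL (Fin n) F // IsConj (y j) t} : ℝ) :=
    ⟨_, rfl⟩
  have hP0 : 0 ≤ P := by
    rw [hP]
    exact Finset.prod_nonneg fun j _ => Nat.cast_nonneg _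
  have hPc : (∏ j, (Nat.card {t : GL (Fin n) F // IsConj (y j) t} : ℂ)) = (P : ℂ) := by
    rw [hP]
    push_cast
    rfl
  obtain ⟨E, hE⟩ : ∃ E : ℝ, E = (∑ j, FLC.dl (m.get j) (y j : Matrix (Fin n) (Fin n) F)) / 2 :=
    ⟨_, rfl⟩
  have hE' : (∑ j, del (m.get j) (y j).1) / 2 = E := by
    rw [hE]
    congr 1
    exact Finset.sum_congr rfl fun j _ => FLC.conv_dl _ _
  rw [hE', ← hP]
  obtain ⟨Gn, hGn⟩ : ∃ Gn : ℕ, Gn = Nat.card (GL (Fin n) F) := ⟨_, rfl⟩
  have hG0 : (0 : ℝ) < Gn := by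
    rw [hGn]
    exact_mod_cast Nat.card_pos
  -- the bound of the nonlinear part
  have hM : ((Nat.card F : ℝ) - 1) * (Nat.card F : ℝ) ^ (-(c * n)) ≤
      (Nat.card F : ℝ) ^ (-(c / 2 * n)) := by
    have h1 : (Nat.card F : ℝ) - 1 ≤ (Nat.card F : ℝ) ^ (1 : ℝ) := by
      rw [Real.rpow_one]
      linarith
    refine (mul_le_mul_of_nonneg_right h1 (Real.rpow_nonneg hq0.le _)).trans ?_
    rw [← Real.rpow_add hq0]
    refine Real.rpow_le_rpow_of_exponent_le hqR.le ?_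
    have h2 : 2 ≤ n * c := (div_le_iff₀ hc).1 hn3
    nlinarith
  have hBB : ∀ (B : Type) [Fintype B] (β : B → GL (Fin n) F),
      (∀ X : GL (Fin n) F → ℂ, IsIrr X → ‖∑ b : B, X (β b ^ 2)‖ ≤ Nat.card (GL (Fin n) F)) →
      ‖∑ X ∈ (irrF (GL (Fin n) F)).filter (fun X => X 1 ≠ 1),
        (∏ j, X (y j) / X 1) * (∑ b : B, X (β b ^ 2 * Z⁻¹)) * X 1‖ ≤
      Gn * (Nat.card F : ℝ) ^ (E - c / 2 * n) := by
    intro B _ β hβ
    have h1 := fro_B hMN m ε y (fun X hX hX1 j => by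
      have h2 : m.get j ∈ m := m.get_mem j
      exact hr1 n (by omega) F X hX hX1 (m.get j) (y j) (by have := hm _ h2; omega)
        (hdiv _ h2) (hy j)) Z⁻¹ hZc β hβ E _ hE (hr2 n (by omega) F)
    refine h1.trans ?_
    have e : (Nat.card F : ℝ) ^ (E - c / 2 * n) =
        (Nat.card F : ℝ) ^ E * (Nat.card F : ℝ) ^ (-(c / 2 * n)) := by
      rw [← Real.rpow_add hq0]
      congr 1
    rw [← hGn, e]
    exact mul_le_mul_of_nonneg_left (mul_le_mul_of_nonneg_left hM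
      (Real.rpow_nonneg hq0.le _)) hG0.le
  -- the squares in a subgroup
  have hFS : ∀ (H : Subgroup (GL (Fin n) F)) (B : Type) [Fintype B] (e : B ≃ H)
      (X : GL (Fin n) F → ℂ), IsIrr X →
      ‖∑ b : B, X ((e b : GL (Fin n) F) ^ 2)‖ ≤ Nat.card (GL (Fin n) F) := by
    intro H B _ e X hX
    have h1 := (hFSI (GL (Fin n) F) X H hX.isChr).2 hX
    have h2 : ∑ᶠ b : H, X ((b : GL (Fin n) F) ^ 2) =
        ∑ b : B, X ((e b : GL (Fin n) F) ^ 2) := by
      rw [finsum_eq_sum_of_fintype]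
      exact (Fintype.sum_equiv e _ _ fun b => rfl).symm
    rwa [h2] at h1
  have hsplit : ∀ (f : (GL (Fin n) F → ℂ) → ℂ), ∑ X ∈ irrF (GL (Fin n) F), f X =
      ∑ X ∈ (irrF (GL (Fin n) F)).filter (fun X => X 1 = 1), f X +
      ∑ X ∈ (irrF (GL (Fin n) F)).filter (fun X => X 1 ≠ 1), f X := fun f =>
    (Finset.sum_filter_add_sum_filter_not (irrF (GL (Fin n) F)) (fun X => X 1 = 1) f).symm
  constructor
  · -- the special linear group
    intro hdet
    have hdet' : ∏ j, Matrix.GeneralLinearGroup.det (y j) = (Units.mk0 z hz) ^ n := by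
      apply Units.ext
      rw [Units.coe_prod, Units.val_pow_eq_pow_val, Units.val_mk0, ← hdet]
      rfl
    obtain ⟨N, hN⟩ : ∃ N : ℕ, N = Nat.card {t : (Fin m.length → GL (Fin n) F) × SL n F //
      (∀ j, IsConj (y j) (t.1 j)) ∧
        (List.ofFn fun j => (t.1 j).1).prod * t.2.1 ^ 2 = Matrix.scalar (Fin n) z} := ⟨_, rfl⟩
    have : Fintype (SL n F) := Fintype.ofFinite _
    have hN' : N = Nat.card {t : (Fin m.length → GL (Fin n) F) × SL n F //
        (∀ j, IsConj (y j) (t.1 j)) ∧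
        (List.ofFn t.1).prod * ((fro_sl n F t.2 : GL (Fin n) F)) ^ 2 = Z} := by
      rw [hN]
      refine Nat.card_congr (Equiv.subtypeEquivRight fun t => and_congr_right fun _ => ?_)
      rw [← FLC.conv_prod, ← hZv]
      constructor
      · intro h
        exact Units.ext h
      · intro h
        exact congrArg Units.val h
    have hfrb := fro_count hFRB y (fun b : SL n F => (fro_sl n F b : GL (Fin n) F)) Z
    rw [← hN', hPc, ← hGn, hsplit] at hfrb
    have hA : ∑ X ∈ (irrF (GL (Fin n) F)).filter (fun X => X 1 = 1),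
        (∏ j, X (y j) / X 1) * (∑ b : SL n F, X ((fro_sl n F b : GL (Fin n) F) ^ 2 * Z⁻¹)) * X 1
        = (Gn : ℂ) := by
      have h0 := hLIN n (by omega) F (fun X => (∏ j, X (y j) / X 1) *
        (∑ b : SL n F, X ((fro_sl n F b : GL (Fin n) F) ^ 2 * Z⁻¹)) * X 1)
        (Nat.card (SL n F)) (fun l => by
          have h1 : FLC.ld l (1 : GL (Fin n) F) = 1 := by
            simp [FLC.ld]
          have h2 : (∏ j, FLC.ld l (y j)) = ((l ((Units.mk0 z hz) ^ n) : ℂˣ) : ℂ) := by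
            rw [← hdet', map_prod, Units.coe_prod]
            rfl
          have h3 : ∀ b : SL n F, FLC.ld l ((fro_sl n F b : GL (Fin n) F) ^ 2 * Z⁻¹) =
              (((l ((Units.mk0 z hz) ^ n))⁻¹ : ℂˣ) : ℂ) := by
            intro b
            have h4 : Matrix.GeneralLinearGroup.det (fro_sl n F b : GL (Fin n) F) = 1 :=
              MonoidHom.mem_ker.1 (fro_sl n F b).2
            simp only [FLC.ld]
            rw [map_mul, map_pow, h4, one_pow, one_mul, map_inv, hZdet, map_inv]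
          show (∏ j, FLC.ld l (y j) / FLC.ld l 1) * (∑ b : SL n F,
            FLC.ld l ((fro_sl n F b : GL (Fin n) F) ^ 2 * Z⁻¹)) * FLC.ld l 1 = _
          rw [h1, Finset.sum_congr rfl fun b _ => h3 b, Finset.sum_const, Finset.card_univ,
            nsmul_eq_mul, Nat.card_eq_fintype_card]
          simp only [div_one, mul_one]
          rw [h2, mul_left_comm, ← Units.val_mul, mul_inv_cancel, Units.val_one, mul_one])
      rw [h0, hGn, FLC.fro_card n (by omega)]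
      push_cast [Nat.cast_sub hq1.le]
      rfl
    obtain ⟨B, hB⟩ : ∃ B : ℂ, B = ∑ X ∈ (irrF (GL (Fin n) F)).filter (fun X => X 1 ≠ 1),
        (∏ j, X (y j) / X 1) *
          (∑ b : SL n F, X ((fro_sl n F b : GL (Fin n) F) ^ 2 * Z⁻¹)) * X 1 := ⟨_, rfl⟩
    have hBn := hBB (SL n F) (fun b => (fro_sl n F b : GL (Fin n) F))
      (fun X hX => hFS _ _ (fro_sl n F) X hX)
    rw [← hB] at hBn
    rw [hA, ← hB] at hfrb
    rw [← hN]
    have hkey : ((Gn : ℝ) : ℂ) * (((N : ℝ) - P : ℝ) : ℂ) = (P : ℂ) * B := by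
      push_cast
      linear_combination hfrb
    have hnorm := congrArg norm hkey
    rw [norm_mul, norm_mul, Complex.norm_real, Complex.norm_real, Complex.norm_real,
      Real.norm_of_nonneg hG0.le, Real.norm_of_nonneg hP0, Real.norm_eq_abs] at hnorm
    have h1 : (Gn : ℝ) * |(N : ℝ) - P| ≤ Gn * (P * (Nat.card F : ℝ) ^ (E - c / 2 * n)) := by
      rw [hnorm]
      calc P * ‖B‖ ≤ P * (Gn * (Nat.card F : ℝ) ^ (E - c / 2 * n)) :=
            mul_le_mul_of_nonneg_left hBn hP0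
        _ = _ := by ring
    exact le_of_mul_le_mul_left h1 hG0
  · -- the general linear group
    obtain ⟨N, hN⟩ : ∃ N : ℕ, N = Nat.card {t : (Fin m.length → GL (Fin n) F) × GL (Fin n) F //
      (∀ j, IsConj (y j) (t.1 j)) ∧
        (List.ofFn fun j => (t.1 j).1).prod * t.2.1 ^ 2 = Matrix.scalar (Fin n) z} := ⟨_, rfl⟩
    have hN' : N = Nat.card {t : (Fin m.length → GL (Fin n) F) × GL (Fin n) F //
        (∀ j, IsConj (y j) (t.1 j)) ∧ (List.ofFn t.1).prod * t.2 ^ 2 = Z} := by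
      rw [hN]
      refine Nat.card_congr (Equiv.subtypeEquivRight fun t => and_congr_right fun _ => ?_)
      rw [← FLC.conv_prod, ← hZv]
      constructor
      · intro h
        exact Units.ext h
      · intro h
        exact congrArg Units.val h
    have hfrb := fro_count hFRB y (fun b : GL (Fin n) F => b) Z
    rw [← hN', hPc, ← hGn, hsplit] at hfrb
    have hFS2 : ∀ X : GL (Fin n) F → ℂ, IsIrr X →
        ‖∑ b : GL (Fin n) F, X (b ^ 2)‖ ≤ Nat.card (GL (Fin n) F) := fun X hX =>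
      hFS ⊤ (GL (Fin n) F) Subgroup.topEquiv.symm.toEquiv X hX
    have hBn := hBB (GL (Fin n) F) (fun b => b) hFS2
    obtain ⟨B, hB⟩ : ∃ B : ℂ, B = ∑ X ∈ (irrF (GL (Fin n) F)).filter (fun X => X 1 ≠ 1),
        (∏ j, X (y j) / X 1) * (∑ b : GL (Fin n) F, X (b ^ 2 * Z⁻¹)) * X 1 := ⟨_, rfl⟩
    obtain ⟨A, hA⟩ : ∃ A : ℂ, A = ∑ X ∈ (irrF (GL (Fin n) F)).filter (fun X => X 1 = 1),
        (∏ j, X (y j) / X 1) * (∑ b : GL (Fin n) F, X (b ^ 2 * Z⁻¹)) * X 1 := ⟨_, rfl⟩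
    rw [← hB] at hBn
    rw [← hB, ← hA] at hfrb
    have hAn : ‖A‖ ≤ 2 * Gn := by
      rw [hA, ← Finset.sum_filter_add_sum_filter_not _ (fun X => ∀ g, X g ^ 2 = 1)]
      have e1 : ∑ X ∈ ((irrF (GL (Fin n) F)).filter (fun X => X 1 = 1)).filter
          (fun X => ¬ ∀ g, X g ^ 2 = 1),
          (∏ j, X (y j) / X 1) * (∑ b : GL (Fin n) F, X (b ^ 2 * Z⁻¹)) * X 1 = 0 := by
        refine Finset.sum_eq_zero fun X hX => ?_
        obtain ⟨h1, h2⟩ := Finset.mem_filter.1 hX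
        obtain ⟨h3, h4⟩ := Finset.mem_filter.1 h1
        have hXi := mem_irrF.1 h3
        obtain ⟨l, hl⟩ := fro_lin hLIN (by omega) hXi h4
        have h5 : ∑ b : GL (Fin n) F, X (b ^ 2 * Z⁻¹) = 0 := by
          rw [← norm_eq_zero, fro_twist hXi Z⁻¹ hZc (fun b => b), norm_eq_zero, hl]
          refine fro_sq_zero l ?_
          rw [← hl]
          exact h2
        rw [h5, mul_zero, zero_mul]
      rw [e1, add_zero]
      obtain ⟨T, hT⟩ : ∃ T : Finset (GL (Fin n) F → ℂ),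
        T = ((irrF (GL (Fin n) F)).filter (fun X => X 1 = 1)).filter
          (fun X => ∀ g, X g ^ 2 = 1) := ⟨_, rfl⟩
      rw [← hT]
      have hTm : ∀ X ∈ T, IsIrr X ∧ X 1 = 1 ∧ ∀ g, X g ^ 2 = 1 := by
        intro X hX
        rw [hT] at hX
        obtain ⟨h1, h2⟩ := Finset.mem_filter.1 hX
        obtain ⟨h3, h4⟩ := Finset.mem_filter.1 h1
        exact ⟨mem_irrF.1 h3, h4, h2⟩
      have hT2 := fro_two hLIN (by omega) T hTm
      refine (norm_sum_le _ _).trans ?_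
      refine (Finset.sum_le_card_nsmul T _ (Gn : ℝ) (fun X hX => ?_)).trans ?_
      · obtain ⟨h1, h2, -⟩ := hTm X hX
        have h3 := (hMN _ X h1.isChr).2.2.1
        rw [norm_mul, norm_mul, norm_prod, fro_twist h1 Z⁻¹ hZc (fun b => b), h2, norm_one,
          mul_one]
        have h4 : ∏ j, ‖X (y j) / 1‖ ≤ 1 := by
          refine Finset.prod_le_one (fun j _ => norm_nonneg _) fun j _ => ?_
          have h5 := h3 (y j)
          rw [h2, norm_one] at h5
          rw [div_one]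
          exact h5
        calc (∏ j, ‖X (y j) / 1‖) * ‖∑ b : GL (Fin n) F, X (b ^ 2)‖ ≤ 1 * Gn :=
              mul_le_mul h4 (by rw [hGn]; exact hFS2 X h1) (norm_nonneg _) zero_le_one
          _ = Gn := one_mul _
      · rw [nsmul_eq_mul]
        exact mul_le_mul_of_nonneg_right (by exact_mod_cast hT2) hG0.le
    rw [← hN]
    have hnorm := congrArg norm hfrb
    rw [norm_mul, norm_mul, Complex.norm_natCast, Complex.norm_natCast, Complex.norm_real,
      Real.norm_of_nonneg hP0] at hnorm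
    have h1 : (N : ℝ) * Gn ≤ (P * (2 + (Nat.card F : ℝ) ^ (E - c / 2 * n))) * Gn := by
      rw [hnorm]
      calc P * ‖A + B‖ ≤ P * (2 * Gn + Gn * (Nat.card F : ℝ) ^ (E - c / 2 * n)) :=
            mul_le_mul_of_nonneg_left ((norm_add_le _ _).trans (add_le_add hAn hBn)) hP0
        _ = _ := by ring
    exact le_of_mul_le_mul_right h1 hG0

end

end FLN
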