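import Mathlib
import Pool.Agent.FLN.StN
import Pool.Agent.RSF.RG

/-!
# FLN, module RED: the number of the tuples with an invariant subspace
-/

set_option autoImplicit false

namespace FLN

open RSF FL0 Polynomial

noncomputable section

theorem red_finEnd {F : Type} [Field F] [Finite F] (n : ℕ) :
    Finite ((Fin n → F) →ₗ[F] (Fin n → F)) :=
  Finite.of_injective (fun f : (Fin n → F) →ₗ[F] (Fin n → F) => (f : (Fin n → F) → (Fin n → F)))
    DFunLike.coe_injective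

theorem red_lm_mul {F : Type} [Field F] {n : ℕ} (A B : Matrix (Fin n) (Fin n) F) :
    lm (A * B) = lm A * lm B := Matrix.toLin'_mul A B

theorem red_lm_one {F : Type} [Field F] {n : ℕ} : lm (1 : Matrix (Fin n) (Fin n) F) = 1 :=
  Matrix.toLin'_one

theorem red_lm_pow {F : Type} [Field F] {n : ℕ} (A : Matrix (Fin n) (Fin n) F) (k : ℕ) :
    lm (A ^ k) = lm A ^ k := by
  induction k with
  | zero => rw [pow_zero, pow_zero, red_lm_one]
  | succ k ih => rw [pow_succ, pow_succ, red_lm_mul, ih]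

theorem red_lm_prod {F : Type} [Field F] {n : ℕ} (l : List (Matrix (Fin n) (Fin n) F)) :
    lm l.prod = (l.map lm).prod := by
  induction l with
  | nil => rw [List.prod_nil, List.map_nil, List.prod_nil, red_lm_one]
  | cons a l ih => rw [List.prod_cons, List.map_cons, List.prod_cons, red_lm_mul, ih]

theorem red_lm_scalar {F : Type} [Field F] {n : ℕ} (z : F) :
    lm (Matrix.scalar (Fin n) z) = z • (1 : (Fin n → F) →ₗ[F] (Fin n → F)) := by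
  apply LinearMap.ext
  intro v
  unfold lm
  rw [Matrix.toLin'_apply, LinearMap.smul_apply, Module.End.one_apply]
  funext i
  rw [Matrix.scalar_apply, Matrix.mulVec_diagonal, Pi.smul_apply, smul_eq_mul]

/-- the counted tuples as tuples of endomorphisms -/
theorem red_card {F : Type} [Field F] [Finite F] {n : ℕ} (m : List ℕ) (z : F) :
    Nat.card {t : (Fin m.length → GL (Fin n) F) × GL (Fin n) F //
        (∀ j, t.1 j ^ m.get j = 1) ∧
        (List.ofFn fun j => (t.1 j).1).prod * t.2.1 ^ 2 = Matrix.scalar (Fin n) z ∧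
        ∃ W : Submodule F (Fin n → F), W ≠ ⊥ ∧ W ≠ ⊤ ∧
          (∀ j, ∀ w ∈ W, (t.1 j).1.mulVec w ∈ W) ∧ ∀ w ∈ W, t.2.1.mulVec w ∈ W} ≤
      Nat.card {x : (Fin m.length → ((Fin n → F) →ₗ[F] (Fin n → F))) ×
          ((Fin n → F) →ₗ[F] (Fin n → F)) // (∀ j, x.1 j ^ m.get j = 1) ∧
          (List.ofFn x.1).prod * x.2 ^ 2 = z • 1 ∧
          ∃ W : Submodule F (Fin n → F), Inn x.1 x.2 W ∧ W ≠ ⊥ ∧ W ≠ ⊤} := by
  have := red_finEnd (F := F) n
  refine Nat.card_le_card_of_injective (fun t => ⟨⟨fun j => lm (t.1.1 j).1, lm t.1.2.1⟩,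
    fun j => ?_, ?_, ?_⟩) ?_
  · have h := congrArg Units.val (t.2.1 j)
    rw [Units.val_pow_eq_pow_val] at h
    change lm (t.1.1 j).1 ^ m.get j = 1
    rw [← red_lm_pow, h]
    exact red_lm_one
  · have h := congrArg lm t.2.2.1
    rw [red_lm_scalar, red_lm_mul, red_lm_pow, red_lm_prod, List.map_ofFn] at h
    exact h
  · obtain ⟨W, h1, h2, h3, h4⟩ := t.2.2.2
    refine ⟨W, ⟨fun j w hw => ?_, fun w hw => ?_⟩, h1, h2⟩
    · rw [Submodule.mem_comap]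
      exact h3 j w hw
    · rw [Submodule.mem_comap]
      exact h4 w hw
  · intro t t' h
    have h1 := congrArg Subtype.val h
    apply Subtype.ext
    apply Prod.ext
    · funext j
      have h2 := congrFun (congrArg Prod.fst h1) j
      exact Units.ext (Matrix.toLin'.injective h2)
    · have h2 := congrArg Prod.snd h1
      exact Units.ext (Matrix.toLin'.injective h2)

/-- the two alternatives of `S_DEC` -/
theorem red_split {F : Type} [Field F] [Finite F] {n : ℕ} (m : List ℕ) (z : F) (c₀ e : ℝ)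
    (hD : ∀ (x : Fin m.length → ((Fin n → F) →ₗ[F] (Fin n → F)))
      (y : (Fin n → F) →ₗ[F] (Fin n → F)),
      (∀ j, x j ^ m.get j = 1) → (∃ W : Submodule F (Fin n → F), Inn x y W ∧ W ≠ ⊥ ∧ W ≠ ⊤) →
      (∃ j, c₀ * (n : ℝ) ^ 2 ≤ (sq (x j) : ℝ) - (n : ℝ) ^ 2 / m.get j) ∨
      ∃ (W : Submodule F (Fin n → F)) (h : Inn x y W), W ≠ ⊥ ∧ W ≠ ⊤ ∧
        (Nat.card (Hn (sb x W h.1) (y.restrict h.2) (qt x W h.1) (W.mapQ W y h.2)) : ℝ) ≤
          (Nat.card F : ℝ) ^ (e * Module.finrank F W * Module.finrank F ((Fin n → F) ⧸ W))) :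
    Nat.card {x : (Fin m.length → ((Fin n → F) →ₗ[F] (Fin n → F))) ×
          ((Fin n → F) →ₗ[F] (Fin n → F)) // (∀ j, x.1 j ^ m.get j = 1) ∧
          (List.ofFn x.1).prod * x.2 ^ 2 = z • 1 ∧
          ∃ W : Submodule F (Fin n → F), Inn x.1 x.2 W ∧ W ≠ ⊥ ∧ W ≠ ⊤} ≤
      Nat.card {x : (Fin m.length → ((Fin n → F) →ₗ[F] (Fin n → F))) ×
          ((Fin n → F) →ₗ[F] (Fin n → F)) // ((∀ j, x.1 j ^ m.get j = 1) ∧
          (List.ofFn x.1).prod * x.2 ^ 2 = z • 1) ∧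
          ∃ j, c₀ * (n : ℝ) ^ 2 ≤ (sq (x.1 j) : ℝ) - (n : ℝ) ^ 2 / m.get j} +
      Nat.card {x : (Fin m.length → ((Fin n → F) →ₗ[F] (Fin n → F))) ×
          ((Fin n → F) →ₗ[F] (Fin n → F)) // ((∀ j, x.1 j ^ m.get j = 1) ∧
          (List.ofFn x.1).prod * x.2 ^ 2 = z • 1) ∧
          ∃ (W : Submodule F (Fin n → F)) (h : Inn x.1 x.2 W), W ≠ ⊥ ∧ W ≠ ⊤ ∧
            (Nat.card (Hn (sb x.1 W h.1) (x.2.restrict h.2) (qt x.1 W h.1)
              (W.mapQ W x.2 h.2)) : ℝ) ≤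
            (Nat.card F : ℝ) ^ (e * Module.finrank F W * Module.finrank F ((Fin n → F) ⧸ W))} := by
  have := red_finEnd (F := F) n
  rw [← Set.coe_ofPred, ← Set.coe_ofPred, ← Set.coe_ofPred, Nat.card_coe_set_eq,
    Nat.card_coe_set_eq, Nat.card_coe_set_eq]
  refine (Set.ncard_le_ncard ?_ (Set.toFinite _)).trans (Set.ncard_union_le _ _)
  rintro x ⟨h1, h2, h3⟩
  rcases hD x.1 x.2 h1 h3 with h | h
  · exact Or.inl ⟨⟨h1, h2⟩, h⟩
  · exact Or.inr ⟨⟨h1, h2⟩, h⟩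

/-- the first alternative -/
theorem red_first {F : Type} [Field F] [Finite F] {n : ℕ} (m : List ℕ) (hm : ∀ k ∈ m, 2 ≤ k)
    (hdiv : ∀ k ∈ m, k ∣ Nat.card F - 1) (z : F) (c₀ X : ℝ) (hX : 0 ≤ X) (hEVS : S_EVS)
    (hU : ∀ β : Fin m.length → F → ℕ,
      ((m.length : ℝ) - sig m + c₀) * (n : ℝ) ^ 2 ≤ ∑ j, ∑ᶠ ζ : F, (β j ζ : ℝ) ^ 2 →
      (Nat.card {t : (Fin m.length → ((Fin n → F) →ₗ[F] (Fin n → F))) ×
          ((Fin n → F) →ₗ[F] (Fin n → F)) // (∀ j, t.1 j ^ m.get j = 1) ∧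
        (∀ j ζ, ev (t.1 j) ζ = β j ζ) ∧ (List.ofFn t.1).prod * t.2 ^ 2 = z • 1} : ℝ) ≤ X) :
    (Nat.card {x : (Fin m.length → ((Fin n → F) →ₗ[F] (Fin n → F))) ×
          ((Fin n → F) →ₗ[F] (Fin n → F)) // ((∀ j, x.1 j ^ m.get j = 1) ∧
          (List.ofFn x.1).prod * x.2 ^ 2 = z • 1) ∧
          ∃ j, c₀ * (n : ℝ) ^ 2 ≤ (sq (x.1 j) : ℝ) - (n : ℝ) ^ 2 / m.get j} : ℝ) ≤
      ((n : ℝ) + 1) ^ m.sum * X := by
  classical
  have := red_finEnd (F := F) n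
  have hk1 : ∀ j : Fin m.length, 1 ≤ m.get j := fun j =>
    (hm _ (List.get_mem m j)).trans' (by norm_num)
  have hkd : ∀ j : Fin m.length, m.get j ∣ Nat.card F - 1 := fun j =>
    hdiv _ (List.get_mem m j)
  let E : Fin m.length → Set (F → ℕ) := fun j =>
    {β : F → ℕ | ∃ x : (Fin n → F) →ₗ[F] (Fin n → F), x ^ m.get j = 1 ∧ ∀ ζ, ev x ζ = β ζ}
  have hEfin : ∀ j, (E j).Finite := by
    intro j
    refine (Set.finite_range (fun x : (Fin n → F) →ₗ[F] (Fin n → F) => fun ζ : F => ev x ζ)).subset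
      ?_
    rintro β ⟨x, -, hx⟩
    exact ⟨x, funext hx⟩
  have hEcard : ∀ j, Nat.card (E j) ≤ (n + 1) ^ m.get j := by
    intro j
    have h := (hEVS F (Fin n → F) (m.get j) (hk1 j) (hkd j)).2.2.2.1
    rw [Module.finrank_fin_fun] at h
    rw [Nat.card_coe_set_eq]
    exact h
  have : ∀ j, Finite (E j) := fun j => (hEfin j).to_subtype
  let B : Type := {β : ∀ j : Fin m.length, E j //
    ((m.length : ℝ) - sig m + c₀) * (n : ℝ) ^ 2 ≤ ∑ j, ∑ᶠ ζ : F, ((β j).1 ζ : ℝ) ^ 2}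
  have : Fintype B := Fintype.ofFinite _
  have hB : (Nat.card B : ℝ) ≤ ((n : ℝ) + 1) ^ m.sum := by
    have h1 : Nat.card B ≤ Nat.card (∀ j : Fin m.length, E j) :=
      Nat.card_le_card_of_injective (fun β => β.1) Subtype.val_injective
    rw [Nat.card_pi] at h1
    have h2 : ∏ j, Nat.card (E j) ≤ ∏ j : Fin m.length, (n + 1) ^ m.get j :=
      Finset.prod_le_prod' fun j _ => hEcard j
    rw [Finset.prod_pow_eq_pow_sum] at h2
    have h3 : ∑ j : Fin m.length, m.get j = m.sum := by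
      rw [← List.sum_ofFn, List.ofFn_get]
    rw [h3] at h2
    exact_mod_cast h1.trans h2
  have hsig : sig m = ∑ j : Fin m.length, (1 - 1 / (m.get j : ℝ)) := by
    unfold sig
    rw [← Fin.sum_univ_fun_getElem m (fun k : ℕ => 1 - 1 / (k : ℝ))]
    rfl
  have hlow : ∀ x : Fin m.length → ((Fin n → F) →ₗ[F] (Fin n → F)),
      (∀ j, x j ^ m.get j = 1) →
      (∃ j, c₀ * (n : ℝ) ^ 2 ≤ (sq (x j) : ℝ) - (n : ℝ) ^ 2 / m.get j) →
      ((m.length : ℝ) - sig m + c₀) * (n : ℝ) ^ 2 ≤ ∑ j, ∑ᶠ ζ : F, (ev (x j) ζ : ℝ) ^ 2 := by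
    rintro x hx ⟨j₀, hj₀⟩
    have h1 : ∀ j, (sq (x j) : ℝ) = ∑ᶠ ζ : F, (ev (x j) ζ : ℝ) ^ 2 := by
      intro j
      unfold FL0.sq
      have : Fintype F := Fintype.ofFinite F
      rw [finsum_eq_sum_of_fintype, finsum_eq_sum_of_fintype]
      push_cast
      rfl
    have h2 : ∀ j, (n : ℝ) ^ 2 / m.get j ≤ (FL0.sq (x j) : ℝ) := by
      intro j
      have h3 := (hEVS F (Fin n → F) (m.get j) (hk1 j) (hkd j)).2.1 (x j) (hx j)
      rw [Module.finrank_fin_fun] at h3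
      exact h3
    have h4 : c₀ * (n : ℝ) ^ 2 ≤ ∑ j, ((sq (x j) : ℝ) - (n : ℝ) ^ 2 / m.get j) :=
      hj₀.trans (Finset.single_le_sum (f := fun j => (sq (x j) : ℝ) - (n : ℝ) ^ 2 / m.get j)
        (fun j _ => sub_nonneg.2 (h2 j)) (Finset.mem_univ j₀))
    rw [Finset.sum_sub_distrib] at h4
    have h5 : ∑ j : Fin m.length, (n : ℝ) ^ 2 / m.get j =
        ((m.length : ℝ) - sig m) * (n : ℝ) ^ 2 := by
      rw [hsig, Finset.sum_sub_distrib, Finset.sum_const, Finset.card_univ, Fintype.card_fin,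
        nsmul_eq_mul, mul_one, sub_sub_cancel, Finset.sum_mul]
      refine Finset.sum_congr rfl fun j _ => ?_
      rw [one_div, div_eq_inv_mul]
    rw [h5] at h4
    rw [← Finset.sum_congr rfl fun j _ => h1 j]
    linarith
  let T : B → Type := fun β => {t : (Fin m.length → ((Fin n → F) →ₗ[F] (Fin n → F))) ×
          ((Fin n → F) →ₗ[F] (Fin n → F)) // (∀ j, t.1 j ^ m.get j = 1) ∧
        (∀ j ζ, ev (t.1 j) ζ = (β.1 j).1 ζ) ∧ (List.ofFn t.1).prod * t.2 ^ 2 = z • 1}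
  have hTfin : ∀ β, Finite (T β) := fun β => inferInstance
  have h1 : Nat.card {x : (Fin m.length → ((Fin n → F) →ₗ[F] (Fin n → F))) ×
          ((Fin n → F) →ₗ[F] (Fin n → F)) // ((∀ j, x.1 j ^ m.get j = 1) ∧
          (List.ofFn x.1).prod * x.2 ^ 2 = z • 1) ∧
          ∃ j, c₀ * (n : ℝ) ^ 2 ≤ (sq (x.1 j) : ℝ) - (n : ℝ) ^ 2 / m.get j} ≤
      Nat.card (Σ β : B, T β) := by
    refine Nat.card_le_card_of_injective (fun x => ⟨⟨fun j => ⟨fun ζ => ev (x.1.1 j) ζ,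
      ⟨x.1.1 j, x.2.1.1 j, fun ζ => rfl⟩⟩, hlow x.1.1 x.2.1.1 x.2.2⟩, ⟨x.1, x.2.1.1,
      fun j ζ => rfl, x.2.1.2⟩⟩) ?_
    intro x x' h
    apply Subtype.ext
    have h2 : ∀ p q : (Σ β : B, T β), p = q → p.2.1 = q.2.1 := by
      rintro p q rfl
      rfl
    exact h2 _ _ h
  have h2 : (Nat.card (Σ β : B, T β) : ℝ) ≤ ∑ _β : B, X := by
    rw [Nat.card_sigma, Nat.cast_sum]
    exact Finset.sum_le_sum fun β _ => hU (fun j => (β.1 j).1) β.2
  rw [Finset.sum_const, nsmul_eq_mul, Finset.card_univ, ← Nat.card_eq_fintype_card] at h2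
  exact ((Nat.cast_le.2 h1).trans h2).trans (mul_le_mul_of_nonneg_right hB hX)

/-- the second alternative -/
theorem red_second {F : Type} [Field F] [Finite F] {n : ℕ} (m : List ℕ) (z : F) (e C K σ : ℝ)
    (hK : 0 ≤ K) (hSUB : S_SUB) (hσ : 1 ≤ C - e)
    (hP : ∀ (W : Submodule F (Fin n → F)) (H : ℝ), 0 ≤ H →
      (Nat.card {x : (Fin m.length → ((Fin n → F) →ₗ[F] (Fin n → F))) ×
          ((Fin n → F) →ₗ[F] (Fin n → F)) // (∀ j, x.1 j ^ m.get j = 1) ∧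
          (List.ofFn x.1).prod * x.2 ^ 2 = z • 1 ∧ ∃ h : Inn x.1 x.2 W,
            (Nat.card (Hn (sb x.1 W h.1) (x.2.restrict h.2) (qt x.1 W h.1)
              (W.mapQ W x.2 h.2)) : ℝ) ≤ H} : ℝ) ≤
      K * (Nat.card F : ℝ) ^ (σ -
          C * (Module.finrank F W * Module.finrank F ((Fin n → F) ⧸ W))) * H) :
    (Nat.card {x : (Fin m.length → ((Fin n → F) →ₗ[F] (Fin n → F))) ×
          ((Fin n → F) →ₗ[F] (Fin n → F)) // ((∀ j, x.1 j ^ m.get j = 1) ∧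
          (List.ofFn x.1).prod * x.2 ^ 2 = z • 1) ∧
          ∃ (W : Submodule F (Fin n → F)) (h : Inn x.1 x.2 W), W ≠ ⊥ ∧ W ≠ ⊤ ∧
            (Nat.card (Hn (sb x.1 W h.1) (x.2.restrict h.2) (qt x.1 W h.1)
              (W.mapQ W x.2 h.2)) : ℝ) ≤
            (Nat.card F : ℝ) ^ (e * Module.finrank F W *
              Module.finrank F ((Fin n → F) ⧸ W))} : ℝ) ≤
      K * (4 * (n : ℝ) * (Nat.card F : ℝ) ^ (σ + (C - e - 1) - (C - e - 1) * n)) := by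
  classical
  have := red_finEnd (F := F) n
  have : Fintype (RG.Sub n F) := Fintype.ofFinite _
  have hq : (0 : ℝ) < Nat.card F := by exact_mod_cast Nat.card_pos
  let T : RG.Sub n F → Type := fun W =>
    {x : (Fin m.length → ((Fin n → F) →ₗ[F] (Fin n → F))) ×
          ((Fin n → F) →ₗ[F] (Fin n → F)) // (∀ j, x.1 j ^ m.get j = 1) ∧
          (List.ofFn x.1).prod * x.2 ^ 2 = z • 1 ∧ ∃ h : Inn x.1 x.2 W.1,
            (Nat.card (Hn (sb x.1 W.1 h.1) (x.2.restrict h.2) (qt x.1 W.1 h.1)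
              (W.1.mapQ W.1 x.2 h.2)) : ℝ) ≤ (Nat.card F : ℝ) ^ (e * Module.finrank F W.1 *
              Module.finrank F ((Fin n → F) ⧸ W.1))}
  have hTfin : ∀ W, Finite (T W) := fun W => inferInstance
  have hex : ∀ x : {x : (Fin m.length → ((Fin n → F) →ₗ[F] (Fin n → F))) ×
          ((Fin n → F) →ₗ[F] (Fin n → F)) // ((∀ j, x.1 j ^ m.get j = 1) ∧
          (List.ofFn x.1).prod * x.2 ^ 2 = z • 1) ∧
          ∃ (W : Submodule F (Fin n → F)) (h : Inn x.1 x.2 W), W ≠ ⊥ ∧ W ≠ ⊤ ∧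
            (Nat.card (Hn (sb x.1 W h.1) (x.2.restrict h.2) (qt x.1 W h.1)
              (W.mapQ W x.2 h.2)) : ℝ) ≤
            (Nat.card F : ℝ) ^ (e * Module.finrank F W *
              Module.finrank F ((Fin n → F) ⧸ W))},
      ∃ W : RG.Sub n F, ∃ h : Inn x.1.1 x.1.2 W.1,
            (Nat.card (Hn (sb x.1.1 W.1 h.1) (x.1.2.restrict h.2) (qt x.1.1 W.1 h.1)
              (W.1.mapQ W.1 x.1.2 h.2)) : ℝ) ≤ (Nat.card F : ℝ) ^ (e * Module.finrank F W.1 *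
              Module.finrank F ((Fin n → F) ⧸ W.1)) := by
    intro x
    obtain ⟨W, h, h1, h2, h3⟩ := x.2.2
    refine ⟨⟨W, ?_, ?_⟩, h, h3⟩
    · rw [Nat.one_le_iff_ne_zero]
      intro h4
      exact h1 (Submodule.finrank_eq_zero.1 h4)
    · have h4 := Submodule.finrank_lt h2
      rwa [Module.finrank_fin_fun] at h4
  choose W hW using hex
  have h1 : Nat.card {x : (Fin m.length → ((Fin n → F) →ₗ[F] (Fin n → F))) ×
          ((Fin n → F) →ₗ[F] (Fin n → F)) // ((∀ j, x.1 j ^ m.get j = 1) ∧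
          (List.ofFn x.1).prod * x.2 ^ 2 = z • 1) ∧
          ∃ (W : Submodule F (Fin n → F)) (h : Inn x.1 x.2 W), W ≠ ⊥ ∧ W ≠ ⊤ ∧
            (Nat.card (Hn (sb x.1 W h.1) (x.2.restrict h.2) (qt x.1 W h.1)
              (W.mapQ W x.2 h.2)) : ℝ) ≤
            (Nat.card F : ℝ) ^ (e * Module.finrank F W *
              Module.finrank F ((Fin n → F) ⧸ W))} ≤ Nat.card (Σ W : RG.Sub n F, T W) := by
    refine Nat.card_le_card_of_injective (fun x => ⟨W x, ⟨x.1, x.2.1.1, x.2.1.2, hW x⟩⟩) ?_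
    intro x x' h
    apply Subtype.ext
    have h2 : ∀ p q : (Σ W : RG.Sub n F, T W), p = q → p.2.1 = q.2.1 := by
      rintro p q rfl
      rfl
    exact h2 _ _ h
  have h2 : (Nat.card (Σ W : RG.Sub n F, T W) : ℝ) ≤
      ∑ W : RG.Sub n F, K * (Nat.card F : ℝ) ^ (σ - (Module.finrank F W.1 : ℝ) *
        ((n : ℝ) - Module.finrank F W.1) * (C - e)) := by
    rw [Nat.card_sigma, Nat.cast_sum]
    refine Finset.sum_le_sum fun W _ => ?_
    refine (hP W.1 _ (Real.rpow_nonneg hq.le _)).trans (le_of_eq ?_)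
    rw [mul_assoc, ← Real.rpow_add hq]
    congr 2
    have h3 : (Module.finrank F ((Fin n → F) ⧸ W.1) : ℝ) = (n : ℝ) - Module.finrank F W.1 := by
      have h4 := Submodule.finrank_quotient_add_finrank W.1
      rw [Module.finrank_fin_fun] at h4
      rw [eq_sub_iff_add_eq]
      exact_mod_cast h4
    rw [h3]
    ring
  rw [← Finset.mul_sum] at h2
  exact ((Nat.cast_le.2 h1).trans h2).trans
    (mul_le_mul_of_nonneg_left (RG.sum_le hSUB hσ) hK)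

theorem red_num (q : ℝ) (hq : 2 ≤ q) (n M : ℕ) (d σ C₁ C₂ c₀ : ℝ) (hσ : 1 < σ) (h1 : 0 ≤ C₁)
    (h2 : 0 ≤ C₂) (hn : σ - 1 ≤ c₀ * n) :
    ((n : ℝ) + 1) ^ M * q ^ (C₁ + (d + σ) / 2 * (n : ℝ) ^ 2 - ((d - σ + c₀) * (n : ℝ) ^ 2) / 2) +
      ((n : ℝ) + 1) ^ (2 * M) * (4 * (n : ℝ) * q ^ ((C₂ + σ * (n : ℝ) ^ 2) +
        (σ - (σ - 1) / 2 - 1) - (σ - (σ - 1) / 2 - 1) * n)) ≤
      ((n : ℝ) + 1) ^ (C₁ + C₂ + σ + 3 + 2 * (M : ℝ) + 1) *
        q ^ (σ * (n : ℝ) ^ 2 + (C₁ + C₂ + σ + 3 + 2 * (M : ℝ) + 1) - (σ - 1) / 2 * n) := by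
  have hq0 : 0 < q := by linarith
  have hq1 : 1 ≤ q := by linarith
  have hn0 : (0 : ℝ) ≤ n := Nat.cast_nonneg n
  have hn1 : (1 : ℝ) ≤ (n : ℝ) + 1 := by linarith
  set Y : ℝ := q ^ (σ * (n : ℝ) ^ 2 + (C₁ + C₂ + σ) - (σ - 1) / 2 * n) with hY
  have hY0 : 0 ≤ Y := Real.rpow_nonneg hq0.le _
  have e1 : q ^ (C₁ + (d + σ) / 2 * (n : ℝ) ^ 2 - ((d - σ + c₀) * (n : ℝ) ^ 2) / 2) ≤ Y := by
    apply Real.rpow_le_rpow_of_exponent_le hq1
    have h3 : (σ - 1) * n ≤ c₀ * n * n := mul_le_mul_of_nonneg_right hn hn0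
    nlinarith
  have e2 : q ^ ((C₂ + σ * (n : ℝ) ^ 2) + (σ - (σ - 1) / 2 - 1) -
      (σ - (σ - 1) / 2 - 1) * n) ≤ Y := by
    apply Real.rpow_le_rpow_of_exponent_le hq1
    nlinarith
  have e3 : ((n : ℝ) + 1) ^ M ≤ ((n : ℝ) + 1) ^ (2 * M + 1) :=
    pow_le_pow_right₀ hn1 (by omega)
  have e4 : ((n : ℝ) + 1) ^ (2 * M) * (4 * (n : ℝ)) ≤ 4 * ((n : ℝ) + 1) ^ (2 * M + 1) := by
    rw [pow_succ]
    have h3 : (0 : ℝ) ≤ ((n : ℝ) + 1) ^ (2 * M) := by positivity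
    nlinarith
  have e5 : ((n : ℝ) + 1) ^ (2 * M + 1) ≤ ((n : ℝ) + 1) ^ (C₁ + C₂ + σ + 3 + 2 * (M : ℝ) + 1) := by
    rw [← Real.rpow_natCast]
    apply Real.rpow_le_rpow_of_exponent_le hn1
    push_cast
    linarith
  have e6 : 5 * Y ≤ q ^ (σ * (n : ℝ) ^ 2 + (C₁ + C₂ + σ + 3 + 2 * (M : ℝ) + 1) -
      (σ - 1) / 2 * n) := by
    have h3 : (5 : ℝ) ≤ q ^ (3 : ℝ) := by
      have h4 : q ^ (3 : ℝ) = q ^ 3 := by exact_mod_cast Real.rpow_natCast q 3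
      rw [h4]
      have h5 := pow_le_pow_left₀ (by norm_num : (0 : ℝ) ≤ 2) hq 3
      linarith
    calc 5 * Y ≤ q ^ (3 : ℝ) * Y := mul_le_mul_of_nonneg_right h3 hY0
      _ = q ^ (3 + (σ * (n : ℝ) ^ 2 + (C₁ + C₂ + σ) - (σ - 1) / 2 * n)) := by
          rw [hY, ← Real.rpow_add hq0]
      _ ≤ _ := by
          apply Real.rpow_le_rpow_of_exponent_le hq1
          have : (0 : ℝ) ≤ M := Nat.cast_nonneg M
          linarith
  have hA0 : (0 : ℝ) ≤ ((n : ℝ) + 1) ^ (2 * M + 1) := by positivity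
  calc _ ≤ ((n : ℝ) + 1) ^ (2 * M + 1) * Y + 4 * ((n : ℝ) + 1) ^ (2 * M + 1) * Y := by
          refine add_le_add (mul_le_mul e3 e1 (Real.rpow_nonneg hq0.le _) hA0) ?_
          rw [← mul_assoc]
          exact mul_le_mul e4 e2 (Real.rpow_nonneg hq0.le _) (by positivity)
    _ = ((n : ℝ) + 1) ^ (2 * M + 1) * (5 * Y) := by ring
    _ ≤ _ := mul_le_mul e5 e6 (by positivity) (by positivity)

theorem t_RED : M_RED := by
  intro hSUB hEVS hUPB hDEC hPAR m hm hσ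
  obtain ⟨C₁, hC₁, hU⟩ := hUPB m hm hσ
  obtain ⟨c₀, hc₀, hD⟩ := hDEC m hm hσ
  obtain ⟨C₂, hC₂, hP⟩ := hPAR m hm hσ
  refine ⟨C₁ + C₂ + sig m + 3 + 2 * (m.sum : ℝ) + 1, ⌈(sig m - 1) / c₀⌉₊, by positivity, ?_⟩
  intro n hn F _ _ hdiv z hz
  have hq : (2 : ℝ) ≤ (Nat.card F : ℝ) := by
    exact_mod_cast Finite.one_lt_card (α := F)
  have hq0 : (0 : ℝ) < (Nat.card F : ℝ) := by linarith
  have hq1 : (1 : ℝ) ≤ (Nat.card F : ℝ) := by linarith
  have hn' : sig m - 1 ≤ c₀ * n := by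
    have h1 : (sig m - 1) / c₀ ≤ n := (Nat.le_ceil _).trans (by exact_mod_cast hn)
    rw [div_le_iff₀ hc₀] at h1
    linarith
  have h1 := red_card (F := F) (n := n) m z
  have h2 := red_split (F := F) (n := n) m z c₀ ((sig m - 1) / 2) (by
    intro x y hx hW
    have h3 := hD F (Fin n → F) hdiv x y hx hW
    rw [Module.finrank_fin_fun] at h3
    exact h3)
  have h3 := red_first (F := F) (n := n) m hm hdiv z c₀
    ((Nat.card F : ℝ) ^ (C₁ + (m.length + sig m) / 2 * (n : ℝ) ^ 2 -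
      (((m.length : ℝ) - sig m + c₀) * (n : ℝ) ^ 2) / 2)) (Real.rpow_nonneg hq0.le _) hEVS (by
    intro β hβ
    refine (hU F (Fin n → F) hdiv z hz β).trans ?_
    rw [Module.finrank_fin_fun]
    apply Real.rpow_le_rpow_of_exponent_le hq1
    linarith)
  have h4 := red_second (F := F) (n := n) m z ((sig m - 1) / 2) (sig m)
    (((n : ℝ) + 1) ^ (2 * m.sum)) (C₂ + sig m * (n : ℝ) ^ 2) (by positivity) hSUB
    (by linarith) (by
    intro W H hH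
    have h5 := hP F (Fin n → F) hdiv z hz W H hH
    rw [Module.finrank_fin_fun] at h5
    exact h5)
  have h5 := red_num (Nat.card F : ℝ) hq n m.sum m.length (sig m) C₁ C₂ c₀ hσ hC₁ hC₂ hn'
  refine le_trans ?_ h5
  refine le_trans ?_ (add_le_add h3 h4)
  exact_mod_cast h1.trans h2

end

end FLN
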