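import Mathlib
import Pool.Agent.FLN.StN
import Pool.Agent.FL0.SMP

/-!
# Homomorphisms from a simple module, with one sign (module SMP)
-/

set_option autoImplicit false

namespace FLN

open RSF FL0 Polynomial Pool.Agent.Lib_helper13

/-- the bound with two vectors which are not related by an endomorphism -/
lemma smp_main {F A B : Type} [Field F] [Finite F] [AddCommGroup A] [Module F A]
    [FiniteDimensional F A] [AddCommGroup B] [Module F B] [FiniteDimensional F B] {d : ℕ}
    {α : Fin d → (A →ₗ[F] A)} (β : Fin d → (B →ₗ[F] B)) (hα : Sim α) {v w : A} (hw : w ≠ 0)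
    (hvw : ∀ φ : A →ₗ[F] A, (∀ j, φ ∘ₗ α j = α j ∘ₗ φ) → φ w ≠ v) :
    Nat.card (Hm α β) ^ 2 ≤ Nat.card F ^ Module.finrank F B := by
  have : Finite B := Module.finite_of_finite F
  have hB : Nat.card B = Nat.card F ^ Module.finrank F B := Module.natCard_eq_pow_finrank
  have key : ∃ r : FreeAlgebra F (Fin d), SMPaux.evw α w r = 0 ∧ SMPaux.evw α v r ≠ 0 := by
    by_contra hcon
    push Not at hcon
    obtain ⟨φ, hφ, hφw⟩ := SMPaux.exists_endo hα hw hcon
    exact hvw φ hφ hφw
  obtain ⟨r, hr1, hr2⟩ := key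
  rw [← hB, pow_two, ← Nat.card_prod]
  refine Nat.card_le_card_of_injective (fun p : Hm α β × Hm α β => p.1.1 v + p.2.1 w) ?_
  intro p p' hpp
  have h3 : (p.1.1 - p'.1.1) v + (p.2.1 - p'.2.1) w = 0 := by
    have h4 : p.1.1 v + p.2.1 w = p'.1.1 v + p'.2.1 w := hpp
    rw [LinearMap.sub_apply, LinearMap.sub_apply]
    have h5 : p.1.1 v - p'.1.1 v + (p.2.1 w - p'.2.1 w) =
        p.1.1 v + p.2.1 w - (p'.1.1 v + p'.2.1 w) := by abel
    rw [h5, h4, sub_self]
  have hc1 := SMPaux.sub_comm p.1.2 p'.1.2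
  have hc2 := SMPaux.sub_comm p.2.2 p'.2.2
  have h6 : p.1.1 - p'.1.1 = 0 := by
    refine SMPaux.eq_zero hα hc1 hr2 ?_
    rw [SMPaux.evw_apply, SMPaux.free_comm hc1, eq_neg_of_add_eq_zero_left h3, map_neg,
      ← SMPaux.free_comm hc2, ← SMPaux.evw_apply, hr1, map_zero, neg_zero]
  rw [h6, LinearMap.zero_apply, zero_add] at h3
  have h7 : p.2.1 - p'.2.1 = 0 := SMPaux.eq_zero hα hc2 hw h3
  exact Prod.ext (Subtype.ext (sub_eq_zero.1 h6)) (Subtype.ext (sub_eq_zero.1 h7))

section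

variable {F A B : Type} [Field F] [AddCommGroup A] [Module F A] [AddCommGroup B] [Module F B]
  {d : ℕ} {α : Fin d → (A →ₗ[F] A)} {u : A →ₗ[F] A}

/-- the two notions of a simple module -/
lemma smp_sim (h : Sin α u) : Sim (Fin.cons u α : Fin (d + 1) → (A →ₗ[F] A)) := by
  refine ⟨h.1, fun W hW => h.2 W ⟨fun j => ?_, ?_⟩⟩
  · have h1 := hW j.succ
    rwa [Fin.cons_succ] at h1
  · have h1 := hW 0
    rwa [Fin.cons_zero] at h1

/-- the homomorphisms as homomorphisms of modules with `d + 1` endomorphisms -/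
def smp_hom {β : Fin d → (B →ₗ[F] B)} {v : B →ₗ[F] B} (f : Hn α u β v) :
    Hm (Fin.cons u α : Fin (d + 1) → (A →ₗ[F] A)) (Fin.cons (-v) β) :=
  ⟨f.1, fun j => by
    refine Fin.cases ?_ (fun i => ?_) j
    · rw [Fin.cons_zero, Fin.cons_zero, f.2.2, LinearMap.neg_comp]
    · rw [Fin.cons_succ, Fin.cons_succ, f.2.1 i]⟩

lemma smp_hom_inj {β : Fin d → (B →ₗ[F] B)} {v : B →ₗ[F] B} :
    Function.Injective (smp_hom (α := α) (u := u) (β := β) (v := v)) := by
  intro f g h
  have h1 : (smp_hom f).1 = (smp_hom g).1 := by rw [h]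
  exact Subtype.ext h1

end

theorem t_SMP : S_SMP := by
  intro F A B _ _ _ _ _ _ _ _ d α u β v hα
  have : Finite A := Module.finite_of_finite F
  have : Finite B := Module.finite_of_finite F
  have hs := smp_sim hα
  have := hα.1
  have hB : Nat.card B = Nat.card F ^ Module.finrank F B := Module.natCard_eq_pow_finrank
  obtain ⟨v₁, hv₁⟩ := exists_ne (0 : A)
  have hinj : Function.Injective (fun f : Hm (Fin.cons u α : Fin (d + 1) → (A →ₗ[F] A))
      (Fin.cons (-v) β : Fin (d + 1) → (B →ₗ[F] B)) => f.1 v₁) := by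
    intro f g hfg
    have h1 : (f.1 - g.1) v₁ = 0 := by
      rw [LinearMap.sub_apply, sub_eq_zero]
      exact hfg
    exact Subtype.ext (sub_eq_zero.1 (SMPaux.eq_zero hs (SMPaux.sub_comm f.2 g.2) hv₁ h1))
  have hfin : Finite (Hm (Fin.cons u α : Fin (d + 1) → (A →ₗ[F] A))
      (Fin.cons (-v) β : Fin (d + 1) → (B →ₗ[F] B))) := Finite.of_injective _ hinj
  have hle : Nat.card (Hn α u β v) ≤ Nat.card (Hm (Fin.cons u α : Fin (d + 1) → (A →ₗ[F] A))
      (Fin.cons (-v) β : Fin (d + 1) → (B →ₗ[F] B))) :=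
    Nat.card_le_card_of_injective smp_hom smp_hom_inj
  constructor
  · refine hle.trans ?_
    rw [← hB]
    exact Nat.card_le_card_of_injective _ hinj
  · rintro ⟨j, ζ, h0, h1⟩
    refine (Nat.pow_le_pow_left hle 2).trans ?_
    set U : Submodule F A := LinearMap.ker (α j - ζ • LinearMap.id) with hU
    have hU0 : U ≠ ⊥ := by
      intro h
      have h2 : ev (α j) ζ = Module.finrank F U := rfl
      rw [h2, h, finrank_bot] at h0
      exact lt_irrefl 0 h0
    have hU1 : U ≠ ⊤ := by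
      intro h
      have h2 : ev (α j) ζ = Module.finrank F U := rfl
      rw [h2, h, finrank_top] at h1
      exact lt_irrefl _ h1
    obtain ⟨w, hwU, hw⟩ := Submodule.exists_mem_ne_zero_of_ne_bot hU0
    obtain ⟨v₀, hv₀⟩ : ∃ v₀ : A, v₀ ∉ U := by
      by_contra hcon
      push Not at hcon
      exact hU1 (eq_top_iff.2 fun x _ => hcon x)
    refine smp_main (Fin.cons (-v) β) hs hw (v := v₀) ?_
    intro φ hφ hφw
    apply hv₀
    rw [← hφw, hU, LinearMap.mem_ker, LinearMap.sub_apply, LinearMap.smul_apply,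
      LinearMap.id_apply, sub_eq_zero]
    rw [hU, LinearMap.mem_ker, LinearMap.sub_apply, LinearMap.smul_apply,
      LinearMap.id_apply, sub_eq_zero] at hwU
    have h2 := LinearMap.congr_fun (hφ j.succ) w
    rw [Fin.cons_succ, LinearMap.comp_apply, LinearMap.comp_apply, hwU, map_smul] at h2
    exact h2.symm

end FLN
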