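import Mathlib
import Pool.Agent.FLN.StN
import Pool.Agent.FL0.CNT0

set_option autoImplicit false

/-!
# The number of homomorphisms of the groups of genus one to `PSL_n(q)` (module CNT)
-/

namespace FLN

open RSF FL0 Polynomial Pool.Agent.Lib_helper13

noncomputable section

open CNT0 in
theorem t_CNT : M_CNT := by
  intro hLFH0 hLFH hSMC hABS hPOL m hm hσ
  obtain ⟨c, r1, hc, hr1, h1⟩ := hSMC m hm hσ
  have hA : ∀ k : ℕ, ∃ C : ℝ, 0 ≤ C ∧ (1 ≤ k → ∀ n, 1 ≤ n → ∀ (F : Type) [Field F] [Finite F],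
      k ∣ Nat.card F - 1 → Ord n F k →
        ∑ᶠ A : CA n F k, (Nat.card F : ℝ) ^ (del k A.1.1 / 2) ≤
          ((n : ℝ) + 1) ^ k * (Nat.card F : ℝ) ^ C * Nat.card (CA n F k)) := by
    intro k
    by_cases hk : 1 ≤ k
    · obtain ⟨C, hC, h⟩ := hABS k hk
      exact ⟨C, hC, fun _ => h⟩
    · exact ⟨0, le_rfl, fun h => absurd h hk⟩
  choose C hC0 hC using hA
  have hK : 0 ≤ ∑ j : Fin m.length, ((m.get j : ℕ) : ℝ) + ∑ j : Fin m.length, C (m.get j) :=
    add_nonneg (Finset.sum_nonneg fun j _ => Nat.cast_nonneg _)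
      (Finset.sum_nonneg fun j _ => hC0 _)
  obtain ⟨r2, h2⟩ := hPOL c _ hc hK
  refine ⟨c / 2, max r1 r2, by positivity, le_max_of_le_left hr1, fun n hn F _ _ hk hO => ?_⟩
  have hn1 : r1 ≤ n := (le_max_left _ _).trans hn
  have hn2 : r2 ≤ n := (le_max_right _ _).trans hn
  have hq : (2 : ℝ) ≤ Nat.card F := by
    have h3 : 1 < Nat.card F := Finite.one_lt_card
    exact_mod_cast h3
  have hfin := JL.finite_SL (F := F) (n := n)
  have hfp := finPS n F
  have hft : Fintype (Subgroup.center (SL n F) : Set (SL n F)) := Fintype.ofFinite _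
  have hg : 0 < Nat.card (Subgroup.center (SL n F)) := Nat.card_pos
  have hgR : (0 : ℝ) < Nat.card (Subgroup.center (SL n F)) := by exact_mod_cast hg
  obtain ⟨hL1, -⟩ := hLFH0 n F
  have hcount := hLFH n F m (fun _ _ => True)
  have e1 : Nat.card {ρ : NGroup 1 m →* PS n F // True} = Nat.card (NGroup 1 m →* PS n F) :=
    Nat.card_congr (Equiv.subtypeUnivEquiv fun _ => trivial)
  have e2 : Nat.card {A : (Fin m.length → SL n F) × SL n F //
      (∀ j, A.1 j ^ m.get j ∈ Subgroup.center (SL n F)) ∧ True ∧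
        (List.ofFn A.1).prod * A.2 ^ 2 ∈ Subgroup.center (SL n F)} =
      ∑ s : (Subgroup.center (SL n F) : Set (SL n F)),
        Nat.card {A : (Fin m.length → SL n F) × SL n F //
        (∀ j, A.1 j ^ m.get j ∈ Subgroup.center (SL n F)) ∧
          (List.ofFn A.1).prod * A.2 ^ 2 = s} := by
    rw [← card_fib (fun A : (Fin m.length → SL n F) × SL n F =>
      ∀ j, A.1 j ^ m.get j ∈ Subgroup.center (SL n F))
      (fun A => (List.ofFn A.1).prod * A.2 ^ 2)]
    refine Nat.card_congr (Equiv.subtypeEquivRight fun A => ?_)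
    simp
  rw [e1, e2] at hcount
  have hP : ∏ j, (Nat.card (CA n F (m.get j)) : ℝ) =
      (Nat.card (Subgroup.center (SL n F)) : ℝ) ^ m.length * JJ (PS n F) m := by
    rw [JJ_eq, Nat.cast_prod]
    simp only [hL1, Nat.cast_mul]
    rw [Finset.prod_mul_distrib, Finset.prod_const, Finset.card_univ, Fintype.card_fin]
  have hQ : (∏ j, ∑ᶠ A : CA n F (m.get j), (Nat.card F : ℝ) ^ (del (m.get j) A.1.1 / 2)) ≤
      (∏ j : Fin m.length, (((n : ℝ) + 1) ^ m.get j * (Nat.card F : ℝ) ^ C (m.get j))) *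
        ∏ j, (Nat.card (CA n F (m.get j)) : ℝ) := by
    rw [← Finset.prod_mul_distrib]
    refine Finset.prod_le_prod (fun j _ => ?_) fun j _ => ?_
    · exact finsum_nonneg fun A => Real.rpow_nonneg (by linarith) _
    · have hj : m.get j ∈ m := List.get_mem m j
      exact hC (m.get j) (by have := hm _ hj; omega) n (by omega) F (hk _ hj) (hO _ hj)
  have hJ : (0 : ℝ) < JJ (PS n F) m := by
    rw [JJ_eq]
    exact_mod_cast Finset.prod_pos fun j _ => jn_pos n F (m.get j)
  have hsum : ∑ s : (Subgroup.center (SL n F) : Set (SL n F)),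
      (Nat.card {A : (Fin m.length → SL n F) × SL n F //
        (∀ j, A.1 j ^ m.get j ∈ Subgroup.center (SL n F)) ∧
          (List.ofFn A.1).prod * A.2 ^ 2 = s} : ℝ) =
      (Nat.card (Subgroup.center (SL n F)) : ℝ) ^ m.length *
        ((Nat.card (Subgroup.center (SL n F)) : ℝ) * (Nat.card (NGroup 1 m →* PS n F) : ℝ)) := by
    rw [← mul_assoc, ← pow_succ]
    exact_mod_cast hcount
  have key := real_ineq (fun s : (Subgroup.center (SL n F) : Set (SL n F)) =>
      (Nat.card {A : (Fin m.length → SL n F) × SL n F //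
        (∀ j, A.1 j ^ m.get j ∈ Subgroup.center (SL n F)) ∧
          (List.ofFn A.1).prod * A.2 ^ 2 = s} : ℝ))
    ((Nat.card (Subgroup.center (SL n F)) : ℝ) * (Nat.card (NGroup 1 m →* PS n F) : ℝ))
    ((Nat.card (Subgroup.center (SL n F)) : ℝ)⁻¹) (JJ (PS n F) m)
    (Nat.card (Subgroup.center (SL n F)))
    (∏ j : Fin m.length, (((n : ℝ) + 1) ^ m.get j * (Nat.card F : ℝ) ^ C (m.get j)))
    ((Nat.card F : ℝ) ^ (-c * (n : ℝ))) (∏ j, (Nat.card (CA n F (m.get j)) : ℝ))
    (∏ j, ∑ᶠ A : CA n F (m.get j), (Nat.card F : ℝ) ^ (del (m.get j) A.1.1 / 2)) 1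
    m.length hgR hJ
    (by rw [← Nat.card_eq_fintype_card]; rfl) hsum (inv_mul_cancel₀ hgR.ne').symm hP hQ
    (Real.rpow_nonneg (by linarith) _) fun s => by
      rw [mul_one]
      exact h1 n hn1 F hk hO s.1 s.2
  have hsimp : (Nat.card (Subgroup.center (SL n F)) : ℝ) *
      (Nat.card (NGroup 1 m →* PS n F) : ℝ) * (Nat.card (Subgroup.center (SL n F)) : ℝ)⁻¹ =
      (Nat.card (NGroup 1 m →* PS n F) : ℝ) := by
    field_simp
  rw [hsimp] at key
  refine key.trans ((absorb _ _ (fun j => hC0 (m.get j)) ((n : ℝ) + 1) (Nat.card F : ℝ) c n ?_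
    (by linarith)).trans ?_)
  · have : (0 : ℝ) ≤ n := Nat.cast_nonneg n
    linarith
  · exact h2 n hn2 (Nat.card F) hq

end

end FLN
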