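import Pool.Agent.FLN.StN
import Pool.Agent.FL0.DEC

/-!
# DEC: decomposition of reducible tuples, genus 1, non-oriented
-/

namespace FLN

open RSF FL0 Polynomial

noncomputable section

/-! ### a minimal invariant subspace -/

lemma dec_min {F V : Type} [Field F] [AddCommGroup V] [Module F V] [FiniteDimensional F V]
    {d : ℕ} (x : Fin d → (V →ₗ[F] V)) (y : V →ₗ[F] V)
    (h : ∃ W : Submodule F V, Inn x y W ∧ W ≠ ⊥ ∧ W ≠ ⊤) :
    ∃ (W : Submodule F V) (hW : Inn x y W), W ≠ ⊥ ∧ W ≠ ⊤ ∧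
      Sin (sb x W hW.1) (y.restrict hW.2) := by
  classical
  have hex : ∃ k : ℕ, ∃ W : Submodule F V, (Inn x y W ∧ W ≠ ⊥ ∧ W ≠ ⊤) ∧
      Module.finrank F W = k := by
    obtain ⟨W, hW⟩ := h
    exact ⟨_, W, hW, rfl⟩
  obtain ⟨W, ⟨hW, hb, ht⟩, hk⟩ := Nat.find_spec hex
  refine ⟨W, hW, hb, ht, (Submodule.nontrivial_iff_ne_bot).2 hb, ?_⟩
  intro W' hW'
  by_cases hbot : W' = ⊥
  · exact Or.inl hbot
  right
  set U : Submodule F V := W'.map W.subtype with hU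
  have hUW : U ≤ W := Submodule.map_subtype_le W W'
  have hUb : U ≠ ⊥ := by
    intro h0
    apply hbot
    apply Submodule.map_injective_of_injective W.injective_subtype
    rw [Submodule.map_bot]
    exact h0
  have hUt : U ≠ ⊤ := fun h0 => ht (top_le_iff.1 (h0 ▸ hUW))
  have hUinv : Inn x y U := by
    constructor
    · intro j v hv
      obtain ⟨w, hw, rfl⟩ := hv
      have h1 := hW'.1 j hw
      rw [Submodule.mem_comap] at h1 ⊢
      exact ⟨_, h1, rfl⟩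
    · intro v hv
      obtain ⟨w, hw, rfl⟩ := hv
      have h1 := hW'.2 hw
      rw [Submodule.mem_comap] at h1 ⊢
      exact ⟨_, h1, rfl⟩
  have hmin := Nat.find_min' hex ⟨U, ⟨hUinv, hUb, hUt⟩, rfl⟩
  rw [← hk] at hmin
  have hfr : Module.finrank F U = Module.finrank F W' :=
    Submodule.finrank_map_subtype_eq W W'
  exact Submodule.eq_top_of_finrank_eq (le_antisymm (Submodule.finrank_le _) (hfr ▸ hmin))

/-! ### the number `k (σ - 1)` -/

lemma dec_one (m : List ℕ) (k : ℕ) (hm : ∀ j ∈ m, 2 ≤ j) (hd : ∀ j ∈ m, j ∣ k) (hk : 1 ≤ k)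
    (hs : 1 < sig m) : 1 ≤ (k : ℝ) * (sig m - 1) := by
  obtain ⟨z, hz⟩ := DEC_int m k hm hd
  have h1 : (0 : ℝ) < (k : ℝ) * (sig m - 1) := by
    have : (0 : ℝ) < k := by exact_mod_cast hk
    have h2 : 0 < sig m - 1 := by linarith
    positivity
  have h2 : (k : ℝ) * (sig m - 1) = ((z - k : ℤ) : ℝ) := by
    push_cast
    rw [← hz]
    ring
  rw [h2] at h1 ⊢
  have h3 : (0 : ℤ) < z - k := by exact_mod_cast h1
  have h4 : (1 : ℤ) ≤ z - k := h3
  exact_mod_cast h4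

lemma dec_single {F : Type} [Finite F] (f : F → ℕ) (ζ : F) : f ζ ≤ ∑ᶠ ξ, f ξ := by
  classical
  have : Fintype F := Fintype.ofFinite F
  rw [finsum_eq_sum_of_fintype]
  exact Finset.single_le_sum (fun _ _ => Nat.zero_le _) (Finset.mem_univ ζ)

lemma dec_pos {F : Type} [Finite F] (f : F → ℕ) (h : 0 < ∑ᶠ ξ, f ξ) : ∃ ζ, 0 < f ζ := by
  by_contra hc
  push Not at hc
  have h1 : ∀ ζ, f ζ = 0 := fun ζ => Nat.le_zero.1 (hc ζ)
  simp only [h1, finsum_zero] at h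
  exact absurd h (lt_irrefl 0)

theorem t_DEC : M_DEC := by
  intro hD hSMP hHNF hSTR m hm hs
  have hne : m ≠ [] := by
    rintro rfl
    simp [sig] at hs
    linarith
  obtain ⟨a0, ha0⟩ := List.exists_mem_of_ne_nil m hne
  obtain ⟨j0, hj0⟩ := List.get_of_mem ha0
  have hsum : ∀ j ∈ m, j ≤ m.sum := fun j hj => List.single_le_sum (by simp) j hj
  have hms : (0 : ℝ) < (m.sum : ℝ) := by
    have h1 := hm a0 ha0
    have h2 := hsum a0 ha0
    have : 0 < m.sum := by omega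
    exact_mod_cast this
  have hs0 : 0 < sig m - 1 := by linarith
  refine ⟨min (1 / 2) ((sig m - 1) ^ 2 / (4 * m.sum)), by positivity, ?_⟩
  intro F V _ _ _ _ _ hq x y hx hW
  have hFq : (1 : ℝ) < (Nat.card F : ℝ) := by exact_mod_cast Finite.one_lt_card (α := F)
  have hF1 : (1 : ℝ) ≤ (Nat.card F : ℝ) := hFq.le
  have hF0 : (0 : ℝ) ≤ (Nat.card F : ℝ) := by linarith
  obtain ⟨W, hWi, hWb, hWt, hsim⟩ := dec_min x y hW
  set k := Module.finrank F W with hk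
  set l := Module.finrank F (V ⧸ W) with hl
  set n := Module.finrank F V with hn
  have hkl : l + k = n := Submodule.finrank_quotient_add_finrank W
  have hk1 : 1 ≤ k := by
    rw [hk, Nat.one_le_iff_ne_zero]
    intro h0
    exact hWb (Submodule.finrank_eq_zero.1 h0)
  have hk0 : (0 : ℝ) < k := by exact_mod_cast hk1
  have hl0 : (0 : ℝ) ≤ l := by positivity
  obtain ⟨h1, h2⟩ := hSMP F W (V ⧸ W) m.length (sb x W hWi.1) (y.restrict hWi.2) (qt x W hWi.1)
    (W.mapQ W y hWi.2) hsim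
  have hsbx : ∀ j, sb x W hWi.1 j ^ m.get j = 1 := by
    intro j
    ext w
    have h3 : ∀ r : ℕ, ((((sb x W hWi.1 j) ^ r) w : W) : V) = ((x j) ^ r) (w : V) := by
      intro r
      induction r with
      | zero => simp
      | succ r ih => rw [pow_succ', pow_succ', Module.End.mul_apply, Module.End.mul_apply, ← ih]; rfl
    rw [h3, hx j]
    rfl
  have hg2 : ∀ j : Fin m.length, 2 ≤ m.get j := fun j => hm _ (List.get_mem m j)
  have hgq : ∀ j : Fin m.length, m.get j ∣ Nat.card F - 1 := fun j => hq _ (List.get_mem m j)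
  have hs1 : ∀ j, ∑ᶠ ζ : F, ev (x j) ζ = n := fun j =>
    DEC_sum_ev hD F V (m.get j) (by have := hg2 j; omega) (hgq j) (x j) (hx j)
  have hs2 : ∀ j, ∑ᶠ ζ : F, ev (sb x W hWi.1 j) ζ = k := fun j =>
    DEC_sum_ev hD F W (m.get j) (by have := hg2 j; omega) (hgq j) _ (hsbx j)
  by_cases hA : 2 ≤ (sig m - 1) * k
  · -- case (1)
    refine Or.inr ⟨W, hWi, hWb, hWt, ?_⟩
    have h4 : (Nat.card (Hn (sb x W hWi.1) (y.restrict hWi.2) (qt x W hWi.1)
        (W.mapQ W y hWi.2)) : ℝ) ≤ (Nat.card F : ℝ) ^ (l : ℝ) := by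
      rw [Real.rpow_natCast]
      exact_mod_cast h1
    refine h4.trans (Real.rpow_le_rpow_of_exponent_le hF1 ?_)
    nlinarith
  by_cases hC : ∀ j ζ, n * ev (sb x W hWi.1 j) ζ ≤ k * ev (x j) ζ
  swap
  · -- the case of `S_HNF`
    right
    push Not at hC
    obtain ⟨j, ζ, hζ⟩ := hC
    obtain ⟨W', h', hb', ht', hf⟩ := hHNF F V m.length x y j (m.get j)
      (by have := hg2 j; omega) (hgq j) (hx j) ζ W hWi (by
        rw [mul_comm, mul_comm (ev (sb x W hWi.1 j) ζ)]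
        exact hζ)
    refine ⟨W', h', hb', ht', ?_⟩
    have hsub : Subsingleton (Hn (sb x W' h'.1) (y.restrict h'.2) (qt x W' h'.1)
        (W'.mapQ W' y h'.2)) :=
      ⟨fun f g => Subtype.ext ((hf f).trans (hf g).symm)⟩
    have hc : (Nat.card (Hn (sb x W' h'.1) (y.restrict h'.2) (qt x W' h'.1)
        (W'.mapQ W' y h'.2)) : ℝ) ≤ 1 := by
      exact_mod_cast Finite.card_le_one_iff_subsingleton.2 hsub
    refine hc.trans (Real.one_le_rpow hF1 ?_)
    positivity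
  have heq : ∀ j ζ, n * ev (sb x W hWi.1 j) ζ = k * ev (x j) ζ := fun j =>
    DEC_sum_eq (fun ζ => n * ev (sb x W hWi.1 j) ζ) (fun ζ => k * ev (x j) ζ)
      (by rw [DEC_mul, DEC_mul, hs1, hs2, mul_comm]) (hC j)
  by_cases hB : ∀ j ∈ m, j ∣ k
  · -- case (3)
    have hk2 : 2 ≤ k := (hm a0 ha0).trans (Nat.le_of_dvd (by omega) (hB a0 ha0))
    have h6 := dec_one m k hm hB hk1 hs
    by_cases hE : ∃ ζ, ev (sb x W hWi.1 j0) ζ = k
    · left
      obtain ⟨ζ, hζ⟩ := hE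
      refine ⟨j0, ?_⟩
      have h7 : ev (x j0) ζ = n := by
        have h8 := heq j0 ζ
        rw [hζ, mul_comm] at h8
        exact (Nat.eq_of_mul_eq_mul_left (by omega) h8).symm
      have h8 : n ^ 2 ≤ FL0.sq (x j0) := by
        unfold FL0.sq
        have h9 := dec_single (fun ξ => ev (x j0) ξ ^ 2) ζ
        simp only [h7] at h9
        exact h9
      have h9 : (n : ℝ) ^ 2 ≤ FL0.sq (x j0) := by exact_mod_cast h8
      have h10 : (n : ℝ) ^ 2 / (m.get j0 : ℕ) ≤ (n : ℝ) ^ 2 / 2 := by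
        apply div_le_div_of_nonneg_left (by positivity) (by norm_num)
        exact_mod_cast hg2 j0
      have h11 : min (1 / 2) ((sig m - 1) ^ 2 / (4 * m.sum)) * (n : ℝ) ^ 2 ≤
          1 / 2 * (n : ℝ) ^ 2 := mul_le_mul_of_nonneg_right (min_le_left _ _) (by positivity)
      linarith
    · push Not at hE
      obtain ⟨ζ, hζ⟩ := dec_pos (fun ζ => ev (sb x W hWi.1 j0) ζ) (by rw [hs2]; omega)
      have hle := dec_single (fun ζ => ev (sb x W hWi.1 j0) ζ) ζ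
      rw [hs2] at hle
      have hlt : ev (sb x W hWi.1 j0) ζ < k := lt_of_le_of_ne hle (hE ζ)
      have h5 := h2 ⟨j0, ζ, hζ, hlt⟩
      refine Or.inr ⟨W, hWi, hWb, hWt, ?_⟩
      have h7 : (Nat.card (Hn (sb x W hWi.1) (y.restrict hWi.2) (qt x W hWi.1)
          (W.mapQ W y hWi.2)) : ℝ) ≤ (Nat.card F : ℝ) ^ ((l : ℝ) / 2) := by
        have h8 : ((Nat.card (Hn (sb x W hWi.1) (y.restrict hWi.2) (qt x W hWi.1)
            (W.mapQ W y hWi.2)) : ℝ)) ^ 2 ≤ ((Nat.card F : ℝ) ^ ((l : ℝ) / 2)) ^ 2 := by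
          rw [← Real.rpow_natCast ((Nat.card F : ℝ) ^ ((l : ℝ) / 2)) 2, ← Real.rpow_mul hF0]
          have h9 : (l : ℝ) / 2 * ((2 : ℕ) : ℝ) = l := by push_cast; ring
          rw [h9, Real.rpow_natCast]
          exact_mod_cast h5
        exact le_of_sq_le_sq h8 (by positivity)
      refine h7.trans (Real.rpow_le_rpow_of_exponent_le hF1 ?_)
      nlinarith
  -- case (2)
  push Not at hB hA
  obtain ⟨mj, hmj, hmk⟩ := hB
  obtain ⟨j, hj⟩ := List.get_of_mem hmj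
  have hmj2 := hm mj hmj
  have hmq := hq mj hmj
  have haj : sb x W hWi.1 j ^ mj = 1 := by rw [← hj]; exact hsbx j
  left
  refine ⟨j, ?_⟩
  have hsq : n ^ 2 * FL0.sq (sb x W hWi.1 j) = k ^ 2 * FL0.sq (x j) := by
    unfold FL0.sq
    rw [← DEC_mul, ← DEC_mul]
    refine finsum_congr fun ζ => ?_
    have := heq j ζ
    rw [← mul_pow, ← mul_pow, this]
  have h10 := hSTR F W mj (by omega) hmq (sb x W hWi.1 j) haj (by rw [← hk]; exact hmk)
  rw [← hk] at h10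
  have h11 : (n : ℝ) ^ 2 * FL0.sq (sb x W hWi.1 j) = (k : ℝ) ^ 2 * FL0.sq (x j) := by exact_mod_cast hsq
  have h12 : (k : ℝ) ^ 2 + 1 ≤ mj * FL0.sq (sb x W hWi.1 j) := by exact_mod_cast h10
  have hmj0 : (0 : ℝ) < mj := by positivity
  have hmle : (mj : ℝ) ≤ m.sum := by exact_mod_cast hsum mj hmj
  have hjj : ((m.get j : ℕ) : ℝ) = mj := by rw [hj]
  rw [hjj]
  -- n^2/(k^2 mj) ≤ sq - n^2/mj
  have h13 : (n : ℝ) ^ 2 / ((k : ℝ) ^ 2 * mj) ≤ FL0.sq (x j) - (n : ℝ) ^ 2 / mj := by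
    have h14 : (FL0.sq (x j) : ℝ) = (n : ℝ) ^ 2 * FL0.sq (sb x W hWi.1 j) / (k : ℝ) ^ 2 := by
      rw [h11]
      field_simp
    rw [h14]
    have h15 : (n : ℝ) ^ 2 * FL0.sq (sb x W hWi.1 j) / (k : ℝ) ^ 2 - (n : ℝ) ^ 2 / mj -
        (n : ℝ) ^ 2 / ((k : ℝ) ^ 2 * mj) =
        (n : ℝ) ^ 2 * (mj * FL0.sq (sb x W hWi.1 j) - (k : ℝ) ^ 2 - 1) / ((k : ℝ) ^ 2 * mj) := by
      field_simp
    have h16 : 0 ≤ (n : ℝ) ^ 2 * (mj * FL0.sq (sb x W hWi.1 j) - (k : ℝ) ^ 2 - 1) /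
        ((k : ℝ) ^ 2 * mj) := by
      apply div_nonneg
      · apply mul_nonneg (by positivity)
        linarith
      · positivity
    linarith
  refine le_trans ?_ h13
  refine le_trans (mul_le_mul_of_nonneg_right (min_le_right _ _) (by positivity)) ?_
  rw [div_mul_eq_mul_div, div_le_div_iff₀ (by positivity) (by positivity)]
  have h17 : ((sig m - 1) * k) ^ 2 ≤ 4 := by
    have h18 : 0 ≤ (sig m - 1) * k := by positivity
    nlinarith
  calc (sig m - 1) ^ 2 * (n : ℝ) ^ 2 * ((k : ℝ) ^ 2 * mj)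
      = ((sig m - 1) * k) ^ 2 * ((n : ℝ) ^ 2 * mj) := by ring
    _ ≤ 4 * ((n : ℝ) ^ 2 * m.sum) := by
        apply mul_le_mul h17 _ (by positivity) (by norm_num)
        exact mul_le_mul_of_nonneg_left hmle (by positivity)
    _ = (n : ℝ) ^ 2 * (4 * m.sum) := by ring

end

end FLN
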