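import Mathlib
import Pool.Agent.FLN.StN
import Pool.Agent.FL0.FIII
import Pool.Agent.RSF.B
import Pool.Agent.RSF.E

/-!
# Module `FIII` for non-oriented groups of genus 1: subgroups of large index
-/

set_option autoImplicit false

open RSF

namespace FLN

open FL0

/-- the pairs (tuple, element) with product relation in a conjugate of `M` -/
theorem fiii_card_conj {G : Type} [Group G] [Finite G] (M : Subgroup G) (e : ℕ) :
    Nat.card {t : (Fin (e + 1) → G) × G // (List.ofFn t.1).prod * t.2 ^ 2 = 1 ∧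
        ∃ g : G, (∀ j, g⁻¹ * t.1 j * g ∈ M) ∧ g⁻¹ * t.2 * g ∈ M} ≤
      M.index * Nat.card M ^ (e + 1) := by
  classical
  have cj : ∀ (g x : G), g⁻¹ * x * g ∈ M →
      (Quotient.out (g : G ⧸ M))⁻¹ * x * (Quotient.out (g : G ⧸ M)) ∈ M := by
    intro g x hx
    obtain ⟨h, hh⟩ := QuotientGroup.mk_out_eq_mul M g
    rw [hh]
    have h1 : (g * (h : G))⁻¹ * x * (g * (h : G)) = (h : G)⁻¹ * (g⁻¹ * x * g) * (h : G) := by
      group
    rw [h1]
    exact M.mul_mem (M.mul_mem (M.inv_mem h.2) hx) h.2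
  have key : ∀ t : {t : (Fin (e + 1) → G) × G // (List.ofFn t.1).prod * t.2 ^ 2 = 1 ∧
        ∃ g : G, (∀ j, g⁻¹ * t.1 j * g ∈ M) ∧ g⁻¹ * t.2 * g ∈ M},
      ∃ c : G ⧸ M, (∀ j, c.out⁻¹ * t.1.1 j * c.out ∈ M) ∧ c.out⁻¹ * t.1.2 * c.out ∈ M := by
    rintro ⟨t, ht, g, hg, hg2⟩
    exact ⟨(g : G ⧸ M), fun j => cj g _ (hg j), cj g _ hg2⟩
  choose c hc using key
  have h1 : Nat.card {t : (Fin (e + 1) → G) × G // (List.ofFn t.1).prod * t.2 ^ 2 = 1 ∧
        ∃ g : G, (∀ j, g⁻¹ * t.1 j * g ∈ M) ∧ g⁻¹ * t.2 * g ∈ M} ≤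
      Nat.card ((G ⧸ M) × ((Fin e → M) × M)) := by
    refine Nat.card_le_card_of_injective
      (fun t => (c t, (fun j => (⟨(c t).out⁻¹ * t.1.1 j.succ * (c t).out, (hc t).1 j.succ⟩ : M)),
        ⟨(c t).out⁻¹ * t.1.2 * (c t).out, (hc t).2⟩)) ?_
    intro t t' h
    simp only [Prod.mk.injEq] at h
    obtain ⟨h2, h3, h3'⟩ := h
    have h6 : ∀ j : Fin e, t.1.1 j.succ = t'.1.1 j.succ := by
      intro j
      have h4 := congrArg Subtype.val (congrFun h3 j)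
      simp only at h4
      rw [h2] at h4
      have h5 := mul_right_cancel h4
      exact mul_left_cancel h5
    have h6' : t.1.2 = t'.1.2 := by
      have h4 := congrArg Subtype.val h3'
      simp only at h4
      rw [h2] at h4
      have h5 := mul_right_cancel h4
      exact mul_left_cancel h5
    have h7 := t.2.1
    have h8 := t'.2.1
    rw [List.ofFn_succ, List.prod_cons] at h7 h8
    have h9 : (fun i : Fin e => t.1.1 i.succ) = fun i : Fin e => t'.1.1 i.succ := funext h6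
    rw [h9, h6', mul_assoc] at h7
    rw [mul_assoc] at h8
    have h10 : t.1.1 0 = t'.1.1 0 := mul_right_cancel (h7.trans h8.symm)
    apply Subtype.ext
    refine Prod.ext ?_ h6'
    funext j
    refine Fin.cases h10 h6 j
  refine h1.trans (le_of_eq ?_)
  rw [Nat.card_prod, Nat.card_prod, Nat.card_fun, Nat.card_fin, Subgroup.index, pow_succ]

/-- one subgroup -/
theorem fiii_one_sub {G : Type} [Group G] [Finite G] (M : Subgroup G) (e : ℕ) (Q Y : ℝ)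
    (hQ : 0 < Q) (hQM : Q ≤ M.index) (hY : (Nat.card G : ℝ) ≤ Y) :
    (Nat.card {t : (Fin (e + 1) → G) × G // (List.ofFn t.1).prod * t.2 ^ 2 = 1 ∧
        ∃ g : G, (∀ j, g⁻¹ * t.1 j * g ∈ M) ∧ g⁻¹ * t.2 * g ∈ M} : ℝ) ≤
      Y ^ (e + 1) / Q ^ e := by
  have h4 : (Nat.card {t : (Fin (e + 1) → G) × G // (List.ofFn t.1).prod * t.2 ^ 2 = 1 ∧
        ∃ g : G, (∀ j, g⁻¹ * t.1 j * g ∈ M) ∧ g⁻¹ * t.2 * g ∈ M} : ℝ) ≤
      M.index * (Nat.card M : ℝ) ^ (e + 1) := by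
    exact_mod_cast fiii_card_conj M e
  have hG : (0 : ℝ) < Nat.card G := by exact_mod_cast Nat.card_pos
  have h5 : (M.index : ℝ) * Nat.card M = Nat.card G := by
    have := M.card_mul_index
    rw [mul_comm] at this
    exact_mod_cast this
  have h6 : (Nat.card M : ℝ) * Q ≤ Nat.card G := by
    rw [← h5, mul_comm]
    exact mul_le_mul_of_nonneg_right hQM (Nat.cast_nonneg _)
  refine h4.trans ?_
  rw [le_div_iff₀ (pow_pos hQ _), pow_succ]
  calc (M.index : ℝ) * ((Nat.card M : ℝ) ^ e * Nat.card M) * Q ^ e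
      = ((M.index : ℝ) * Nat.card M) * ((Nat.card M : ℝ) * Q) ^ e := by
        rw [mul_pow]; ring
    _ ≤ (Nat.card G : ℝ) * (Nat.card G : ℝ) ^ e := by
        rw [h5]
        exact mul_le_mul_of_nonneg_left (pow_le_pow_left₀ (by positivity) h6 e) hG.le
    _ = (Nat.card G : ℝ) ^ (e + 1) := by ring
    _ ≤ Y ^ (e + 1) := pow_le_pow_left₀ hG.le hY _

/-- at least two periods -/
theorem fiii_len (m : List ℕ) (hm : ∀ k ∈ m, 2 ≤ k) (hs : 1 < sig m) : 2 ≤ m.length := by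
  have h1 : ∀ l : List ℕ, (∀ k ∈ l, 2 ≤ k) → sig l ≤ l.length := by
    intro l
    induction l with
    | nil =>
      intro _
      simp [sig]
    | cons k l ih =>
      intro h
      have h2 := ih (fun x hx => h x (List.mem_cons_of_mem _ hx))
      have h3 : sig (k :: l) = (1 - 1 / (k : ℝ)) + sig l := by
        simp [sig]
      rw [h3, List.length_cons]
      push_cast
      have : 0 ≤ 1 / (k : ℝ) := by positivity
      linarith
  have h2 := h1 m hm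
  have h3 : (1 : ℝ) < m.length := lt_of_lt_of_le hs h2
  have h4 : 1 < m.length := by exact_mod_cast h3
  omega

theorem t_FIII : M_FIII := by
  intro hHO hLOW m hm hs θ hθ
  have hd := fiii_len m hm hs
  obtain ⟨e, he⟩ : ∃ e, m.length = e + 1 := ⟨m.length - 1, by omega⟩
  obtain ⟨C, r0, hC, hL⟩ := hLOW m hm hs
  obtain ⟨η, hη⟩ : ∃ η : ℝ, η = (θ * (m.length - 1) - (m.length - sig m)) / 3 := ⟨_, rfl⟩
  have hη0 : 0 < η := by rw [hη]; linarith
  obtain ⟨r1, hr1⟩ := exists_nat_ge ((C + 1) / (2 * η))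
  refine ⟨η, max r0 (max r1 1), hη0, fun n hn F _ _ hF1 hF2 S hS hM => ?_⟩
  have hn0 : r0 ≤ n := (le_max_left _ _).trans hn
  have hn1 : r1 ≤ n := (le_max_left _ _).trans ((le_max_right _ _).trans hn)
  have hn2 : 1 ≤ n := (le_max_right _ _).trans ((le_max_right _ _).trans hn)
  have hfin : Finite (PS n F) := RSF.B.fin_ps n F
  have hlow := hL n hn0 F hF1 hF2
  obtain ⟨q, hq⟩ : ∃ q : ℝ, q = Nat.card F := ⟨_, rfl⟩
  have hPS := FL0.FIII.card_PS_le n F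
  rw [← hq] at hS hM hlow hPS ⊢
  have hq1 : 1 < q := by
    rw [hq]
    exact_mod_cast Finite.one_lt_card
  have hq0 : 0 < q := by linarith
  -- the numerator
  have hnum : (Nat.card {ρ : NGroup 1 m →* PS n F // ∃ M ∈ S, InConj ρ.range M} : ℝ) ≤
      q ^ (η * (n : ℝ) ^ 2) * ((q ^ ((n : ℝ) ^ 2)) ^ (e + 1) / (q ^ (θ * (n : ℝ) ^ 2)) ^ e) := by
    have h1 : Nat.card {ρ : NGroup 1 m →* PS n F // ∃ M ∈ S, InConj ρ.range M} ≤
        Nat.card {ρ : NGroup 1 m →* PS n F //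
          (fun (t : Fin m.length → PS n F) (b : PS n F) => ∃ M ∈ S, ∃ g : PS n F,
            (∀ j, g⁻¹ * t j * g ∈ M) ∧ g⁻¹ * b * g ∈ M) (fun j => ρ (nx 1 m j)) (ρ (n1 m))} := by
      have hfinhom : Finite (NGroup 1 m →* PS n F) := RSF.E.finite_nhom 1 m (PS n F)
      refine Nat.card_le_card_of_injective (fun ρ => ⟨ρ.1, ?_⟩) ?_
      · obtain ⟨M, hMS, g, hg⟩ := ρ.2
        exact ⟨M, hMS, g, fun j => hg _ ⟨_, rfl⟩, hg _ ⟨_, rfl⟩⟩
      · intro ρ ρ' h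
        simp only [Subtype.mk.injEq] at h
        exact Subtype.ext h
    have hc := hHO (PS n F) m (fun t b => ∃ M ∈ S, ∃ g : PS n F,
      (∀ j, g⁻¹ * t j * g ∈ M) ∧ g⁻¹ * b * g ∈ M)
    have h2 : Nat.card {t : (Fin m.length → PS n F) × PS n F // (∀ j, t.1 j ^ m.get j = 1) ∧
        (∃ M ∈ S, ∃ g : PS n F, (∀ j, g⁻¹ * t.1 j * g ∈ M) ∧ g⁻¹ * t.2 * g ∈ M) ∧
          (List.ofFn t.1).prod * t.2 ^ 2 = 1} ≤
        Nat.card {t : (Fin m.length → PS n F) × PS n F // ∃ M ∈ S,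
          (List.ofFn t.1).prod * t.2 ^ 2 = 1 ∧
            ∃ g : PS n F, (∀ j, g⁻¹ * t.1 j * g ∈ M) ∧ g⁻¹ * t.2 * g ∈ M} := by
      refine Nat.card_le_card_of_injective (fun t => ⟨t.1, ?_⟩) ?_
      · obtain ⟨_, ⟨M, hMS, hg⟩, hp⟩ := t.2
        exact ⟨M, hMS, hp, hg⟩
      · intro t t' h
        simp only [Subtype.mk.injEq] at h
        exact Subtype.ext h
    have h3 := FL0.FIII.card_un S
      (fun (M : Subgroup (PS n F)) (t : (Fin m.length → PS n F) × PS n F) =>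
        (List.ofFn t.1).prod * t.2 ^ 2 = 1 ∧
          ∃ g : PS n F, (∀ j, g⁻¹ * t.1 j * g ∈ M) ∧ g⁻¹ * t.2 * g ∈ M)
      ((q ^ ((n : ℝ) ^ 2)) ^ (e + 1) / (q ^ (θ * (n : ℝ) ^ 2)) ^ e) (by
        rw [he]
        intro M hMS
        exact fiii_one_sub M e _ _ (Real.rpow_pos_of_pos hq0 _) (hM M hMS) hPS)
    have h4 : (Nat.card {ρ : NGroup 1 m →* PS n F // ∃ M ∈ S, InConj ρ.range M} : ℝ) ≤
        Nat.card {t : (Fin m.length → PS n F) × PS n F // ∃ M ∈ S,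
          (List.ofFn t.1).prod * t.2 ^ 2 = 1 ∧
            ∃ g : PS n F, (∀ j, g⁻¹ * t.1 j * g ∈ M) ∧ g⁻¹ * t.2 * g ∈ M} := by
      exact_mod_cast (h1.trans (le_of_eq hc)).trans h2
    refine h4.trans (h3.trans ?_)
    exact mul_le_mul_of_nonneg_right hS (by positivity)
  -- the exponents
  have hexp : q ^ (η * (n : ℝ) ^ 2) *
      ((q ^ ((n : ℝ) ^ 2)) ^ (e + 1) / (q ^ (θ * (n : ℝ) ^ 2)) ^ e) =
      q ^ (η * (n : ℝ) ^ 2 + ((n : ℝ) ^ 2 * (e + 1) - θ * (n : ℝ) ^ 2 * e)) := by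
    obtain ⟨N2, hN2⟩ : ∃ N2 : ℝ, N2 = (n : ℝ) ^ 2 := ⟨_, rfl⟩
    rw [← hN2]
    have a1 : (q ^ N2) ^ (e + 1) = q ^ (N2 * (e + 1)) := by
      rw [← Real.rpow_natCast, ← Real.rpow_mul hq0.le]
      push_cast
      rfl
    have a2 : (q ^ (θ * N2)) ^ e = q ^ (θ * N2 * e) := by
      rw [← Real.rpow_natCast, ← Real.rpow_mul hq0.le]
    rw [a1, a2, ← Real.rpow_sub hq0, ← Real.rpow_add hq0]
  rw [hexp] at hnum
  unfold prob
  have hden : 0 < q ^ (sig m * (n : ℝ) ^ 2 - C) := Real.rpow_pos_of_pos hq0 _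
  have hfrac := div_le_div₀ (Real.rpow_nonneg hq0.le _) hnum hden hlow
  refine hfrac.trans ?_
  rw [← Real.rpow_sub hq0]
  apply Real.rpow_le_rpow_of_exponent_le hq1.le
  have hle : (m.length : ℝ) = e + 1 := by rw [he]; push_cast; ring
  rw [hle] at hη
  have hnr : (1 : ℝ) ≤ n := by exact_mod_cast hn2
  have hnr1 : (C + 1) / (2 * η) ≤ n := hr1.trans (by exact_mod_cast hn1)
  rw [div_le_iff₀ (by positivity)] at hnr1
  have e1 : η * (n : ℝ) ^ 2 + ((n : ℝ) ^ 2 * (e + 1) - θ * (n : ℝ) ^ 2 * e) -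
      (sig m * (n : ℝ) ^ 2 - C) = C - 2 * η * (n : ℝ) ^ 2 := by
    have h3 : 3 * η = θ * (e + 1 - 1) - (e + 1 - sig m) := by rw [hη]; ring
    linear_combination ((n : ℝ) ^ 2) * h3
  rw [e1]
  have e2 : (C + 1) * n ≤ n * (2 * η) * n := mul_le_mul_of_nonneg_right hnr1 (by linarith)
  have e3 : C ≤ C * n := le_mul_of_one_le_right hC hnr
  have e4 : (n : ℝ) * (2 * η) * n = 2 * η * (n : ℝ) ^ 2 := by ring
  linarith

end FLN
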