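import Mathlib
import Pool.Agent.FLN.StN

/-!
# Module `FSI`: sums of `X (b ^ 2)` over a subgroup

The average `P` of `M ↦ A M Aᵀ`, `A = ρ b`, on the space of matrices is a projection that commutes with the
transposition; the trace of `P` is the average of `X(b)²` and the trace of `P` composed with the
transposition is the average of `X (b²)`.
-/

set_option autoImplicit false

namespace FLN

open Pool.Agent.Lib_helper13 Matrix

section op

variable {n : ℕ}

/-- `M ↦ A M Aᵀ` -/
noncomputable def fsiR (A : Matrix (Fin n) (Fin n) ℂ) : Module.End ℂ (Matrix (Fin n) (Fin n) ℂ) where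
  toFun M := A * M * Aᵀ
  map_add' M N := by rw [mul_add, add_mul]
  map_smul' c M := by simp

/-- transposition -/
noncomputable def fsiT : Module.End ℂ (Matrix (Fin n) (Fin n) ℂ) where
  toFun M := Mᵀ
  map_add' M N := by rw [transpose_add]
  map_smul' c M := by simp

theorem fsiR_apply (A M : Matrix (Fin n) (Fin n) ℂ) : fsiR A M = A * M * Aᵀ := rfl

theorem fsiT_apply (M : Matrix (Fin n) (Fin n) ℂ) : fsiT M = Mᵀ := rfl

theorem fsiR_mul (A B : Matrix (Fin n) (Fin n) ℂ) : fsiR (A * B) = fsiR A * fsiR B := by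
  apply LinearMap.ext
  intro M
  rw [Module.End.mul_apply, fsiR_apply, fsiR_apply, fsiR_apply, transpose_mul]
  simp only [Matrix.mul_assoc]

theorem fsiT_sq : (fsiT : Module.End ℂ (Matrix (Fin n) (Fin n) ℂ)) * fsiT = 1 := by
  apply LinearMap.ext
  intro M
  rw [Module.End.mul_apply, fsiT_apply, fsiT_apply, transpose_transpose]
  rfl

theorem fsi_comm (A : Matrix (Fin n) (Fin n) ℂ) : fsiT * fsiR A = fsiR A * fsiT := by
  apply LinearMap.ext
  intro M
  rw [Module.End.mul_apply, Module.End.mul_apply, fsiT_apply, fsiR_apply, fsiR_apply, fsiT_apply,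
    transpose_mul, transpose_mul, transpose_transpose, Matrix.mul_assoc]

theorem fsi_trace (f : Module.End ℂ (Matrix (Fin n) (Fin n) ℂ)) :
    LinearMap.trace ℂ _ f = ∑ i, ∑ j, f (Matrix.single i j 1) i j := by
  rw [LinearMap.trace_eq_matrix_trace ℂ (Matrix.stdBasis ℂ (Fin n) (Fin n)), Matrix.trace,
    Fintype.sum_prod_type]
  refine Finset.sum_congr rfl fun i _ => Finset.sum_congr rfl fun j _ => ?_
  rw [Matrix.diag_apply, LinearMap.toMatrix_apply, Matrix.stdBasis_eq_single]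
  rfl

theorem fsi_trR (A : Matrix (Fin n) (Fin n) ℂ) :
    LinearMap.trace ℂ _ (fsiR A) = A.trace ^ 2 := by
  rw [fsi_trace, pow_two, Matrix.trace, Finset.sum_mul_sum]
  refine Finset.sum_congr rfl fun i _ => Finset.sum_congr rfl fun j _ => ?_
  rw [fsiR_apply]
  simp [Matrix.mul_apply, Matrix.single_apply, Matrix.diag_apply, ite_and]

theorem fsi_trRT (A : Matrix (Fin n) (Fin n) ℂ) :
    LinearMap.trace ℂ _ (fsiR A * fsiT) = (A * A).trace := by
  rw [fsi_trace, Matrix.trace]
  refine Finset.sum_congr rfl fun i _ => ?_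
  rw [Matrix.diag_apply, Matrix.mul_apply]
  refine Finset.sum_congr rfl fun j _ => ?_
  rw [Module.End.mul_apply, fsiR_apply, fsiT_apply]
  simp [Matrix.mul_apply, Matrix.single_apply, ite_and]


/-- the trace of an idempotent is a natural number -/
theorem fsi_idem {V : Type} [AddCommGroup V] [Module ℂ V] [FiniteDimensional ℂ V]
    (P : Module.End ℂ V) (h : P * P = P) : ∃ k : ℕ, LinearMap.trace ℂ V P = k :=
  ⟨_, (LinearMap.IsIdempotentElem.isProj_range P h).trace⟩

/-- the key inequality -/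
theorem fsi_key {V : Type} [AddCommGroup V] [Module ℂ V] [FiniteDimensional ℂ V]
    (P T : Module.End ℂ V) (hP : P * P = P) (hT : T * T = 1) (hc : T * P = P * T) :
    ‖LinearMap.trace ℂ V (P * T)‖ ≤ (LinearMap.trace ℂ V P).re := by
  have hPT : P * T * (P * T) = P := by
    calc P * T * (P * T) = P * (T * P) * T := by noncomm_ring
      _ = P * P * (T * T) := by rw [hc]; noncomm_ring
      _ = P := by rw [hP, hT, mul_one]
  have hPPT : P * (P * T) = P * T := by rw [← mul_assoc, hP]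
  have hPTP : P * T * P = P * T := by rw [mul_assoc, hc, ← mul_assoc, hP]
  have h1 : ((1 / 2 : ℂ) • (P + P * T)) * ((1 / 2 : ℂ) • (P + P * T)) =
      (1 / 2 : ℂ) • (P + P * T) := by
    rw [smul_mul_smul_comm, add_mul, mul_add, mul_add, hP, hPPT, hPTP, hPT]
    rw [show P + P * T + (P * T + P) = (2 : ℂ) • (P + P * T) by rw [two_smul]; abel, smul_smul]
    norm_num
  have h2 : ((1 / 2 : ℂ) • (P - P * T)) * ((1 / 2 : ℂ) • (P - P * T)) =
      (1 / 2 : ℂ) • (P - P * T) := by
    rw [smul_mul_smul_comm, sub_mul, mul_sub, mul_sub, hP, hPPT, hPTP, hPT]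
    rw [show P - P * T - (P * T - P) = (2 : ℂ) • (P - P * T) by rw [two_smul]; abel, smul_smul]
    norm_num
  obtain ⟨k, hk⟩ := fsi_idem _ h1
  obtain ⟨l, hl⟩ := fsi_idem _ h2
  rw [map_smul, map_add, smul_eq_mul] at hk
  rw [map_smul, map_sub, smul_eq_mul] at hl
  have e1 : LinearMap.trace ℂ V P = ((k + l : ℕ) : ℂ) := by
    push_cast
    linear_combination hk + hl
  have e2 : LinearMap.trace ℂ V (P * T) = (((k : ℝ) - l : ℝ) : ℂ) := by
    push_cast
    linear_combination hk - hl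
  rw [e1, e2, Complex.norm_real, Complex.natCast_re, Real.norm_eq_abs]
  push_cast
  have hk0 : (0 : ℝ) ≤ k := Nat.cast_nonneg _
  have hl0 : (0 : ℝ) ≤ l := Nat.cast_nonneg _
  rw [abs_le]
  constructor <;> linarith

end op

/-- the first claim -/
theorem fsi_first (G : Type) [Group G] [Fintype G] (X : G → ℂ) (H : Subgroup G) (hX : IsChr X) :
    ‖∑ᶠ b : H, X ((b : G) ^ 2)‖ ≤ ∑ᶠ b : H, ‖X (b : G)‖ ^ 2 := by
  classical
  obtain ⟨n, ρ, rfl⟩ := hX
  have : Fintype H := Fintype.ofFinite H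
  rw [finsum_eq_sum_of_fintype, finsum_eq_sum_of_fintype]
  obtain ⟨A, hA⟩ : ∃ A : G →* Matrix (Fin n) (Fin n) ℂ, ∀ g, A g = LinearMap.toMatrix' (ρ g) := by
    refine ⟨{ toFun := fun g => LinearMap.toMatrix' (ρ g), map_one' := ?_, map_mul' := ?_ },
      fun _ => rfl⟩
    · rw [map_one]
      exact LinearMap.toMatrix'_one
    · intro g h
      rw [map_mul]
      exact LinearMap.toMatrix'_mul _ _
  have htr : ∀ g, ρ.character g = (A g).trace := by
    intro g
    rw [hA]
    change LinearMap.trace ℂ (Fin n → ℂ) (ρ g) = _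
    rw [LinearMap.trace_eq_matrix_trace ℂ (Pi.basisFun ℂ (Fin n)),
      LinearMap.toMatrix_eq_toMatrix']
  have hH0 : (Fintype.card H : ℂ) ≠ 0 := by exact_mod_cast Fintype.card_ne_zero
  obtain ⟨P, hP⟩ : ∃ P : Module.End ℂ (Matrix (Fin n) (Fin n) ℂ),
      P = (Fintype.card H : ℂ)⁻¹ • ∑ b : H, fsiR (A b) := ⟨_, rfl⟩
  have h1 : ∀ b : H, fsiR (A b) * P = P := by
    intro b
    rw [hP, mul_smul_comm, Finset.mul_sum]
    congr 1
    rw [← Equiv.sum_comp (Equiv.mulLeft b) fun c : H => fsiR (A c)]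
    refine Finset.sum_congr rfl fun c _ => ?_
    rw [← fsiR_mul, ← map_mul]
    rfl
  have hPP : P * P = P := by
    have h0 : P * P = ((Fintype.card H : ℂ)⁻¹ • ∑ b : H, fsiR (A b)) * P := by rw [← hP]
    rw [h0, smul_mul_assoc, Finset.sum_mul]
    have : ∑ b : H, fsiR (A b) * P = (Fintype.card H : ℂ) • P := by
      rw [Finset.sum_congr rfl fun b _ => h1 b, Finset.sum_const, Finset.card_univ,
        Nat.cast_smul_eq_nsmul]
    rw [this, smul_smul, inv_mul_cancel₀ hH0, one_smul]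
  have hc : fsiT * P = P * fsiT := by
    rw [hP, mul_smul_comm, smul_mul_assoc, Finset.mul_sum, Finset.sum_mul]
    congr 1
    exact Finset.sum_congr rfl fun b _ => fsi_comm _
  have key := fsi_key P fsiT hPP fsiT_sq hc
  have t1 : LinearMap.trace ℂ _ (P * fsiT) =
      (Fintype.card H : ℂ)⁻¹ * ∑ b : H, ρ.character ((b : G) ^ 2) := by
    rw [hP, smul_mul_assoc, Finset.sum_mul, map_smul, map_sum, smul_eq_mul]
    congr 1
    refine Finset.sum_congr rfl fun b _ => ?_
    rw [fsi_trRT, htr, pow_two, map_mul]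
  have t2 : LinearMap.trace ℂ _ P =
      (Fintype.card H : ℂ)⁻¹ * ∑ b : H, ρ.character (b : G) ^ 2 := by
    rw [hP, map_smul, map_sum, smul_eq_mul]
    congr 1
    refine Finset.sum_congr rfl fun b _ => ?_
    rw [fsi_trR, htr]
  rw [t1, t2, norm_mul, norm_inv, Complex.norm_natCast] at key
  have hHr : (0 : ℝ) < Fintype.card H := by exact_mod_cast Fintype.card_pos
  have e1 : (((Fintype.card H : ℂ)⁻¹ * ∑ b : H, ρ.character (b : G) ^ 2)).re =
      (Fintype.card H : ℝ)⁻¹ * (∑ b : H, ρ.character (b : G) ^ 2).re := by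
    rw [← Complex.ofReal_natCast, ← Complex.ofReal_inv, Complex.re_ofReal_mul]
  rw [e1] at key
  have key2 := le_of_mul_le_mul_left key (inv_pos.2 hHr)
  refine key2.trans ?_
  rw [Complex.re_sum]
  refine Finset.sum_le_sum fun b _ => ?_
  refine (Complex.re_le_norm _).trans ?_
  rw [norm_pow]

open scoped Matrix ComplexOrder in
/-- values at inverse elements (as in `MDA/C49.lean`) -/
theorem fsi_inv {H : Type} [Group H] [Fintype H] {χ : H → ℂ} (hχ : IsChr χ) (g : H) :
    χ g⁻¹ = starRingEnd ℂ (χ g) := by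
  classical
  obtain ⟨n, ρ, rfl⟩ := hχ
  let M : H → Matrix (Fin n) (Fin n) ℂ := fun h => LinearMap.toMatrix' (ρ h)
  have hM1 : M 1 = 1 := by
    simp only [M, map_one]
    exact LinearMap.toMatrix'_one
  have hMm : ∀ a b, M (a * b) = M a * M b := by
    intro a b
    simp only [M, map_mul]
    exact LinearMap.toMatrix'_mul _ _
  have htr : ∀ h, ρ.character h = (M h).trace := by
    intro h
    change LinearMap.trace ℂ _ (ρ h) = _
    rw [LinearMap.trace_eq_matrix_trace ℂ (Pi.basisFun ℂ (Fin n)),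
      LinearMap.toMatrix_eq_toMatrix']
  obtain ⟨A, hAd⟩ : ∃ A : Matrix (Fin n) (Fin n) ℂ, A = ∑ h, (M h)ᴴ * M h := ⟨_, rfl⟩
  have hA : ∀ a, (M a)ᴴ * A * M a = A := by
    intro a
    rw [hAd, Finset.mul_sum, Finset.sum_mul]
    rw [← Equiv.sum_comp (Equiv.mulRight a) (fun h => (M h)ᴴ * M h)]
    refine Finset.sum_congr rfl fun h _ => ?_
    simp only [Equiv.coe_mulRight]
    rw [hMm, Matrix.conjTranspose_mul]
    simp only [Matrix.mul_assoc]
  have hpd : A.PosDef := by
    rw [hAd, ← Finset.add_sum_erase _ _ (Finset.mem_univ (1 : H)), hM1,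
      Matrix.conjTranspose_one, Matrix.one_mul]
    apply Matrix.PosDef.add_posSemidef Matrix.PosDef.one
    exact Matrix.posSemidef_sum _ fun h _ => Matrix.posSemidef_conjTranspose_mul_self _
  have hdet : IsUnit A.det := (Matrix.isUnit_iff_isUnit_det A).mp hpd.isUnit
  have h1 : (M g)ᴴ * A = A * M g⁻¹ := by
    have h2 : M g * M g⁻¹ = 1 := by rw [← hMm, mul_inv_cancel, hM1]
    calc (M g)ᴴ * A = (M g)ᴴ * A * (M g * M g⁻¹) := by rw [h2, Matrix.mul_one]
      _ = (M g)ᴴ * A * M g * M g⁻¹ := by rw [Matrix.mul_assoc _ (M g)]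
      _ = A * M g⁻¹ := by rw [hA]
  rw [htr, htr, starRingEnd_apply, ← Matrix.trace_conjTranspose]
  calc (M g⁻¹).trace = (M g⁻¹ * (A⁻¹ * A)).trace := by
        rw [Matrix.nonsing_inv_mul A hdet, Matrix.mul_one]
    _ = (A * (M g⁻¹ * A⁻¹)).trace := by
        rw [← Matrix.mul_assoc, Matrix.trace_mul_comm]
    _ = ((M g)ᴴ * A * A⁻¹).trace := by rw [← Matrix.mul_assoc, ← h1]
    _ = ((M g)ᴴ).trace := by
        rw [Matrix.mul_assoc, Matrix.mul_nonsing_inv A hdet, Matrix.mul_one]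

theorem t_FSI : S_FSI := by
  classical
  intro G _ _ X H hX
  refine ⟨fsi_first G X H hX, fun hi => (fsi_first G X H hX).trans ?_⟩
  have : Fintype H := Fintype.ofFinite H
  rw [finsum_eq_sum_of_fintype]
  have h1 : ∑ b : H, ‖X (b : G)‖ ^ 2 ≤ ∑ g : G, ‖X g‖ ^ 2 := by
    have e1 : ∑ b : H, ‖X (b : G)‖ ^ 2 =
        ∑ g ∈ Finset.univ.map (Function.Embedding.subtype fun x => x ∈ H), ‖X g‖ ^ 2 := by
      rw [Finset.sum_map]
      rfl
    rw [e1]
    exact Finset.sum_le_sum_of_subset_of_nonneg (Finset.subset_univ _)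
      fun g _ _ => by positivity
  refine h1.trans (le_of_eq ?_)
  have h2 : ∑ g : G, X g * X g⁻¹ = (Nat.card G : ℂ) := hi.sum_self
  have h3 : ∑ g : G, X g * X g⁻¹ = ((∑ g : G, ‖X g‖ ^ 2 : ℝ) : ℂ) := by
    push_cast
    refine Finset.sum_congr rfl fun g _ => ?_
    rw [fsi_inv hX, Complex.mul_conj, Complex.normSq_eq_norm_sq]
    push_cast
    rfl
  rw [h2] at h3
  exact_mod_cast h3.symm

end FLN
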