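import Pool.Agent.FLN.StN
import Pool.Agent.RSF.H

/-!
# Module `HO`: homomorphisms of the non-oriented groups of genus 1 are tuples
-/

set_option autoImplicit false

open RSF

namespace FLN

/-- the function on the generators of the non-oriented group of genus `1` given by a tuple -/
def ho_g {G : Type} {d : ℕ} (p : (Fin d → G) × G) : NGen 1 d → G
  | NGen.a _ => p.2
  | NGen.x j => p.1 j

/-- the tuple of a homomorphism -/
def ho_t {G : Type} [Group G] {m : List ℕ} (ρ : NGroup 1 m →* G) : (Fin m.length → G) × G :=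
  (fun j => ρ (nx 1 m j), ρ (n1 m))

theorem ho_map {A B : Type} [Group A] [Group B] (f : A →* B) {n : ℕ} (g : Fin n → A) :
    f (List.ofFn g).prod = (List.ofFn fun j => f (g j)).prod := by
  rw [map_list_prod, List.map_ofFn]
  rfl

theorem ho_rel {G : Type} [Group G] {m : List ℕ} (p : (Fin m.length → G) × G)
    (h1 : ∀ j, p.1 j ^ m.get j = 1) (h2 : (List.ofFn p.1).prod * p.2 ^ 2 = 1) :
    ∀ r ∈ NRel 1 m, FreeGroup.lift (ho_g p) r = 1 := by
  rintro r (⟨j, rfl⟩ | rfl)
  · rw [map_pow, FreeGroup.lift_apply_of]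
    exact h1 j
  · rw [map_mul, ho_map, ho_map]
    simp only [List.ofFn_succ, List.ofFn_zero, List.prod_cons, List.prod_nil, mul_one, map_pow,
      FreeGroup.lift_apply_of]
    exact h2

theorem ho_pow {G : Type} [Group G] {m : List ℕ} (ρ : NGroup 1 m →* G) (j : Fin m.length) :
    (ho_t ρ).1 j ^ m.get j = 1 := by
  have h : (PresentedGroup.mk (NRel 1 m)) (FreeGroup.of (NGen.x j) ^ m.get j) = 1 :=
    PresentedGroup.one_of_mem (Or.inl ⟨j, rfl⟩)
  rw [map_pow] at h
  have h' := congrArg ρ h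
  rw [map_pow, map_one] at h'
  exact h'

theorem ho_prod {G : Type} [Group G] {m : List ℕ} (ρ : NGroup 1 m →* G) :
    (List.ofFn (ho_t ρ).1).prod * (ho_t ρ).2 ^ 2 = 1 := by
  have h := PresentedGroup.one_of_mem (rels := NRel 1 m) (Or.inr rfl)
  have h' := congrArg ρ h
  rw [map_one, map_mul, map_mul, ho_map, ho_map, ho_map, ho_map] at h'
  simp only [List.ofFn_succ, List.ofFn_zero, List.prod_cons, List.prod_nil, mul_one,
      map_pow] at h'
  exact h'

theorem t_HO : S_HO := by
  intro G _ m E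
  refine Nat.card_congr
    { toFun := fun ρ => ⟨ho_t ρ.1, ho_pow ρ.1, ρ.2, ho_prod ρ.1⟩
      invFun := fun p => ⟨PresentedGroup.toGroup (ho_rel p.1 p.2.1 p.2.2.2), ?_⟩
      left_inv := ?_
      right_inv := ?_ }
  · have h : (fun j => PresentedGroup.toGroup (ho_rel p.1 p.2.1 p.2.2.2) (nx 1 m j)) = p.1.1 := by
      funext j
      exact PresentedGroup.toGroup.of (ho_rel p.1 p.2.1 p.2.2.2)
    have ha : PresentedGroup.toGroup (ho_rel p.1 p.2.1 p.2.2.2) (n1 m) = p.1.2 :=
      PresentedGroup.toGroup.of (ho_rel p.1 p.2.1 p.2.2.2)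
    rw [h, ha]
    exact p.2.2.1
  · intro ρ
    apply Subtype.ext
    apply PresentedGroup.ext
    intro x
    refine (PresentedGroup.toGroup.of
      (ho_rel (ho_t ρ.1) (ho_pow ρ.1) (ho_prod ρ.1))).trans ?_
    cases x with
    | a i =>
      have hi : i = 0 := Subsingleton.elim _ _
      rw [hi]
      rfl
    | x j => rfl
  · intro p
    apply Subtype.ext
    refine Prod.ext ?_ ?_
    · funext j
      exact PresentedGroup.toGroup.of (ho_rel p.1 p.2.1 p.2.2.2)
    · exact PresentedGroup.toGroup.of (ho_rel p.1 p.2.1 p.2.2.2)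

end FLN
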