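import Pool.Agent.FLN.StN
import Pool.Agent.FL0.SMC

/-!
# FLN_SMC: the sum of the Frobenius formula over the tuples of classes
-/

set_option autoImplicit false

namespace FLN

open FL0 RSF Polynomial FL0.SMC

noncomputable section

/-- tuples -/
theorem smc_tup {F : Type} [Field F] {n d : ℕ} (c : Fin d → Fˣ) (A : Fin d → SL n F) (k : Fin d → ℕ)
    (hA : ∀ j, A j ^ k j ∈ Subgroup.center (SL n F)) (s : SL n F) (u : Fˣ)
    (hs : Matrix.SpecialLinearGroup.toGL s = sc u) :
    Nat.card {B : (Fin d → SL n F) × SL n F //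
        (∀ j, B.1 j ^ k j ∈ Subgroup.center (SL n F)) ∧
        (List.ofFn B.1).prod * B.2 ^ 2 = s ∧ ∀ j, cl (B.1 j) = cl (A j)} =
      Nat.card {t : (Fin d → GL (Fin n) F) × SL n F // (∀ j, IsConj (dn (c j) (A j)) (t.1 j)) ∧
        (List.ofFn fun j => (t.1 j).1).prod * t.2.1 ^ 2 =
          Matrix.scalar (Fin n) ((u * (List.ofFn c).prod⁻¹ : Fˣ) : F)} := by
  have key : ∀ B : (Fin d → SL n F) × SL n F, (List.ofFn B.1).prod * B.2 ^ 2 = s ↔
      (List.ofFn fun j => (dn (c j) (B.1 j)).1).prod * B.2.1 ^ 2 =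
        Matrix.scalar (Fin n) ((u * (List.ofFn c).prod⁻¹ : Fˣ) : F) := by
    intro B
    have h1 : (List.ofFn fun j => (dn (c j) (B.1 j)).1).prod * B.2.1 ^ 2 =
        ((List.ofFn fun j => dn (c j) (B.1 j)).prod *
          Matrix.SpecialLinearGroup.toGL B.2 ^ 2).1 := by
      have h2 := map_list_prod (Units.coeHom (Matrix (Fin n) (Fin n) F))
        (List.ofFn fun j => dn (c j) (B.1 j))
      rw [List.map_ofFn] at h2
      rw [Units.val_mul, Units.val_pow_eq_pow_val]
      exact congrArg (· * B.2.1 ^ 2) h2.symm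
    have h3 : (List.ofFn fun j => dn (c j) (B.1 j)).prod *
          Matrix.SpecialLinearGroup.toGL B.2 ^ 2 =
        sc (List.ofFn c).prod⁻¹ *
          Matrix.SpecialLinearGroup.toGL ((List.ofFn B.1).prod * B.2 ^ 2) := by
      unfold dn
      rw [prod_sc' (fun j => (c j)⁻¹)]
      have h4 : (List.ofFn fun j => (c j)⁻¹).prod = (List.ofFn c).prod⁻¹ := by
        rw [List.prod_inv, List.map_ofFn]
        rfl
      have h5 : Matrix.SpecialLinearGroup.toGL ((List.ofFn B.1).prod * B.2 ^ 2) =
          (List.ofFn fun j => Matrix.SpecialLinearGroup.toGL (B.1 j)).prod *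
            Matrix.SpecialLinearGroup.toGL B.2 ^ 2 := by
        rw [map_mul, map_pow, map_list_prod, List.map_ofFn]
        rfl
      rw [h4, h5, mul_assoc]
    rw [h1, ← sc_val, Units.val_inj, h3]
    constructor
    · intro h
      rw [h, hs, ← sc_mul, mul_comm]
    · intro h
      rw [mul_comm u, sc_mul] at h
      have h6 := mul_left_cancel h
      rw [← hs] at h6
      exact Matrix.SpecialLinearGroup.toGL_injective h6
  refine Nat.card_congr (Equiv.ofBijective (fun B => ⟨(fun j => dn (c j) (B.1.1 j), B.1.2),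
    fun j => (cl_eq_iff (c j) (A j) (B.1.1 j)).1 (B.2.2.2 j), (key B.1).1 B.2.2.1⟩) ⟨?_, ?_⟩)
  · intro B B' h
    have h0 := congrArg Subtype.val h
    apply Subtype.ext
    apply Prod.ext
    · funext j
      exact dn_inj (c j) (congrFun (congrArg Prod.fst h0) j)
    · have h7 := congrArg Prod.snd h0
      exact h7
  · rintro ⟨⟨t, b⟩, ht, ht'⟩
    have h1 : ∀ j, ∃ B : SL n F, dn (c j) B = t j := fun j => dn_surj (c j) (A j) (ht j)
    choose B hB using h1
    have h2 : ∀ j, cl (B j) = cl (A j) := fun j =>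
      (cl_eq_iff (c j) (A j) (B j)).2 (by rw [hB]; exact ht j)
    refine ⟨⟨(B, b), fun j => pow_center (h2 j) (hA j), (key (B, b)).2 ?_, h2⟩, ?_⟩
    · simp only [hB]
      exact ht'
    · apply Subtype.ext
      apply Prod.ext
      · funext j
        exact hB j
      · rfl

theorem t_SMC : M_SMC := by
  classical
  intro hFRO hROT hEVS m hm hσ
  obtain ⟨c, r, hc, hr⟩ := hFRO m hm hσ
  refine ⟨c, max r 1, hc, le_max_right _ _, ?_⟩
  intro n hn F _ _ hdvd hord s hs
  have hn1 : 1 ≤ n := (le_max_right _ _).trans hn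
  have hnr : r ≤ n := (le_max_left _ _).trans hn
  have hfinGL := finite_GL (F := F) (n := n)
  have hfinSL := finite_SL (F := F) (n := n)
  have : Fintype (SL n F) := Fintype.ofFinite _
  have : Finite (ConjClasses (GL (Fin n) F)) := Quotient.finite _
  have : Fintype (ConjClasses (GL (Fin n) F)) := Fintype.ofFinite _
  have : ∀ k, Fintype (CA n F k) := fun k => by
    unfold CA
    exact Fintype.ofFinite _
  set q : ℝ := (Nat.card F : ℝ) with hq
  have hq0 : 0 < q := by
    rw [hq]
    exact_mod_cast Nat.card_pos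
  obtain ⟨r0, hr0, hs0⟩ := (mem_center_iff' s).1 hs
  have hr00 : r0 ≠ 0 := by
    rintro rfl
    rw [zero_pow (by omega)] at hr0
    exact zero_ne_one hr0
  set u : Fˣ := Units.mk0 r0 hr00 with hu
  have hsu : Matrix.SpecialLinearGroup.toGL s = sc u := by
    apply Units.ext
    rw [sc_val, hu, Units.val_mk0, hs0]
    rfl
  -- the three families
  let a : Fin m.length → ConjClasses (GL (Fin n) F) → ℝ := fun j κ =>
    ∑ A : CA n F (m.get j), if cl A.1 = κ then (1 : ℝ) else 0
  let b : Fin m.length → ConjClasses (GL (Fin n) F) → ℝ := fun j κ =>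
    ∑ A : CA n F (m.get j), if cl A.1 = κ then q ^ (del (m.get j) A.1.1 / 2) else 0
  let T : (Fin m.length → ConjClasses (GL (Fin n) F)) → ℝ := fun κ =>
    (Nat.card {A : (Fin m.length → SL n F) × SL n F //
      (∀ j, A.1 j ^ m.get j ∈ Subgroup.center (SL n F)) ∧
      (List.ofFn A.1).prod * A.2 ^ 2 = s ∧ ∀ j, cl (A.1 j) = κ j} : ℝ)
  have ha : ∀ j, (Nat.card (CA n F (m.get j)) : ℝ) = ∑ κ, a j κ := by
    intro j
    simp only [a]
    rw [Finset.sum_comm]
    simp only [Finset.sum_ite_eq, Finset.mem_univ, if_true]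
    rw [Finset.sum_const, Finset.card_univ, Nat.card_eq_fintype_card, nsmul_eq_mul, mul_one]
  have hb : ∀ j, ∑ᶠ A : CA n F (m.get j), q ^ (del (m.get j) A.1.1 / 2) = ∑ κ, b j κ := by
    intro j
    simp only [b]
    rw [Finset.sum_comm]
    simp only [Finset.sum_ite_eq, Finset.mem_univ, if_true]
    rw [finsum_eq_sum_of_fintype]
  have hT : (Nat.card {A : (Fin m.length → SL n F) × SL n F //
      (∀ j, A.1 j ^ m.get j ∈ Subgroup.center (SL n F)) ∧
        (List.ofFn A.1).prod * A.2 ^ 2 = s} : ℝ) = ∑ κ, T κ := by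
    simp only [T]
    rw [← Nat.cast_sum]
    congr 1
    rw [← Nat.card_sigma]
    refine Nat.card_congr ⟨fun A => ⟨fun j => cl (A.1.1 j), ⟨A.1, A.2.1, A.2.2, fun j => rfl⟩⟩,
      fun p => ⟨p.2.1, p.2.2.1, p.2.2.2.1⟩, fun A => rfl, ?_⟩
    rintro ⟨κ, A, h1, h2, h3⟩
    have h4 : κ = fun j => cl (A.1 j) := by
      funext j
      exact (h3 j).symm
    subst h4
    rfl
  -- one tuple of classes
  have hone : ∀ κ, |T κ - ∏ j, a j (κ j)| ≤
      (∏ j, b j (κ j)) * q ^ (-c * (n : ℝ)) := by
    intro κ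
    by_cases hex : ∀ j, ∃ A : SL n F, A ^ m.get j ∈ Subgroup.center (SL n F) ∧ cl A = κ j
    · choose A hA hAκ using hex
      have hroot : ∀ j, ∃ c : Fˣ, dn c (A j) ^ m.get j = 1 := fun j =>
        exists_root hROT hn1 ((by norm_num : 1 ≤ 2).trans (hm _ (List.get_mem m j)))
          (hord _ (List.get_mem m j)) (A j) (hA j)
      choose w hw using hroot
      have hκ : κ = fun j => cl (A j) := by
        funext j
        exact (hAκ j).symm
      have haj : ∀ j, a j (κ j) = (Nat.card {t : GL (Fin n) F // IsConj (dn (w j) (A j)) t} : ℝ) := by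
        intro j
        rw [← card_one (w j) (A j) (hA j)]
        simp only [a]
        rw [← hAκ j, Finset.sum_boole]
        have e1 : (Finset.univ.filter fun x : CA n F (m.get j) => cl x.1 = cl (A j)).card =
            Nat.card {x : CA n F (m.get j) // cl x.1 = cl (A j)} := by
          rw [Nat.card_eq_fintype_card, Fintype.card_subtype]
        rw [e1]
        congr 1
        exact Nat.card_congr ⟨fun x => ⟨x.1.1, x.1.2, x.2⟩, fun y => ⟨⟨y.1, y.2.1⟩, y.2.2⟩,
          fun _ => rfl, fun _ => rfl⟩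
      have hdel : ∀ j, ∀ B : SL n F, cl B = κ j →
          del (m.get j) B.1 = del (m.get j) (dn (w j) (A j)).1 := by
        intro j B hB
        unfold del
        rw [sq_of_cl (hB.trans (hAκ j).symm), sq_dn hEVS]
      have hbj : ∀ j, b j (κ j) = (Nat.card {t : GL (Fin n) F // IsConj (dn (w j) (A j)) t} : ℝ) *
          q ^ (del (m.get j) (dn (w j) (A j)).1 / 2) := by
        intro j
        rw [← haj j]
        simp only [a, b]
        rw [Finset.sum_mul]
        refine Finset.sum_congr rfl fun B _ => ?_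
        split_ifs with h1
        · rw [hdel j B.1 h1, one_mul]
        · rw [zero_mul]
      have hTκ : T κ = (Nat.card {t : (Fin m.length → GL (Fin n) F) × SL n F //
          (∀ j, IsConj (dn (w j) (A j)) (t.1 j)) ∧
            (List.ofFn fun j => (t.1 j).1).prod * t.2.1 ^ 2 =
            Matrix.scalar (Fin n) ((u * (List.ofFn w).prod⁻¹ : Fˣ) : F)} : ℝ) := by
        rw [← smc_tup w A (fun j => m.get j) hA s u hsu, hκ]
      have hdet : ∏ j, (dn (w j) (A j)).1.det = (((u * (List.ofFn w).prod⁻¹ : Fˣ) : F)) ^ n := by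
        have h1 : ∀ j, (dn (w j) (A j)).1.det = (((w j)⁻¹ : Fˣ) : F) ^ n := by
          intro j
          change (Matrix.scalar (Fin n) (((w j)⁻¹ : Fˣ) : F) * (A j).1).det = _
          rw [Matrix.det_mul, (A j).2, mul_one]
          exact det_sc (w j)⁻¹
        simp only [h1]
        rw [Finset.prod_pow]
        have h2 : (((u * (List.ofFn w).prod⁻¹ : Fˣ) : F)) ^ n =
            ((((List.ofFn w).prod⁻¹ : Fˣ) : F)) ^ n := by
          rw [Units.val_mul, mul_pow, hu, Units.val_mk0, hr0, one_mul]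
        rw [h2, List.prod_ofFn, ← Finset.prod_inv_distrib, ← Units.coe_prod]
      have h1 := (hr n hnr F hdvd _ (Units.ne_zero (u * (List.ofFn w).prod⁻¹))
        (fun j => dn (w j) (A j)) hw).1 hdet
      rw [hTκ, Finset.prod_congr rfl fun j _ => haj j, Finset.prod_congr rfl fun j _ => hbj j]
      refine h1.trans (le_of_eq ?_)
      rw [Finset.prod_mul_distrib, mul_assoc]
      congr 1
      rw [sub_eq_add_neg, Real.rpow_add hq0, Finset.sum_div, neg_mul]
      congr 1
      exact Real.rpow_sum_of_pos hq0 _ _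
    · push Not at hex
      obtain ⟨j, hj⟩ := hex
      have haj : a j (κ j) = 0 := by
        refine Finset.sum_eq_zero fun A _ => ?_
        rw [if_neg (hj A.1 A.2)]
      have hbj : b j (κ j) = 0 := by
        refine Finset.sum_eq_zero fun A _ => ?_
        rw [if_neg (hj A.1 A.2)]
      have hTj : T κ = 0 := by
        have : IsEmpty {A : (Fin m.length → SL n F) × SL n F //
            (∀ j, A.1 j ^ m.get j ∈ Subgroup.center (SL n F)) ∧
              (List.ofFn A.1).prod * A.2 ^ 2 = s ∧ ∀ j, cl (A.1 j) = κ j} :=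
          ⟨fun A => hj (A.1.1 j) (A.2.1 j) (A.2.2.2 j)⟩
        simp only [T]
        rw [Nat.card_of_isEmpty, Nat.cast_zero]
      rw [hTj, Finset.prod_eq_zero (Finset.mem_univ j) haj,
        Finset.prod_eq_zero (Finset.mem_univ j) hbj]
      simp
  have hL : (∑ κ, T κ) - ∏ j, (Nat.card (CA n F (m.get j)) : ℝ) =
      ∑ κ : (Fin m.length → ConjClasses (GL (Fin n) F)),
        (T κ - ∏ j, a j (κ j)) := by
    rw [Finset.sum_sub_distrib]
    congr 1
    simp only [ha]
    rw [Finset.prod_univ_sum, Fintype.piFinset_univ]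
  have hR : (∏ j, ∑ᶠ A : CA n F (m.get j), q ^ (del (m.get j) A.1.1 / 2)) * q ^ (-c * (n : ℝ)) =
      ∑ κ : (Fin m.length → ConjClasses (GL (Fin n) F)),
        (∏ j, b j (κ j)) * q ^ (-c * (n : ℝ)) := by
    rw [← Finset.sum_mul]
    congr 1
    simp only [hb]
    rw [Finset.prod_univ_sum, Fintype.piFinset_univ]
  rw [hT, hL, hR]
  exact (Finset.abs_sum_le_sum_abs _ _).trans (Finset.sum_le_sum fun κ _ => hone κ)

end

end FLN
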