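import Pool.Agent.FLN.StN
import Pool.Agent.FL0.ZAN

/-!
# FLN, module ZAN: the cokernel of the product map
-/

set_option autoImplicit false

namespace FLN

open RSF FL0 Polynomial

noncomputable section

section

variable {F A B : Type} [Field F] [AddCommGroup A] [Module F A] [AddCommGroup B] [Module F B]

theorem zan_un {d : ℕ} (a : Fin d → (A →ₗ[F] A)) (u : A →ₗ[F] A) (b : Fin d → (B →ₗ[F] B))
    (v : B →ₗ[F] B) (c : Fin d → (B →ₗ[F] A)) (e : B →ₗ[F] A) :
    un a u b v c e = (List.ofFn a).prod ∘ₗ (u ∘ₗ e + e ∘ₗ v) + ur a b c ∘ₗ (v ^ 2) := by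
  unfold un
  rw [ZAN_aux.prod_bk, _root_.sq (bk u e v), ZAN_aux.bk_mul, ZAN_aux.bk_mul, ZAN_aux.ur_bk, _root_.sq v]

/-- The product map on the tuples of commutators. -/
def zan_Phi {d : ℕ} (a : Fin d → (A →ₗ[F] A)) (u : A →ₗ[F] A) (b : Fin d → (B →ₗ[F] B))
    (v : B →ₗ[F] B) : ((Fin d → (B →ₗ[F] A)) × (B →ₗ[F] A)) →ₗ[F] (B →ₗ[F] A) where
  toFun h := un a u b v (fun j => a j ∘ₗ h.1 j - h.1 j ∘ₗ b j) h.2
  map_add' h h' := by
    have h1 : ur a b (fun j => a j ∘ₗ (h + h').1 j - (h + h').1 j ∘ₗ b j) =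
        ur a b (fun j => a j ∘ₗ h.1 j - h.1 j ∘ₗ b j) +
          ur a b (fun j => a j ∘ₗ h'.1 j - h'.1 j ∘ₗ b j) :=
      (ZAN_aux.Phi a b).map_add h.1 h'.1
    rw [zan_un, zan_un, zan_un, h1, Prod.snd_add]
    simp only [LinearMap.comp_add, LinearMap.add_comp]
    abel
  map_smul' r h := by
    have h1 : ur a b (fun j => a j ∘ₗ (r • h).1 j - (r • h).1 j ∘ₗ b j) =
        r • ur a b (fun j => a j ∘ₗ h.1 j - h.1 j ∘ₗ b j) :=
      (ZAN_aux.Phi a b).map_smul r h.1
    rw [zan_un, zan_un, h1, Prod.smul_snd, RingHom.id_apply, LinearMap.comp_smul,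
      LinearMap.smul_comp, LinearMap.smul_comp, ← smul_add, LinearMap.comp_smul, ← smul_add]

end

/-- ZAN. -/
theorem t_ZAN : S_ZAN := by
  intro F A B _ _ _ _ _ _ _ _ d z hz a u b v ha hb
  have hfin : Finite (A →ₗ[F] B) := Module.finite_of_finite F
  have hfin' : Finite (Hn a u b v) := by
    unfold Hn
    infer_instance
  have hI : Nat.card {y : B →ₗ[F] A // ∃ (h : Fin d → (B →ₗ[F] A)) (e : B →ₗ[F] A),
      un a u b v (fun j => a j ∘ₗ h j - h j ∘ₗ b j) e = y} =
      Nat.card F ^ Module.finrank F (LinearMap.range (zan_Phi a u b v)) := by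
    rw [← Module.natCard_eq_pow_finrank]
    exact Nat.card_congr (Equiv.subtypeEquivRight fun y =>
      ⟨fun ⟨h, e, k⟩ => ⟨(h, e), k⟩, fun ⟨⟨h, e⟩, k⟩ => ⟨h, e, k⟩⟩)
  have hA : Nat.card (LinearMap.range (zan_Phi a u b v)).dualAnnihilator =
      Nat.card F ^ Module.finrank F (LinearMap.range (zan_Phi a u b v)).dualAnnihilator :=
    Module.natCard_eq_pow_finrank (K := F)
      (V := ((LinearMap.range (zan_Phi a u b v)).dualAnnihilator :
        Submodule F (Module.Dual F (B →ₗ[F] A))))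
  have hsum := Subspace.finrank_add_finrank_dualAnnihilator_eq (LinearMap.range (zan_Phi a u b v))
  have hle : Nat.card (LinearMap.range (zan_Phi a u b v)).dualAnnihilator ≤
      Nat.card (Hn a u b v) := by
    have key : ∀ ψ : (LinearMap.range (zan_Phi a u b v)).dualAnnihilator,
        ∃ T : Hn a u b v, ZAN_aux.tau T.1 = ψ.1 := by
      intro ψ
      obtain ⟨T, hT⟩ := ZAN_aux.tau_surj (F := F) (A := A) (B := B) ψ.1
      have hker : ∀ (h : Fin d → (B →ₗ[F] A)) (e : B →ₗ[F] A),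
          LinearMap.trace F B (T ∘ₗ un a u b v (fun j => a j ∘ₗ h j - h j ∘ₗ b j) e) = 0 := by
        intro h e
        have h1 := (Submodule.mem_dualAnnihilator ψ.1).1 ψ.2 (zan_Phi a u b v (h, e)) ⟨_, rfl⟩
        rw [← hT] at h1
        exact h1
      have hz1 : ((z • (1 : B →ₗ[F] B)) : B →ₗ[F] B) ∘ₗ T = z • T := by
        refine LinearMap.ext fun x => ?_
        simp
      have hz2 : T ∘ₗ ((z • (1 : A →ₗ[F] A)) : A →ₗ[F] A) = z • T := by
        refine LinearMap.ext fun x => ?_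
        simp
      refine ⟨⟨T, fun j => ?_, ?_⟩, hT⟩
      · obtain ⟨Y, hY1, hY2⟩ := ZAN_aux.claim a b ((v ^ 2) ∘ₗ T) (fun h => by
          have h1 := hker h 0
          rw [zan_un, LinearMap.comp_zero, LinearMap.zero_comp, add_zero, LinearMap.comp_zero,
            zero_add, ← LinearMap.comp_assoc] at h1
          rw [LinearMap.comp_assoc, LinearMap.trace_comp_comm']
          exact h1) j
        have hb' : (List.ofFn b).prod ∘ₗ (v ^ 2) ∘ₗ T = z • T := by
          rw [← LinearMap.comp_assoc, ← hz1, ← hb]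
          rfl
        rw [hb'] at hY1 hY2
        have h1 : z • (T ∘ₗ a j) = z • (b j ∘ₗ T) := by
          rw [← LinearMap.smul_comp, ← LinearMap.comp_smul, ← hY2, LinearMap.comp_assoc, hY1, hY2]
        exact smul_right_injective _ hz h1
      · set P : A →ₗ[F] A := (List.ofFn a).prod with hP
        have hu : T ∘ₗ P ∘ₗ u = -(v ∘ₗ T ∘ₗ P) := by
          rw [← sub_eq_zero, sub_neg_eq_add]
          refine ZAN_aux.tau_inj _ fun X => ?_
          have h1 := hker 0 X
          have h2 : ur a b (fun j => a j ∘ₗ (0 : Fin d → (B →ₗ[F] A)) j -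
              (0 : Fin d → (B →ₗ[F] A)) j ∘ₗ b j) = 0 := (ZAN_aux.Phi a b).map_zero
          rw [zan_un, h2, LinearMap.zero_comp, add_zero, ← hP, LinearMap.comp_add,
            LinearMap.comp_add, map_add] at h1
          rw [LinearMap.add_comp, map_add]
          have h3 : LinearMap.trace F B (v ∘ₗ (T ∘ₗ P ∘ₗ X)) =
              LinearMap.trace F B ((T ∘ₗ P ∘ₗ X) ∘ₗ v) :=
            LinearMap.trace_comp_comm' (T ∘ₗ P ∘ₗ X) v
          have h4 : (v ∘ₗ T ∘ₗ P) ∘ₗ X = v ∘ₗ (T ∘ₗ P ∘ₗ X) := rfl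
          have h5 : T ∘ₗ P ∘ₗ X ∘ₗ v = (T ∘ₗ P ∘ₗ X) ∘ₗ v := rfl
          rw [h4, h3, ← h5]
          exact h1
        have hPu : P ∘ₗ u ∘ₗ u = z • (1 : A →ₗ[F] A) := by
          rw [← ha, _root_.sq]
          rfl
        have h1 : z • (T ∘ₗ u) = z • (-(v ∘ₗ T)) := by
          calc z • (T ∘ₗ u) = (z • T) ∘ₗ u := (LinearMap.smul_comp _ _ _).symm
            _ = (T ∘ₗ P ∘ₗ u) ∘ₗ u ∘ₗ u := by rw [← hz2, ← hPu]; rfl
            _ = -((v ∘ₗ T) ∘ₗ (P ∘ₗ u ∘ₗ u)) := by rw [hu, LinearMap.neg_comp]; rfl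
            _ = z • (-(v ∘ₗ T)) := by
              rw [hPu, LinearMap.comp_smul, smul_neg]
              rfl
        exact smul_right_injective _ hz h1
    choose g hg using key
    refine Nat.card_le_card_of_injective g fun ψ ψ' h => ?_
    exact Subtype.ext (by rw [← hg ψ, ← hg ψ', h])
  have hfr : Module.finrank F A * Module.finrank F B = Module.finrank F (B →ₗ[F] A) := by
    rw [Module.finrank_linearMap, mul_comm]
  rw [hfr, ← hsum, pow_add, hI, ← hA]
  exact Nat.mul_le_mul_left _ hle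

end

end FLN
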