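import Mathlib
import Pool.Agent.FLN.StN
import Pool.Agent.FL0.ZON

/-!
# FLN: the number of the upper right blocks

MP_5b5212_al, non-oriented groups of genus one, module ZON (adaptation of `FL0/ZON.lean`).
-/

set_option autoImplicit false

namespace FLN

open RSF FL0 Polynomial Pool.Agent.Lib_helper13

noncomputable section

section Block

variable {F A B : Type} [Field F] [AddCommGroup A] [Module F A] [AddCommGroup B] [Module F B]

lemma zon_prod {d : ℕ} (a : Fin d → (A →ₗ[F] A)) (u : A →ₗ[F] A) (b : Fin d → (B →ₗ[F] B))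
    (v : B →ₗ[F] B) (c : Fin d → (B →ₗ[F] A)) (e : B →ₗ[F] A) :
    (List.ofFn fun j => bk (a j) (c j) (b j)).prod * bk u e v ^ 2 =
      bk ((List.ofFn a).prod * (u * u))
        ((List.ofFn a).prod ∘ₗ (u ∘ₗ e + e ∘ₗ v) + ur a b c ∘ₗ (v * v))
        ((List.ofFn b).prod * (v * v)) := by
  rw [FL0.ZON.prod_bk, pow_two, FL0.ZON.bk_mul, FL0.ZON.bk_mul]

lemma zon_un {d : ℕ} (a : Fin d → (A →ₗ[F] A)) (u : A →ₗ[F] A) (b : Fin d → (B →ₗ[F] B))
    (v : B →ₗ[F] B) (c : Fin d → (B →ₗ[F] A)) (e : B →ₗ[F] A) :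
    un a u b v c e = (List.ofFn a).prod ∘ₗ (u ∘ₗ e + e ∘ₗ v) + ur a b c ∘ₗ (v * v) := by
  unfold un
  rw [zon_prod, FL0.ZON.fst_bk_inr]

lemma zon_un_add {d : ℕ} (a : Fin d → (A →ₗ[F] A)) (u : A →ₗ[F] A) (b : Fin d → (B →ₗ[F] B))
    (v : B →ₗ[F] B) (c c' : Fin d → (B →ₗ[F] A)) (e e' : B →ₗ[F] A) :
    un a u b v (c + c') (e + e') = un a u b v c e + un a u b v c' e' := by
  rw [zon_un, zon_un, zon_un, FL0.ZON.ur_add]
  simp only [LinearMap.comp_add, LinearMap.add_comp]
  abel

/-- the additive map -/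
def zon_U {d : ℕ} (a : Fin d → (A →ₗ[F] A)) (u : A →ₗ[F] A) (b : Fin d → (B →ₗ[F] B))
    (v : B →ₗ[F] B) : ((Fin d → (B →ₗ[F] A)) × (B →ₗ[F] A)) →+ (B →ₗ[F] A) :=
  AddMonoidHom.mk' (fun p => un a u b v p.1 p.2) (fun p p' => zon_un_add a u b v p.1 p'.1 p.2 p'.2)

/-- the commutators -/
def zon_L {d : ℕ} (a : Fin d → (A →ₗ[F] A)) (b : Fin d → (B →ₗ[F] B)) :
    ((Fin d → (B →ₗ[F] A)) × (B →ₗ[F] A)) →+ ((Fin d → (B →ₗ[F] A)) × (B →ₗ[F] A)) :=
  AddMonoidHom.prodMap (FL0.ZON.LH a b) (AddMonoidHom.id _)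

end Block

theorem t_ZON : M_ZON := by
  classical
  intro hZRG hZCM hZAN F A B _ _ _ _ _ _ _ _ m hm2 hmq z hz a u b v ha hb
  set q := Nat.card F with hq
  set S := {c : (Fin m.length → (B →ₗ[F] A)) × (B →ₗ[F] A) //
          (∀ j, bk (a j) (c.1 j) (b j) ^ m.get j = 1) ∧
          (List.ofFn fun j => bk (a j) (c.1 j) (b j)).prod * bk u c.2 v ^ 2 = z • 1} with hS
  haveI : Finite A := Module.finite_of_finite F
  haveI : Finite B := Module.finite_of_finite F
  haveI : Finite (B →ₗ[F] A) := Module.finite_of_finite F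
  rcases isEmpty_or_nonempty S with hE | ⟨⟨c0, hc0⟩⟩
  · rw [Nat.card_of_isEmpty, zero_mul]
    exact Nat.zero_le _
  have hz1 : LinearMap.fst F A B ∘ₗ (z • (1 : (A × B) →ₗ[F] (A × B))) ∘ₗ LinearMap.inr F A B = 0 := by
    apply LinearMap.ext
    intro w
    change z • (0 : A) = 0
    rw [smul_zero]
  have hpa : (List.ofFn a).prod * u ^ 2 = z • 1 := by
    have h1 := hc0.2
    rw [zon_prod] at h1
    have h2 := congrArg (fun T => LinearMap.fst F A B ∘ₗ T ∘ₗ LinearMap.inl F A B) h1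
    simp only [FL0.ZON.fst_bk_inl] at h2
    rw [pow_two]
    exact h2
  have hpb : (List.ofFn b).prod * v ^ 2 = z • 1 := by
    have h1 := hc0.2
    rw [zon_prod] at h1
    have h2 := congrArg (fun T => LinearMap.snd F A B ∘ₗ T ∘ₗ LinearMap.inr F A B) h1
    simp only [FL0.ZON.snd_bk_inr] at h2
    rw [pow_two]
    exact h2
  -- the maps
  let L := FL0.ZON.LH a b
  let U := zon_U a u b v
  let f := U.comp (zon_L a b)
  have hI : Nat.card {y : B →ₗ[F] A // ∃ (h : Fin m.length → (B →ₗ[F] A)) (e : B →ₗ[F] A),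
      un a u b v (fun j => a j ∘ₗ h j - h j ∘ₗ b j) e = y} = Nat.card f.range := by
    refine Nat.card_congr (Equiv.subtypeEquivRight fun y => ?_)
    rw [AddMonoidHom.mem_range]
    constructor
    · rintro ⟨h, e, he⟩
      exact ⟨(h, e), he⟩
    · rintro ⟨⟨h, e⟩, he⟩
      exact ⟨h, e, he⟩
  have hker : Nat.card f.ker * Nat.card f.range =
      Nat.card ((Fin m.length → (B →ₗ[F] A)) × (B →ₗ[F] A)) := by
    rw [← AddSubgroup.index_ker]
    exact AddSubgroup.card_mul_index _
  have hBA : Nat.card (B →ₗ[F] A) = q ^ (Module.finrank F A * Module.finrank F B) := by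
    rw [Module.natCard_eq_pow_finrank (K := F), Module.finrank_linearMap, hq]
    congr 1
    ring
  have hG : Nat.card ((Fin m.length → (B →ₗ[F] A)) × (B →ₗ[F] A)) =
      q ^ ((m.length + 1) * (Module.finrank F A * Module.finrank F B)) := by
    rw [Nat.card_prod, Nat.card_pi, Finset.prod_const, Finset.card_univ, Fintype.card_fin, hBA,
      ← pow_mul, ← pow_add]
    congr 1
    ring
  -- the kernel of `L`
  have hkL : q ^ (pr a b) ≤ Nat.card L.ker := by
    have e1 : Nat.card L.ker =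
        Nat.card {h : Fin m.length → (B →ₗ[F] A) // ∀ j, a j ∘ₗ h j = h j ∘ₗ b j} := by
      refine Nat.card_congr (Equiv.subtypeEquivRight fun h => ?_)
      rw [AddMonoidHom.mem_ker]
      constructor
      · intro h1 j
        exact sub_eq_zero.1 (congrFun h1 j)
      · intro h1
        funext j
        exact sub_eq_zero.2 (h1 j)
    rw [e1, Nat.card_congr (Equiv.subtypePiEquivPi (p := fun j (h : B →ₗ[F] A) =>
      a j ∘ₗ h = h ∘ₗ b j)), Nat.card_pi]
    unfold pr
    rw [← Finset.prod_pow_eq_pow_sum]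
    refine Finset.prod_le_prod' fun j _ => ?_
    exact hZCM F A B (m.get j) (by
      have := hm2 _ (List.get_mem m j)
      omega) (hmq _ (List.get_mem m j)) (a j) (b j) (ha j) (hb j)
  -- `(k : F) ≠ 0`
  have hk0 : ∀ j, ((m.get j : ℕ) : F) ≠ 0 := by
    intro j h0
    obtain ⟨t, ht⟩ := hmq _ (List.get_mem m j)
    haveI : Fintype F := Fintype.ofFinite F
    have h1 : (q : F) = 0 := by
      rw [hq, Nat.card_eq_fintype_card]
      exact FiniteField.cast_card_eq_zero F
    have h2 : 1 ≤ q := Nat.card_pos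
    have h3 : ((q - 1 : ℕ) : F) = -1 := by
      rw [Nat.cast_sub h2, h1]
      simp
    rw [ht] at h3
    push_cast at h3
    rw [h0, zero_mul] at h3
    exact one_ne_zero (neg_eq_zero.1 h3.symm)
  -- the injection
  have hex : ∀ c : S, ∃ h, L h = c.1.1 := by
    intro c
    have h1 : ∀ j, ∃ h : B →ₗ[F] A, c.1.1 j = a j ∘ₗ h - h ∘ₗ b j := fun j =>
      hZRG F A B (m.get j) (by
        have := hm2 _ (List.get_mem m j)
        omega) (hk0 j) (a j) (b j) (c.1.1 j) (ha j) (hb j) (c.2.1 j)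
    choose h hh using h1
    exact ⟨h, funext fun j => (hh j).symm⟩
  choose s hs using hex
  have hU : ∀ c : S, U c.1 = 0 := by
    intro c
    change un a u b v c.1.1 c.1.2 = 0
    unfold un
    rw [c.2.2]
    exact hz1
  have hinj : Nat.card S * Nat.card L.ker ≤ Nat.card f.ker := by
    rw [← Nat.card_prod]
    refine Nat.card_le_card_of_injective
      (fun p : S × L.ker => (⟨(s p.1 + p.2.1, p.1.1.2), ?_⟩ : f.ker)) ?_
    · rw [AddMonoidHom.mem_ker]
      change U (L (s p.1 + p.2.1), p.1.1.2) = 0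
      rw [map_add, hs, AddMonoidHom.mem_ker.1 p.2.2, add_zero]
      exact hU p.1
    · rintro ⟨c, h⟩ ⟨c', h'⟩ he
      have h0 : ((s c + h.1, c.1.2) : (Fin m.length → (B →ₗ[F] A)) × (B →ₗ[F] A)) =
          (s c' + h'.1, c'.1.2) := congrArg Subtype.val he
      have h1 : s c + h.1 = s c' + h'.1 := (Prod.ext_iff.1 h0).1
      have h1' : c.1.2 = c'.1.2 := (Prod.ext_iff.1 h0).2
      have h2 := congrArg L h1
      rw [map_add, map_add, hs, hs, AddMonoidHom.mem_ker.1 h.2, AddMonoidHom.mem_ker.1 h'.2,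
        add_zero, add_zero] at h2
      have h3 : c = c' := Subtype.ext (Prod.ext h2 h1')
      subst h3
      have h4 : h = h' := Subtype.ext (add_left_cancel h1)
      rw [h4]
  have hAN := hZAN F A B m.length z hz a u b v hpa hpb
  rw [hI] at hAN
  calc Nat.card S * q ^ (Module.finrank F A * Module.finrank F B + pr a b)
      = Nat.card S * q ^ (pr a b) * q ^ (Module.finrank F A * Module.finrank F B) := by
        rw [pow_add]
        ring
    _ ≤ Nat.card S * Nat.card L.ker * (Nat.card f.range * Nat.card (Hn a u b v)) :=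
        Nat.mul_le_mul (Nat.mul_le_mul_left _ hkL) hAN
    _ ≤ Nat.card f.ker * (Nat.card f.range * Nat.card (Hn a u b v)) :=
        Nat.mul_le_mul_right _ hinj
    _ = q ^ ((m.length + 1) * (Module.finrank F A * Module.finrank F B)) *
          Nat.card (Hn a u b v) := by
        rw [← mul_assoc, hker, hG]

end

end FLN
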