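import Pool.Agent.FL0.All
import Pool.Agent.FLN.FSI
import Pool.Agent.FLN.FRO
import Pool.Agent.FLN.UPB
import Pool.Agent.FLN.ZAN
import Pool.Agent.FLN.ZON
import Pool.Agent.FLN.FIB
import Pool.Agent.FLN.SMP
import Pool.Agent.FLN.HNF
import Pool.Agent.FLN.DEC
import Pool.Agent.FLN.PAR
import Pool.Agent.FLN.RED
import Pool.Agent.FLN.HO
import Pool.Agent.FLN.LFH
import Pool.Agent.FLN.SMC
import Pool.Agent.FLN.CNT
import Pool.Agent.FLN.LOW
import Pool.Agent.FLN.FII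
import Pool.Agent.FLN.FIII

/-!
# Random homomorphisms of non-oriented groups of genus 1 to `PSL_n(q)`: assembly
-/

namespace FLN

open RSF FL0

theorem a_FRO : S_FRO := t_FRO FLC.t_MN FLC.t_FRB FLC.a_FL FLC.a_ZET FLC.a_LIN t_FSI
theorem a_UPB : S_UPB := t_UPB f_PI a_FRO a_EVS a_CLS
theorem a_ZON : S_ZON := t_ZON t_ZRG a_ZCM t_ZAN
theorem a_FIB : S_FIB := t_FIB a_ZON
theorem a_HNF : S_HNF := t_HNF t_DIA
theorem a_DEC : S_DEC := t_DEC t_DIA t_SMP a_HNF a_STR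
theorem a_PAR : S_PAR := t_PAR t_DIA a_EVS a_UPB a_FIB
theorem a_RED : S_RED := t_RED f_SUB a_EVS a_UPB a_DEC a_PAR
theorem a_LFH : S_LFH := t_LFH t_HO
theorem a_SMC : S_SMC := t_SMC a_FRO t_ROT a_EVS
theorem a_CNT : S_CNT := t_CNT FL0.a_LFH a_LFH a_SMC a_ABS t_POL
theorem a_LOW : S_LOW := t_LOW f_PI f_PJ a_CNT
theorem a_FII : S_FII := t_FII a_RED a_LFH t_ROT a_LOW t_POL
theorem a_FIII : S_FIII := t_FIII t_HO a_LOW
theorem a_Main : Main := FL0.t_Main1 a_CNT a_FII a_FIII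

end FLN
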